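import Pool.Agent.BPN.S.Conn
import Pool.Agent.BPN.EOut

/-!
# Basic facts on Eilenberg-MacLane spectra (project BPN, module S/EMb)
-/

namespace BPN

open GSp

variable (M : Type) [AddCommGroup M]

theorem EM.below (n : ℤ) : (EM M n).Below n := fun _ hq c => EMG.eq_zero_of_lt hq c

variable {M}

private theorem em_ge {f : ℕ → ℕ} (hf : StrictMono f) (x : ℕ) : ∀ y, f x + y ≤ f (x + y) := by
  intro y
  induction y with
  | zero => simp
  | succ y ih =>
    have := hf (show x + y < x + (y + 1) by omega)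
    omega

private theorem em_id {f : ℕ → ℕ} (hf : StrictMono f) (hs : Shift f 0) : f = id := by
  obtain ⟨N, hN⟩ := hs
  funext x
  have h1 := em_ge hf x N
  have h2 := hN (x + N) (by omega)
  have h3 := hf.le_apply (x := x)
  rw [id_eq]
  omega

private theorem em_surj {f : ℕ → ℕ} (hf : StrictMono f) (h : ∀ i, ∃ j, f j = i) : f = id := by
  have key : ∀ x, f x ≤ x := by
    intro x
    induction x using Nat.strong_induction_on with
    | _ x ih =>
      obtain ⟨z, hz⟩ := h x
      rcases lt_or_ge z x with hzx | hzx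
      · have := ih z hzx
        omega
      · have := hf.monotone hzx
        omega
  funext x
  exact le_antisymm (key x) hf.le_apply

private theorem em_factor {f : ℕ → ℕ} {i : ℕ} (h : ∀ j, f j ≠ i) : f = dl i ∘ (sg i ∘ f) := by
  funext j
  have := h j
  simp only [Function.comp_apply, dl, sg]
  split_ifs <;> omega

private theorem em_not_surj {f : ℕ → ℕ} (hf : StrictMono f) {k : ℤ} (hs : Shift f k)
    (hk : 0 < k) : ∃ i, ∀ j, f j ≠ i := by
  by_contra hn
  push Not at hn
  have h1 := em_surj hf hn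
  obtain ⟨N, hN⟩ := hs
  have h2 := hN N le_rfl
  rw [h1, id_eq] at h2
  omega

private theorem em_zero {n q : ℤ} (x : (EM M n).G q) {f : ℕ → ℕ}
    (h : ¬ (StrictMono f ∧ Shift f (q - n))) : x.1 f = 0 := by
  by_contra hne
  exact h (x.2.1 f hne)

/-- An element of degree `> n` is determined by its faces.  PROOF: a strictly monotone `f` with
shift `q - n > 0` misses a value `i`, so `f = dl i ∘ f'`. -/
theorem EM.sep {n q r : ℤ} (h : q + 1 = r) (hn : n ≤ q) {x y : (EM M n).G r}
    (hxy : ∀ i, (EM M n).d i h x = (EM M n).d i h y) : x = y := by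
  refine Subtype.ext (funext fun f => ?_)
  by_cases h0 : StrictMono f ∧ Shift f (r - n)
  · obtain ⟨i, hi⟩ := em_not_surj h0.1 h0.2 (by omega)
    have h1 := em_factor hi
    have h2 : x.1 (dl i ∘ (sg i ∘ f)) = y.1 (dl i ∘ (sg i ∘ f)) :=
      congrArg (fun z : (EM M n).G q => z.1 (sg i ∘ f)) (hxy i)
    rw [← h1] at h2
    exact h2
  · rw [em_zero x h0, em_zero y h0]

/-- In degree `n` the value at `id` determines the element (a strictly monotone `f` with shift `0` is
`id`). -/
theorem EM.ext_bot {n : ℤ} {x y : (EM M n).G n} (h : x.1 id = y.1 id) : x = y := by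
  refine Subtype.ext (funext fun f => ?_)
  by_cases h0 : StrictMono f ∧ Shift f (n - n)
  · have h1 : f = id := em_id h0.1 (by simpa using h0.2)
    rw [h1]
    exact h
  · rw [em_zero x h0, em_zero y h0]

@[simp] theorem EM.bot_id (n : ℤ) (m : M) : (EM.bot M n m).1 id = m := if_pos rfl

/-- `π_q (EM M n) = 0` for `q ≠ n`. -/
theorem EM.vanish {n q : ℤ} (h : q ≠ n) : (EM M n).Vanish q := by
  intro z hz
  have h0 : z = 0 := by
    rcases lt_or_gt_of_ne h with h1 | h1
    · exact EMG.eq_zero_of_lt h1 z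
    · refine EM.sep (q := q - 1) (by omega) (by omega) fun i => ?_
      rw [hz i (by omega), map_zero]
  rw [h0]
  exact zero_mem _

private theorem em_B {n : ℤ} {z : (EM M n).G n} (hz : z ∈ (EM M n).B n) : z.1 id = 0 := by
  obtain ⟨y, hy, rfl⟩ := hz
  obtain ⟨K₀, hK⟩ := y.2.2.2 id monotone_id ⟨0, fun i _ => by rw [id_eq]; omega⟩
  have h1 := hK (K₀ + 1) (by omega)
  rw [Finset.sum_range_succ'] at h1
  have h2 : ∀ i, y.1 (id ∘ dl (i + 1)) = 0 := by
    intro i
    have h3 := hy i (rfl : n + 1 = n + 1)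
    exact congrArg (fun z : (EM M n).G n => z.1 id) h3
  rw [Finset.sum_eq_zero (fun i _ => by rw [h2, smul_zero]), zero_add, pow_zero, one_smul] at h1
  exact h1

/-- `π_n (EM M n) = M`, by the value at `id`. -/
noncomputable def EM.piHom (M : Type) [AddCommGroup M] (n : ℤ) : (EM M n).pi n →+ M :=
  QuotientAddGroup.lift _
    { toFun := fun z : (EM M n).Z n => (z.1.1 : (ℕ → ℕ) → M) id
      map_zero' := rfl
      map_add' := fun _ _ => rfl }
    (fun z hz => by
      have h1 : z.1 ∈ (EM M n).B n := hz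
      exact em_B h1)

theorem EM.piHom_mk (n : ℤ) (z : (EM M n).Z n) :
    EM.piHom M n ((EM M n).piMk n z) = (z.1.1 : (ℕ → ℕ) → M) id := rfl

theorem EM.piHom_bijective (n : ℤ) : Function.Bijective (EM.piHom M n) := by
  constructor
  · rw [injective_iff_map_eq_zero]
    intro x hx
    obtain ⟨z, rfl⟩ := (EM M n).piMk_surj n x
    rw [EM.piHom_mk] at hx
    have h0 : z.1 = 0 := EM.ext_bot hx
    have h1 : z = 0 := Subtype.ext h0
    rw [h1, map_zero]
  · intro m
    refine ⟨(EM M n).piMk n ⟨EM.bot M n m, fun i r h => EMG.eq_zero_of_lt (by omega) _⟩, ?_⟩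
    rw [EM.piHom_mk]
    exact EM.bot_id n m

/-- Two maps to `EM M n` are equal if they agree in degree `n` at `id`. -/
theorem EM.map_ext {X : PSp} {n : ℤ} {a b : Map X (EM M n)}
    (h : ∀ x : X.X n, (a.f n x).1 id = (b.f n x).1 id) : a = b := by
  have key : ∀ k : ℕ, ∀ q, q = n + k → ∀ x, a.f q x = b.f q x := by
    intro k
    induction k with
    | zero =>
      intro q hq x
      obtain rfl : q = n := by simpa using hq
      exact EM.ext_bot (h x)
    | succ k ih =>
      intro q hq x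
      refine EM.sep (q := n + k) (by push_cast at hq; omega) (by omega) fun i => ?_
      rw [← a.map_d, ← b.map_d, ih _ rfl]
  refine Map.ext2 fun q x => ?_
  rcases lt_or_ge q n with hq | hq
  · rw [EMG.eq_zero_of_lt hq (a.f q x), EMG.eq_zero_of_lt hq (b.f q x)]
  · exact key (q - n).toNat q (by omega) x

/-- The cochain of a map: it vanishes on degenerate elements. -/
theorem EM.map_deg {X : PSp} {n : ℤ} (a : Map X (EM M n)) (i : ℕ) {q : ℤ} (h : q + 1 = n)
    (x : X.X q) : a.f n (X.s i h x) = 0 := by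
  rw [a.map_s, EMG.eq_zero_of_lt (by omega) (a.f q x), map_zero]

/-- The cochain of a map is a cocycle. -/
theorem EM.map_coc {X : PSp} {n r : ℤ} (a : Map X (EM M n)) (h : n + 1 = r) (x : X.X r) :
    ∃ K₀ : ℕ, ∀ K, K₀ ≤ K →
      ∑ i ∈ Finset.range K, (-1 : ℤ) ^ i • (a.f n (X.d i h x)).1 id = 0 := by
  obtain ⟨K₀, hK⟩ := (a.f r x).2.2.2 id monotone_id ⟨0, fun i _ => by rw [id_eq]; omega⟩
  refine ⟨K₀, fun K hKK => ?_⟩
  rw [← hK K hKK]
  refine Finset.sum_congr rfl fun i _ => ?_
  rw [a.map_d i h x]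
  rfl

private def zeroSp : GSp where
  G := fun _ => PUnit
  d := fun _ _ _ _ => 0
  s := fun _ _ _ _ => 0
  dd := fun _ _ _ _ _ _ _ => rfl
  ds_lt := fun _ _ _ _ _ _ _ => rfl
  ds_eq := fun _ _ _ _ _ => rfl
  ds_succ := fun _ _ _ _ _ => rfl
  ds_gt := fun _ _ _ _ _ _ _ => rfl
  ss := fun _ _ _ _ _ _ _ => rfl
  fin := fun _ _ => ⟨0, fun _ _ => rfl⟩

private def zHom (E : GSp) : Hom E zeroSp := ⟨fun _ => 0, fun _ _ _ _ _ => rfl,
  fun _ _ _ _ _ => rfl⟩

private theorem zHom_surj (E : GSp) : (zHom E).Surj := fun _ _ => ⟨0, rfl⟩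

private theorem zHom_ker {E : GSp} (q : ℤ) (h : E.Vanish q) :
    (GSp.ker (zHom E)).Vanish q := by
  intro z hz
  have h1 : z.1 ∈ E.Z q := fun i r hr => congrArg Subtype.val (hz i hr)
  obtain ⟨y, hy, hyz⟩ := h z.1 h1
  exact ⟨⟨y, rfl⟩, fun i r hr => Subtype.ext (hy i hr), Subtype.ext hyz⟩

private theorem em_extend {X : PSp} {E : GSp} {m : ℤ} (hK : ∀ q, m ≤ q → E.Vanish q)
    (h : ∀ q, X.X q → E.G q) (hpt : ∀ q, q ≤ m → h q (X.pt q) = 0)
    (hd : ∀ (i : ℕ) {q r : ℤ} (e : q + 1 = r) (x : X.X r), r ≤ m →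
      h q (X.d i e x) = E.d i e (h r x))
    (hs : ∀ (i : ℕ) {q r : ℤ} (e : q + 1 = r) (x : X.X q), r ≤ m →
      h r (X.s i e x) = E.s i e (h q x)) :
    ∃ h' : Map X E, ∀ q, q ≤ m → ∀ x, h'.f q x = h q x := by
  have hh : PLift (zHom E) (0 : Map X zeroSp) (PSub.bot X) (0 : Map (PSub.bot X).toPSp E) m h := by
    refine ⟨fun _ _ _ => rfl, hpt, hd, hs, ?_⟩
    intro q hq x
    have h1 : x.1 = X.pt q := x.2
    rw [h1, hpt q hq]
    rfl
  obtain ⟨h', -, -, h3⟩ := PLift.extend (zHom_surj E) (Map.ext2 fun _ _ => rfl)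
    (fun q hq => zHom_ker q (hK q hq)) hh
  exact ⟨h', h3⟩

private theorem dl_inj {i j : ℕ} (h : dl i = dl j) : i = j := by
  have h1 := congrFun h i
  have h2 := congrFun h j
  unfold dl at h1 h2
  split_ifs at h1 h2 <;> omega

open Classical in
private noncomputable def emE {X : PSp} {n r : ℤ} (c : X.X n → M) (h : n + 1 = r) (x : X.X r) :
    (ℕ → ℕ) → M :=
  fun f => if h2 : ∃ i, f = dl i then c (X.d h2.choose h x) else 0

private theorem emE_dl {X : PSp} {n r : ℤ} (c : X.X n → M) (h : n + 1 = r) (x : X.X r) (i : ℕ) :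
    emE c h x (dl i) = c (X.d i h x) := by
  have h2 : ∃ j, dl i = dl j := ⟨i, rfl⟩
  unfold emE
  rw [dif_pos h2]
  have h3 : h2.choose = i := (dl_inj h2.choose_spec).symm
  rw [h3]

private theorem emE_sup {X : PSp} {n r : ℤ} {c : X.X n → M} {h : n + 1 = r} {x : X.X r}
    {f : ℕ → ℕ} (hf : emE c h x f ≠ 0) : ∃ i, f = dl i ∧ c (X.d i h x) ≠ 0 := by
  unfold emE at hf
  split_ifs at hf with h2
  · exact ⟨_, h2.choose_spec, hf⟩
  · exact absurd rfl hf

private theorem emE_mem {X : PSp} {n r : ℤ} {c : X.X n → M} (hpt : c (X.pt n) = 0)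
    (h : n + 1 = r) (x : X.X r)
    (hcoc : ∃ K₀ : ℕ, ∀ K, K₀ ≤ K →
      ∑ i ∈ Finset.range K, (-1 : ℤ) ^ i • c (X.d i h x) = 0) : emE c h x ∈ EMG M n r := by
  refine ⟨fun f hf => ?_, ?_, fun g hg hs => ?_⟩
  · obtain ⟨i, rfl, -⟩ := emE_sup hf
    refine ⟨dl_strictMono i, ⟨i, fun j hj => ?_⟩⟩
    unfold dl
    rw [if_neg (by omega)]
    push_cast
    omega
  · obtain ⟨N, hN⟩ := X.fin h x
    refine ⟨N, fun f hf v hv => ?_⟩
    obtain ⟨i, rfl, hi⟩ := emE_sup hf
    have hiN : i < N := by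
      by_contra hn
      rw [hN i (by omega), hpt] at hi
      exact hi rfl
    refine ⟨v - 1, ?_⟩
    unfold dl
    split_ifs <;> omega
  · by_cases hgs : StrictMono g
    · have hgid : g = id := by
        refine em_id hgs ?_
        have h1 : r - n - 1 = 0 := by omega
        rwa [h1] at hs
      subst hgid
      obtain ⟨K₀, hK⟩ := hcoc
      refine ⟨K₀, fun K hKK => ?_⟩
      rw [← hK K hKK]
      refine Finset.sum_congr rfl fun i _ => ?_
      rw [Function.id_comp, emE_dl]
    · refine EMG.auto (fun f hf => ?_) hg hgs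
      obtain ⟨i, rfl, -⟩ := emE_sup hf
      exact dl_strictMono i

private theorem em_bot_zero (n : ℤ) : EM.bot M n 0 = 0 := EM.ext_bot (EM.bot_id n 0)

/-- **Cocycles give maps to Eilenberg-MacLane spectra.**  PROOF: degree `n` by `EM.bot`, degree
`n + 1`: `f = dl i ↦ c (d_i x)`, then `PLift.extend` (for `G = 0`) and `EM.vanish`. -/
theorem EM.exists_map {X : PSp} {n : ℤ} (c : X.X n → M) (hpt : c (X.pt n) = 0)
    (hdeg : ∀ (i : ℕ) {q : ℤ} (h : q + 1 = n) (x : X.X q), c (X.s i h x) = 0)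
    (hcoc : ∀ {r : ℤ} (h : n + 1 = r) (x : X.X r), ∃ K₀ : ℕ, ∀ K, K₀ ≤ K →
      ∑ i ∈ Finset.range K, (-1 : ℤ) ^ i • c (X.d i h x) = 0) :
    ∃ a : Map X (EM M n), ∀ x, (a.f n x).1 id = c x := by
  obtain ⟨e, he⟩ : ∃ e : X.X (n + 1) → (EM M n).G (n + 1),
      ∀ x i, (e x).1 (dl i) = c (X.d i rfl x) :=
    ⟨fun x => ⟨emE c rfl x, emE_mem hpt rfl x (hcoc rfl x)⟩, fun x i => emE_dl c rfl x i⟩
  obtain ⟨h, hn, hn1⟩ : ∃ h : ∀ q, X.X q → (EM M n).G q, (∀ x, h n x = EM.bot M n (c x)) ∧
      (∀ x, h (n + 1) x = e x) := by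
    refine ⟨Function.update (Function.update (fun q _ => 0) n (fun x => EM.bot M n (c x)))
      (n + 1) e, ?_, ?_⟩
    · intro x
      rw [Function.update_of_ne (by omega), Function.update_self]
    · intro x
      rw [Function.update_self]
  have h0 : ∀ q, q < n → ∀ x, h q x = 0 := fun q hq x => EMG.eq_zero_of_lt hq _
  have hl : n - 1 + 1 = n := by omega
  have hed : ∀ x i, (EM M n).d i rfl (e x) = EM.bot M n (c (X.d i rfl x)) := by
    intro x i
    apply EM.ext_bot
    rw [EM.bot_id]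
    exact he x i
  have hes : ∀ x i, e (X.s i rfl x) = (EM M n).s i rfl (EM.bot M n (c x)) := by
    intro x i
    refine EM.sep (q := n) rfl le_rfl fun j => ?_
    rw [hed]
    rcases lt_trichotomy j i with hji | hji | hji
    · obtain ⟨i', rfl⟩ : ∃ i', i = i' + 1 := ⟨i - 1, by omega⟩
      rw [X.ds_lt (by omega) hl rfl, hdeg _ hl, em_bot_zero, (EM M n).ds_lt (by omega) hl rfl,
        EMG.eq_zero_of_lt (by omega) ((EM M n).d j hl _), map_zero]
    · subst hji
      rw [X.ds_eq, (EM M n).ds_eq]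
    · rcases eq_or_lt_of_le (Nat.succ_le_of_lt hji) with h1 | h1
      · subst h1
        rw [Nat.succ_eq_add_one, X.ds_succ, (EM M n).ds_succ]
      · obtain ⟨j', rfl⟩ : ∃ j', j = j' + 1 := ⟨j - 1, by omega⟩
        rw [X.ds_gt (by omega) hl rfl, hdeg _ hl, em_bot_zero, (EM M n).ds_gt (by omega) hl rfl,
          EMG.eq_zero_of_lt (by omega) ((EM M n).d j' hl _), map_zero]
  have p1 : ∀ q, q ≤ n + 1 → h q (X.pt q) = 0 := by
    intro q hq
    rcases lt_trichotomy q n with h1 | h1 | h1
    · exact h0 q h1 _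
    · subst h1
      rw [hn, hpt, em_bot_zero]
    · obtain rfl : q = n + 1 := by omega
      rw [hn1, ← X.s_pt 0 rfl, hes, hpt, em_bot_zero, map_zero]
  have p2 : ∀ (i : ℕ) {q r : ℤ} (e : q + 1 = r) (x : X.X r), r ≤ n + 1 →
      h q (X.d i e x) = (EM M n).d i e (h r x) := by
    intro i q r e' x hr
    rcases lt_or_ge q n with h1 | h1
    · exact (h0 q h1 _).trans (EMG.eq_zero_of_lt h1 _).symm
    · obtain rfl : q = n := by omega
      subst e'
      rw [hn, hn1, hed]
  have p3 : ∀ (i : ℕ) {q r : ℤ} (e : q + 1 = r) (x : X.X q), r ≤ n + 1 →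
      h r (X.s i e x) = (EM M n).s i e (h q x) := by
    intro i q r e' x hr
    rcases lt_trichotomy r n with h1 | h1 | h1
    · exact (h0 r h1 _).trans (EMG.eq_zero_of_lt h1 _).symm
    · subst h1
      rw [hn, hdeg i e', em_bot_zero, h0 q (by omega), map_zero]
    · obtain rfl : q = n := by omega
      subst e'
      rw [hn, hn1, hes]
  obtain ⟨h', hh'⟩ := em_extend (m := n + 1) (fun q hq => EM.vanish (by omega)) h p1 p2 p3
  refine ⟨h', fun x => ?_⟩
  rw [hh' n (by omega), hn, EM.bot_id]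

/-- **Cochains give maps to the path spectrum.** -/
theorem EM.exists_mapP {X : PSp} {n m : ℤ} (hnm : n + 1 = m) (c : X.X n → M)
    (hpt : c (X.pt n) = 0)
    (hdeg : ∀ (i : ℕ) {q : ℤ} (h : q + 1 = n) (x : X.X q), c (X.s i h x) = 0) :
    ∃ b : Map X (EM M m).P, ∀ x : X.X n, (b.f n x).1 id = c x := by
  subst hnm
  obtain ⟨h, hn⟩ : ∃ h : ∀ q, X.X q → (EM M (n + 1)).P.G q,
      ∀ x, h n x = (EM.bot M (n + 1) (c x) : (EM M (n + 1)).G (n + 1)) := by
    refine ⟨Function.update (fun q _ => 0) n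
      (fun x => (EM.bot M (n + 1) (c x) : (EM M (n + 1)).G (n + 1))), ?_⟩
    intro x
    rw [Function.update_self]
  have hz : ∀ q, q < n → ∀ x : (EM M (n + 1)).P.G q, x = 0 := fun q hq x =>
    EMG.eq_zero_of_lt (M := M) (n := n + 1) (q := q + 1) (by omega) x
  have p1 : ∀ q, q ≤ n → h q (X.pt q) = 0 := by
    intro q hq
    rcases eq_or_lt_of_le hq with h1 | h1
    · subst h1
      rw [hn, hpt, em_bot_zero]
      rfl
    · exact hz q h1 _
  have p2 : ∀ (i : ℕ) {q r : ℤ} (e : q + 1 = r) (x : X.X r), r ≤ n →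
      h q (X.d i e x) = (EM M (n + 1)).P.d i e (h r x) := by
    intro i q r e' x hr
    exact (hz q (by omega) _).trans (hz q (by omega) _).symm
  have p3 : ∀ (i : ℕ) {q r : ℤ} (e : q + 1 = r) (x : X.X q), r ≤ n →
      h r (X.s i e x) = (EM M (n + 1)).P.s i e (h q x) := by
    intro i q r e' x hr
    rcases eq_or_lt_of_le hr with h1 | h1
    · subst h1
      rw [hn, hdeg i e', em_bot_zero, hz q (by omega) (h q x), map_zero]
      rfl
    · exact (hz r h1 _).trans (hz r h1 _).symm
  obtain ⟨h', hh'⟩ := em_extend (m := n) (fun q _ => (EM M (n + 1)).P_acyclic q) h p1 p2 p3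
  refine ⟨h', fun x => ?_⟩
  rw [hh' n le_rfl, hn]
  exact EM.bot_id (n + 1) (c x)

private theorem em_sepN {m q r : ℤ} (h : q + 1 = r) (hm : m ≤ q) {x y : (EM M m).G r}
    (hxy : ∀ i, (EM M m).d (i + 1) h x = (EM M m).d (i + 1) h y) : x = y := by
  have key : ∀ (f : ℕ → ℕ) (i : ℕ), (∀ j, f j ≠ i + 1) → x.1 f = y.1 f := by
    intro f i hi
    have h1 := em_factor hi
    have h2 : x.1 (dl (i + 1) ∘ (sg (i + 1) ∘ f)) = y.1 (dl (i + 1) ∘ (sg (i + 1) ∘ f)) :=
      congrArg (fun z : (EM M m).G q => z.1 (sg (i + 1) ∘ f)) (hxy i)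
    rw [← h1] at h2
    exact h2
  have key0 : q = m → x.1 (dl 0) = y.1 (dl 0) := by
    intro hqm
    obtain ⟨K, hK⟩ := x.2.2.2 id monotone_id ⟨0, fun i _ => by rw [id_eq]; omega⟩
    obtain ⟨L, hL⟩ := y.2.2.2 id monotone_id ⟨0, fun i _ => by rw [id_eq]; omega⟩
    have e1 := hK (max K L + 1) (by have := le_max_left K L; omega)
    have e2 := hL (max K L + 1) (by have := le_max_right K L; omega)
    rw [Finset.sum_range_succ'] at e1 e2
    have e3 : ∀ i, x.1 (id ∘ dl (i + 1)) = y.1 (id ∘ dl (i + 1)) := by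
      intro i
      refine key _ i fun j => ?_
      simp only [Function.comp_apply, id_eq, dl]
      split_ifs <;> omega
    rw [Finset.sum_congr rfl (fun i _ => by rw [e3 i])] at e1
    have e5 := add_left_cancel (e1.trans e2.symm)
    rw [pow_zero, one_smul, one_smul, Function.id_comp] at e5
    exact e5
  refine Subtype.ext (funext fun f => ?_)
  by_cases h0 : StrictMono f ∧ Shift f (r - m)
  · by_cases h1 : ∃ i, ∀ j, f j ≠ i + 1
    · obtain ⟨i, hi⟩ := h1
      exact key f i hi
    · push Not at h1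
      obtain ⟨i, hi⟩ := em_not_surj h0.1 h0.2 (by omega)
      have hi0 : i = 0 := by
        by_contra hne
        obtain ⟨j, hj⟩ := h1 (i - 1)
        exact hi j (by omega)
      subst hi0
      have h2 : sg 0 ∘ f = id := by
        apply em_surj
        · intro a b hab
          have h3 := h0.1 hab
          have h4 := hi a
          have h5 := hi b
          simp only [Function.comp_apply, sg]
          split_ifs <;> omega
        · intro v
          obtain ⟨j, hj⟩ := h1 v
          refine ⟨j, ?_⟩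
          simp only [Function.comp_apply, sg]
          split_ifs <;> omega
      have h3 : f = dl 0 := by
        rw [em_factor hi, h2]
        rfl
      have hqm : q = m := by
        obtain ⟨N, hN⟩ := h0.2
        have h4 := hN N le_rfl
        rw [h3] at h4
        unfold dl at h4
        rw [if_neg (Nat.not_lt_zero _)] at h4
        push_cast at h4
        omega
      rw [h3]
      exact key0 hqm
  · rw [em_zero x h0, em_zero y h0]

/-- Maps to the path spectrum are determined by their cochain. -/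
theorem EM.mapP_ext {X : PSp} {n m : ℤ} (hnm : n + 1 = m) {a b : Map X (EM M m).P}
    (h : ∀ x : X.X n, (a.f n x).1 id = (b.f n x).1 id) : a = b := by
  subst hnm
  have key : ∀ k : ℕ, ∀ q, q = n + k → ∀ x, a.f q x = b.f q x := by
    intro k
    induction k with
    | zero =>
      intro q hq x
      obtain rfl : q = n := by simpa using hq
      exact EM.ext_bot (M := M) (n := q + 1) (h x)
    | succ k ih =>
      intro q hq x
      have e1 : n + k + 1 = q := by push_cast at hq; omega
      refine em_sepN (M := M) (m := n + 1) (q := n + k + 1) (r := q + 1) (by omega) (by omega)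
        fun i => ?_
      have e2 := a.map_d i e1 x
      have e3 := b.map_d i e1 x
      have e4 := ih _ rfl (X.d i e1 x)
      exact e2.symm.trans (e4.trans e3)
  refine Map.ext2 fun q x => ?_
  rcases lt_or_ge q n with hq | hq
  · have hz : ∀ x : (EM M (n + 1)).P.G q, x = 0 := fun x =>
      EMG.eq_zero_of_lt (M := M) (n := n + 1) (q := q + 1) (by omega) x
    rw [hz (a.f q x), hz (b.f q x)]
  · exact key (q - n).toNat q (by omega) x

private theorem toOm_mem {n m q : ℤ} (h : n + 1 = m) {c : (ℕ → ℕ) → M} (hc : c ∈ EMG M n q) :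
    (fun f : ℕ → ℕ => if f 0 = 0 ∧ 0 < f 1 then c (fun i => f (i + 1) - 1) else 0) ∈
      EMG M m (q + 1) := by
  obtain ⟨h1, ⟨D, h2⟩, h3⟩ := hc
  obtain ⟨E, hE⟩ : ∃ E : (ℕ → ℕ) → M,
      E = fun f => if f 0 = 0 ∧ 0 < f 1 then c (fun i => f (i + 1) - 1) else 0 := ⟨_, rfl⟩
  rw [← hE]
  have hsup : ∀ f : ℕ → ℕ, E f ≠ 0 → f 0 = 0 ∧ (∀ i, 0 < f (i + 1)) ∧
      c (fun i => f (i + 1) - 1) ≠ 0 := by
    intro f hf
    rw [hE] at hf
    simp only at hf
    split_ifs at hf with h0
    · refine ⟨h0.1, fun i => ?_, hf⟩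
      rcases Nat.eq_zero_or_pos i with rfl | hi
      · exact h0.2
      · have h4 : f (0 + 1) - 1 < f (i + 1) - 1 := (h1 _ hf).1 hi
        omega
    · exact absurd rfl hf
  have hmono : ∀ f : ℕ → ℕ, E f ≠ 0 → StrictMono f := by
    intro f hf
    obtain ⟨ha, hb, hcf⟩ := hsup f hf
    refine strictMono_nat_of_lt_succ fun i => ?_
    rcases Nat.eq_zero_or_pos i with rfl | hi
    · rw [ha]
      exact hb 0
    · obtain ⟨j, rfl⟩ : ∃ j, i = j + 1 := ⟨i - 1, by omega⟩
      have h4 : f (j + 1) - 1 < f (j + 1 + 1) - 1 := (h1 _ hcf).1 (Nat.lt_succ_self j)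
      have h5 := hb j
      have h6 := hb (j + 1)
      omega
  refine ⟨fun f hf => ⟨hmono f hf, ?_⟩, ⟨D + 1, fun f hf v hv => ?_⟩, fun g hg hs => ?_⟩
  · obtain ⟨ha, hb, hcf⟩ := hsup f hf
    obtain ⟨-, N, hN⟩ := h1 _ hcf
    refine ⟨N + 1, fun i hi => ?_⟩
    obtain ⟨j, rfl⟩ : ∃ j, i = j + 1 := ⟨i - 1, by omega⟩
    have h4 : ((f (j + 1) - 1 : ℕ) : ℤ) = j + (q - n) := hN j (by omega)
    have h5 := hb j
    push_cast
    omega
  · obtain ⟨ha, hb, hcf⟩ := hsup f hf
    obtain ⟨i, hi⟩ := h2 _ hcf (v - 1) (by omega)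
    have hi' : f (i + 1) - 1 = v - 1 := hi
    have h5 := hb i
    exact ⟨i + 1, by omega⟩
  · by_cases hgs : StrictMono g
    swap
    · exact EMG.auto hmono hg hgs
    by_cases hg0 : g 0 = 0
    · obtain ⟨g', hg'⟩ : ∃ g' : ℕ → ℕ, g' = fun i => g (i + 1) - 1 := ⟨_, rfl⟩
      have hg'm : Monotone g' := by
        intro a b hab
        rw [hg']
        have := hg (show a + 1 ≤ b + 1 by omega)
        simp only
        omega
      have hg's : Shift g' (q - n - 1) := by
        obtain ⟨N, hN⟩ := hs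
        refine ⟨N + (q - n - 1).natAbs + 1, fun i hi => ?_⟩
        have h4 := hN (i + 1) (by omega)
        rw [hg']
        change ((g (i + 1) - 1 : ℕ) : ℤ) = i + (q - n - 1)
        have h5 := hgs (show 0 < i + 1 by omega)
        push_cast at h4
        omega
      obtain ⟨K₀, hK⟩ := h3 g' hg'm hg's
      refine ⟨K₀ + 1, fun K hKK => ?_⟩
      obtain ⟨K', rfl⟩ : ∃ K', K = K' + 1 := ⟨K - 1, by omega⟩
      rw [Finset.sum_range_succ']
      have e0 : E (g ∘ dl 0) = 0 := by
        by_contra hne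
        have h4 : g (dl 0 0) = 0 := (hsup _ hne).1
        have h5 := hgs (show 0 < dl 0 0 by unfold dl; simp)
        omega
      have e1 : ∀ i, E (g ∘ dl (i + 1)) = c (g' ∘ dl i) := by
        intro i
        rw [hE]
        simp only [Function.comp_apply]
        have h4 : g (dl (i + 1) 0) = 0 := by
          have h5 : dl (i + 1) 0 = 0 := by unfold dl; simp
          rw [h5, hg0]
        have h6 : 0 < g (dl (i + 1) 1) := by
          have h5 : 0 < dl (i + 1) 1 := by unfold dl; split_ifs <;> omega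
          have := hgs h5
          omega
        rw [if_pos ⟨h4, h6⟩]
        congr 1
        funext j
        rw [hg']
        have h7 : dl (i + 1) (j + 1) = dl i j + 1 := by unfold dl; split_ifs <;> omega
        simp only [Function.comp_apply]
        rw [h7]
      rw [e0, smul_zero, add_zero]
      have e2 : ∑ i ∈ Finset.range K', (-1 : ℤ) ^ (i + 1) • E (g ∘ dl (i + 1)) =
          -∑ i ∈ Finset.range K', (-1 : ℤ) ^ i • c (g' ∘ dl i) := by
        rw [← Finset.sum_neg_distrib]
        refine Finset.sum_congr rfl fun i _ => ?_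
        rw [e1, pow_succ, mul_neg_one, neg_smul]
      rw [e2, hK K' (by omega), neg_zero]
    · refine ⟨0, fun K _ => Finset.sum_eq_zero fun i _ => ?_⟩
      have h4 : E (g ∘ dl i) = 0 := by
        by_contra hne
        have h5 : g (dl i 0) = 0 := (hsup _ hne).1
        have h6 := hg (Nat.zero_le (dl i 0))
        omega
      rw [h4, smul_zero]

private theorem toOm_ker {n m q : ℤ} (h : n + 1 = m) {c : (ℕ → ℕ) → M} (hc : c ∈ EMG M n q) :
    (⟨fun f => if f 0 = 0 ∧ 0 < f 1 then c (fun i => f (i + 1) - 1) else 0, toOm_mem h hc⟩ :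
      (EM M m).G (q + 1)) ∈ ((EM M m).dP.f q).ker := by
  change (EM M m).d 0 (rfl : q + 1 = q + 1) (⟨fun f => if f 0 = 0 ∧ 0 < f 1 then
    c (fun i => f (i + 1) - 1) else 0, toOm_mem h hc⟩ : (EM M m).G (q + 1)) = 0
  refine Subtype.ext (funext fun f => ?_)
  change (if (dl 0 ∘ f) 0 = 0 ∧ 0 < (dl 0 ∘ f) 1 then
    c (fun i => (dl 0 ∘ f) (i + 1) - 1) else 0) = 0
  rw [if_neg]
  rintro ⟨h1, -⟩
  simp only [Function.comp_apply, dl] at h1
  split_ifs at h1 <;> omega

private theorem toOm_d {n r : ℤ} (x : (EM M n).G r) (i : ℕ) (f : ℕ → ℕ) :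
    (if f 0 = 0 ∧ 0 < f 1 then x.1 (dl i ∘ fun j => f (j + 1) - 1) else 0) =
    (if (dl (i + 1) ∘ f) 0 = 0 ∧ 0 < (dl (i + 1) ∘ f) 1 then
      x.1 (fun j => (dl (i + 1) ∘ f) (j + 1) - 1) else 0) := by
  have h1 : (dl (i + 1) ∘ f) 0 = 0 ↔ f 0 = 0 := by
    rw [Function.comp_apply]
    unfold dl
    split_ifs with h3
    · exact Iff.rfl
    · constructor
      · intro h4
        first | omega | exact absurd h4 (by simp)
      · intro h4
        first | omega | exact absurd h4 (by simp)
  have h2 : 0 < (dl (i + 1) ∘ f) 1 ↔ 0 < f 1 := by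
    rw [Function.comp_apply]
    unfold dl
    split_ifs with h3
    · exact Iff.rfl
    · constructor
      · intro h4
        first | omega | exact absurd h4 (by simp)
      · intro h4
        first | omega | exact absurd h4 (by simp)
  by_cases h0 : f 0 = 0 ∧ 0 < f 1
  · rw [if_pos h0, if_pos ⟨h1.2 h0.1, h2.2 h0.2⟩]
    by_cases h3 : ∀ j, 0 < f (j + 1)
    · have h5 : (dl i ∘ fun j => f (j + 1) - 1) = fun j => (dl (i + 1) ∘ f) (j + 1) - 1 := by
        funext j
        have := h3 j
        simp only [Function.comp_apply, dl]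
        split_ifs <;> omega
      rw [h5]
    · push Not at h3
      obtain ⟨j, hj⟩ := h3
      have hj0 : 0 < j := by
        rcases Nat.eq_zero_or_pos j with rfl | hj0
        · rw [zero_add] at hj
          omega
        · exact hj0
      rw [em_zero x, em_zero x]
      · rintro ⟨hs, -⟩
        have := hs hj0
        simp only [Function.comp_apply, dl, zero_add] at this
        split_ifs at this <;> omega
      · rintro ⟨hs, -⟩
        have := hs hj0
        simp only [Function.comp_apply, dl, zero_add] at this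
        split_ifs at this <;> omega
  · rw [if_neg h0, if_neg]
    rintro ⟨h3, h4⟩
    exact h0 ⟨h1.1 h3, h2.1 h4⟩

private theorem toOm_s {n r : ℤ} (x : (EM M n).G r) (i : ℕ) (f : ℕ → ℕ) :
    (if f 0 = 0 ∧ 0 < f 1 then x.1 (sg i ∘ fun j => f (j + 1) - 1) else 0) =
    (if (sg (i + 1) ∘ f) 0 = 0 ∧ 0 < (sg (i + 1) ∘ f) 1 then
      x.1 (fun j => (sg (i + 1) ∘ f) (j + 1) - 1) else 0) := by
  have h1 : (sg (i + 1) ∘ f) 0 = 0 ↔ f 0 = 0 := by
    simp only [Function.comp_apply, sg]
    split_ifs <;> omega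
  have h2 : 0 < (sg (i + 1) ∘ f) 1 ↔ 0 < f 1 := by
    simp only [Function.comp_apply, sg]
    split_ifs <;> omega
  have h3 : (sg i ∘ fun j => f (j + 1) - 1) = fun j => (sg (i + 1) ∘ f) (j + 1) - 1 := by
    funext j
    simp only [Function.comp_apply, sg]
    split_ifs <;> omega
  rw [h3]
  by_cases h0 : f 0 = 0 ∧ 0 < f 1
  · rw [if_pos h0, if_pos ⟨h1.2 h0.1, h2.2 h0.2⟩]
  · rw [if_neg h0, if_neg]
    rintro ⟨h4, h5⟩
    exact h0 ⟨h1.1 h4, h2.1 h5⟩

/-- `EM M n → Ω (EM M m)`, `m = n + 1`: `c ↦ (f ↦ c (i ↦ f (i + 1) - 1) if f 0 = 0 < f 1)`. -/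
noncomputable def EM.toOm (M : Type) [AddCommGroup M] {n m : ℤ} (h : n + 1 = m) :
    Hom (EM M n) (EM M m).Om where
  f := fun q =>
    { toFun := fun c => ⟨⟨fun f => if f 0 = 0 ∧ 0 < f 1 then c.1 (fun i => f (i + 1) - 1) else 0, by
          exact toOm_mem h c.2⟩, by
          exact toOm_ker h c.2⟩
      map_zero' := by
        refine Subtype.ext (Subtype.ext (funext fun f => ?_))
        change (if f 0 = 0 ∧ 0 < f 1 then (0 : M) else 0) = 0
        rw [ite_self]
      map_add' := fun x y => by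
        refine Subtype.ext (Subtype.ext (funext fun f => ?_))
        change (if f 0 = 0 ∧ 0 < f 1 then x.1 (fun i => f (i + 1) - 1) +
            y.1 (fun i => f (i + 1) - 1) else 0) =
          (if f 0 = 0 ∧ 0 < f 1 then x.1 (fun i => f (i + 1) - 1) else 0) +
          (if f 0 = 0 ∧ 0 < f 1 then y.1 (fun i => f (i + 1) - 1) else 0)
        split_ifs
        · rfl
        · rw [add_zero] }
  map_d := fun i q r h x => by
    refine Subtype.ext (Subtype.ext (funext fun f => ?_))
    exact toOm_d x i f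
  map_s := fun i q r h x => by
    refine Subtype.ext (Subtype.ext (funext fun f => ?_))
    exact toOm_s x i f

theorem EM.toOm_apply {n m : ℤ} (h : n + 1 = m) (q : ℤ) (c : (EM M n).G q) (f : ℕ → ℕ) :
    ((((EM.toOm M h).f q c).1 : (EM M m).G (q + 1)).1 : (ℕ → ℕ) → M) f =
      if f 0 = 0 ∧ 0 < f 1 then c.1 (fun i => f (i + 1) - 1) else 0 := by
  rfl

private def exf (f : ℕ → ℕ) : ℕ → ℕ := fun j => if j = 0 then 0 else f (j - 1) + 1

private theorem exf_zero (f : ℕ → ℕ) : exf f 0 = 0 := if_pos rfl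

private theorem exf_succ (f : ℕ → ℕ) (j : ℕ) : exf f (j + 1) = f j + 1 := by
  unfold exf
  rw [if_neg (Nat.succ_ne_zero j), Nat.add_sub_cancel]

private theorem exf_un {f : ℕ → ℕ} (h0 : f 0 = 0) (h1 : ∀ j, 0 < f (j + 1)) :
    exf (fun i => f (i + 1) - 1) = f := by
  funext j
  rcases j with _ | j
  · rw [exf_zero, h0]
  · rw [exf_succ]
    have := h1 j
    omega

private theorem exf_mem {n m q : ℤ} (h : n + 1 = m) (Y : (EM M m).G (q + 1))
    (hY : ∀ f, Y.1 (dl 0 ∘ f) = 0) : (fun f => Y.1 (exf f)) ∈ EMG M n q := by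
  obtain ⟨h1, ⟨D, h2⟩, h3⟩ := Y.2
  refine ⟨fun f hf => ?_, ⟨D, fun f hf v hv => ?_⟩, fun g hg hs => ?_⟩
  · obtain ⟨ha, N, hN⟩ := h1 _ hf
    refine ⟨fun a b hab => ?_, N, fun i hi => ?_⟩
    · have h4 := ha (show a + 1 < b + 1 by omega)
      rw [exf_succ, exf_succ] at h4
      omega
    · have h4 := hN (i + 1) (by omega)
      rw [exf_succ] at h4
      push_cast at h4
      omega
  · obtain ⟨i, hi⟩ := h2 _ hf (v + 1) (by omega)
    rcases i with _ | i
    · rw [exf_zero] at hi
      omega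
    · rw [exf_succ] at hi
      exact ⟨i, by omega⟩
  · have hgm : Monotone (exf g) := by
      intro a b hab
      rcases a with _ | a
      · rw [exf_zero]
        exact Nat.zero_le _
      · obtain ⟨b', rfl⟩ : ∃ b', b = b' + 1 := ⟨b - 1, by omega⟩
        rw [exf_succ, exf_succ]
        have := hg (show a ≤ b' by omega)
        omega
    have hgs : Shift (exf g) (q + 1 - m - 1) := by
      obtain ⟨N, hN⟩ := hs
      refine ⟨N + 1, fun i hi => ?_⟩
      obtain ⟨j, rfl⟩ : ∃ j, i = j + 1 := ⟨i - 1, by omega⟩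
      have h4 := hN j (by omega)
      rw [exf_succ]
      push_cast
      omega
    obtain ⟨K₀, hK⟩ := h3 _ hgm hgs
    refine ⟨K₀, fun K hKK => ?_⟩
    have h4 := hK (K + 1) (by omega)
    rw [Finset.sum_range_succ'] at h4
    have e0 : exf g ∘ dl 0 = dl 0 ∘ g := by
      funext j
      simp only [Function.comp_apply]
      have h5 : dl 0 j = j + 1 := by unfold dl; simp
      have h6 : dl 0 (g j) = g j + 1 := by unfold dl; simp
      rw [h5, h6, exf_succ]
    have e1 : ∀ i, exf g ∘ dl (i + 1) = exf (g ∘ dl i) := by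
      intro i
      funext j
      rcases j with _ | j
      · have h5 : dl (i + 1) 0 = 0 := by unfold dl; simp
        rw [Function.comp_apply, h5, exf_zero, exf_zero]
      · have h5 : dl (i + 1) (j + 1) = dl i j + 1 := by unfold dl; split_ifs <;> omega
        rw [Function.comp_apply, h5, exf_succ, exf_succ, Function.comp_apply]
    rw [e0, hY, smul_zero, add_zero] at h4
    have e2 : ∑ i ∈ Finset.range K, (-1 : ℤ) ^ (i + 1) • Y.1 (exf g ∘ dl (i + 1)) =
        -∑ i ∈ Finset.range K, (-1 : ℤ) ^ i • Y.1 (exf (g ∘ dl i)) := by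
      rw [← Finset.sum_neg_distrib]
      refine Finset.sum_congr rfl fun i _ => ?_
      rw [e1, pow_succ, mul_neg_one, neg_smul]
    rw [e2, neg_eq_zero] at h4
    exact h4

theorem EM.toOm_bijective {n m : ℤ} (h : n + 1 = m) (q : ℤ) :
    Function.Bijective ((EM.toOm M h).f q) := by
  constructor
  · intro x y hxy
    refine Subtype.ext (funext fun f => ?_)
    have h1 : ((((EM.toOm M h).f q x).1 : (EM M m).G (q + 1)).1 : (ℕ → ℕ) → M) (exf f) =
        ((((EM.toOm M h).f q y).1 : (EM M m).G (q + 1)).1 : (ℕ → ℕ) → M) (exf f) := by rw [hxy]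
    have h3 : exf f 0 = 0 ∧ 0 < exf f 1 := by
      refine ⟨exf_zero f, ?_⟩
      rw [show (1 : ℕ) = 0 + 1 from rfl, exf_succ]
      omega
    rw [EM.toOm_apply, EM.toOm_apply, if_pos h3, if_pos h3] at h1
    have h2 : (fun i => exf f (i + 1) - 1) = f := by
      funext i
      rw [exf_succ, Nat.add_sub_cancel]
    rw [h2] at h1
    exact h1
  · intro y
    obtain ⟨Y, hY⟩ : ∃ Y : (EM M m).G (q + 1), Y = y.1 := ⟨_, rfl⟩
    have hy0 : ∀ f, Y.1 (dl 0 ∘ f) = 0 := by
      intro f
      have h1 : (EM M m).d 0 rfl Y = 0 := by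
        rw [hY]
        exact y.2
      exact congrArg (fun z : (EM M m).G q => z.1 f) h1
    refine ⟨⟨fun f => Y.1 (exf f), exf_mem h Y hy0⟩, Subtype.ext ?_⟩
    rw [← hY]
    refine Subtype.ext (funext fun f => ?_)
    change (if f 0 = 0 ∧ 0 < f 1 then Y.1 (exf (fun i => f (i + 1) - 1)) else 0) = Y.1 f
    by_cases hs : StrictMono f
    · by_cases h0 : f 0 = 0
      · have hpos : ∀ j, 0 < f (j + 1) := fun j => by
          have := hs (Nat.succ_pos j)
          rw [Nat.succ_eq_add_one] at this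
          omega
        rw [if_pos ⟨h0, hpos 0⟩, exf_un h0 hpos]
      · rw [if_neg (fun h => h0 h.1)]
        have h1 : f = dl 0 ∘ (sg 0 ∘ f) := em_factor (i := 0) (fun j => by
          have := hs.monotone (Nat.zero_le j)
          omega)
        rw [h1, hy0]
    · rw [em_zero Y (fun h => hs h.1)]
      by_cases h0 : f 0 = 0 ∧ 0 < f 1
      · rw [if_pos h0]
        by_contra hne
        have hs1 := (Y.2.1 _ hne).1
        have hpos : ∀ j, 0 < f (j + 1) := by
          intro j
          rcases Nat.eq_zero_or_pos j with rfl | hj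
          · exact h0.2
          · have h3 := hs1 (show 0 + 1 < j + 1 by omega)
            rw [exf_succ, exf_succ] at h3
            omega
        rw [exf_un h0.1 hpos] at hs1
        exact hs hs1
      · rw [if_neg h0]

/-- **Fundamental classes**: for `G` vanishing in degrees `< m` every homomorphism
`π_m G → M` is induced by a map `G → EM M m`.  PROOF: `exists_map` for the cocycle
`x ↦ φ [x]` (all elements of degree `m` are cycles); for `x` of degree `m + 1`,
`∑ (-1)^i [d_i x] = 0` in `π_m G`. -/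
theorem EM.exists_fund {G : GSp} {m : ℤ} (hG : G.Below m) (φ : G.pi m →+ M) :
    ∃ a : Map G.U (EM M m), ∀ x, EM.piHom M m (a.pi m x) = φ x := by
  have hZ : ∀ x : G.G m, x ∈ G.Z m := fun x i r h => hG r (by omega) _
  obtain ⟨cl, hcl⟩ : ∃ cl : G.G m →+ G.pi m, ∀ x, cl x = G.piMk m ⟨x, hZ x⟩ :=
    ⟨(G.piMk m).comp ((AddMonoidHom.id (G.G m)).codRestrict (G.Z m) hZ), fun _ => rfl⟩
  have hclB : ∀ x ∈ G.B m, cl x = 0 := fun x hx => by
    rw [hcl]
    exact piMk_eq_zero.mpr hx
  have hl : m - 1 + 1 = m := by omega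
  have main : ∀ (N : ℕ) (x : G.G (m + 1)), (∀ i, N ≤ i → G.d i rfl x = 0) → ∀ K, N ≤ K →
      ∑ i ∈ Finset.range K, (-1 : ℤ) ^ i • cl (G.d i rfl x) = 0 := by
    intro N
    induction N with
    | zero =>
      intro x hx K _
      exact Finset.sum_eq_zero fun i _ => by rw [hx i (Nat.zero_le i), map_zero, smul_zero]
    | succ N ih =>
      intro x hx K hK
      rcases Nat.eq_zero_or_pos N with hN | hN
      · subst hN
        have h1 : cl (G.d 0 rfl x) = 0 := by
          refine hclB _ ⟨x, fun i r h => ?_, rfl⟩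
          obtain rfl : r = m := by omega
          exact hx (i + 1) (by omega)
        refine Finset.sum_eq_zero fun i _ => ?_
        rcases i with _ | i
        · rw [h1, smul_zero]
        · rw [hx (i + 1) (by omega), map_zero, smul_zero]
      · obtain ⟨j, rfl⟩ : ∃ j, N = j + 1 := ⟨N - 1, by omega⟩
        obtain ⟨w, hw⟩ : ∃ w, w = G.d (j + 1) rfl x := ⟨_, rfl⟩
        have hw0 : ∀ i, G.d i hl w = 0 := fun i => hG _ (by omega) _
        have hsw : ∀ i, G.d i rfl (G.s j (rfl : m + 1 = m + 1) w) =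
            if i = j ∨ i = j + 1 then w else 0 := by
          intro i
          rcases lt_trichotomy i j with h1 | h1 | h1
          · rw [if_neg (by omega)]
            obtain ⟨j', rfl⟩ : ∃ j', j = j' + 1 := ⟨j - 1, by omega⟩
            rw [G.ds_lt (by omega) hl rfl, hw0, map_zero]
          · subst h1
            rw [if_pos (Or.inl rfl), G.ds_eq]
          · rcases eq_or_lt_of_le (Nat.succ_le_of_lt h1) with h2 | h2
            · subst h2
              rw [if_pos (Or.inr rfl), Nat.succ_eq_add_one, G.ds_succ]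
            · obtain ⟨i', rfl⟩ : ∃ i', i = i' + 1 := ⟨i - 1, by omega⟩
              rw [if_neg (by omega), G.ds_gt (by omega) hl rfl, hw0, map_zero]
        have h3 := ih (x + -G.s j rfl w) (fun i hi => by
          rw [map_add, map_neg, hsw]
          by_cases hi' : i = j + 1
          · rw [if_pos (Or.inr hi'), hi', ← hw, add_neg_cancel]
          · rw [if_neg (by omega), neg_zero, add_zero]
            exact hx i (by omega)) K (by omega)
        have h4 : ∀ i ∈ Finset.range K, (-1 : ℤ) ^ i • cl (G.d i rfl x) =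
            (-1 : ℤ) ^ i • cl (G.d i rfl (x + -G.s j rfl w)) +
            ((if i = j then (-1 : ℤ) ^ i • cl w else 0) +
              (if i = j + 1 then (-1 : ℤ) ^ i • cl w else 0)) := by
          intro i _
          rw [map_add (G.d i rfl), map_neg, hsw, map_add, map_neg]
          by_cases h5 : i = j
          · rw [if_pos (Or.inl h5), if_pos h5, if_neg (by omega), smul_add, smul_neg]
            abel
          · by_cases h6 : i = j + 1
            · rw [if_pos (Or.inr h6), if_neg h5, if_pos h6, smul_add, smul_neg]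
              abel
            · rw [if_neg (by omega), if_neg h5, if_neg h6, map_zero, smul_add, smul_neg,
                smul_zero]
              abel
        rw [Finset.sum_congr rfl h4, Finset.sum_add_distrib, h3, zero_add,
          Finset.sum_add_distrib, Finset.sum_ite_eq', Finset.sum_ite_eq',
          if_pos (Finset.mem_range.mpr (by omega)), if_pos (Finset.mem_range.mpr (by omega)),
          pow_succ, mul_neg_one, neg_smul, add_neg_cancel]
  obtain ⟨a, ha⟩ := EM.exists_map (X := G.U) (n := m) (fun x => φ (cl x))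
    (by
      change φ (cl 0) = 0
      rw [map_zero, map_zero])
    (fun i q h x => by
      have hx : x = 0 := hG q (by omega) x
      change φ (cl (G.s i h x)) = 0
      rw [hx, map_zero, map_zero, map_zero])
    (fun {r} h x => by
      subst h
      obtain ⟨N, hN⟩ := G.fin rfl x
      refine ⟨N, fun K hK => ?_⟩
      have h1 := congrArg φ (main N x hN K hK)
      rw [map_sum, map_zero] at h1
      rw [← h1]
      exact Finset.sum_congr rfl fun i _ => (map_zsmul φ _ _).symm)
  refine ⟨a, fun x => ?_⟩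
  obtain ⟨z, rfl⟩ := G.piMk_surj m x
  rw [Map.pi_mk, EM.piHom_mk]
  exact (ha z.1).trans (congrArg φ (hcl z.1))

end BPN
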