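import Pool.Agent.BPN.S.Fib

/-!
# Connective covers and Postnikov sections (project BPN, module S/Conn)
-/

namespace BPN

open GSp

namespace GSp

/-- `G` vanishes in degrees `< m`. -/
def Below (G : GSp) (m : ℤ) : Prop := ∀ q, q < m → ∀ x : G.G q, x = 0

/-- `G` is strictly bounded below. -/
def SBB (G : GSp) : Prop := ∃ m, G.Below m

/-- Elements all of whose iterated faces in degrees `< m` vanish. -/
inductive Cov (G : GSp) (m : ℤ) : ∀ q : ℤ, G.G q → Prop
  | zero (q : ℤ) : Cov G m q 0
  | step {q r : ℤ} (h : q + 1 = r) (hr : m ≤ r) (x : G.G r)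
      (hx : ∀ i : ℕ, Cov G m q (G.d i h x)) : Cov G m r x

private theorem deg_ind (m : ℤ) {P : ℤ → Prop} (h0 : ∀ q, q < m → P q)
    (hs : ∀ q, m ≤ q + 1 → P q → P (q + 1)) (q : ℤ) : P q := by
  by_cases hq : q < m
  · exact h0 q hq
  · have key : ∀ n : ℕ, P (m - 1 + n) := by
      intro n
      induction n with
      | zero => exact h0 _ (by simp)
      | succ n ih =>
        have h1 := hs _ (by omega) ih
        have h2 : m - 1 + (n : ℤ) + 1 = m - 1 + ((n + 1 : ℕ) : ℤ) := by push_cast; ring
        rwa [h2] at h1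
    have h3 := key (q - (m - 1)).toNat
    have h4 : m - 1 + (((q - (m - 1)).toNat : ℕ) : ℤ) = q := by omega
    rwa [h4] at h3

/-- For `r ≥ m` an element is in the cover iff all its faces are. -/
theorem cov_iff (G : GSp) (m : ℤ) {q r : ℤ} (h : q + 1 = r) (hr : m ≤ r) (x : G.G r) :
    Cov G m r x ↔ ∀ i : ℕ, Cov G m q (G.d i h x) := by
  constructor
  · intro hx i
    cases hx with
    | zero => rw [map_zero]; exact Cov.zero q
    | step h' hr' x hx' =>
      rename_i q'
      obtain rfl : q' = q := by omega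
      exact hx' i
  · intro hx
    exact Cov.step h hr x hx

theorem cov_lt (G : GSp) (m : ℤ) {q : ℤ} (hq : q < m) (x : G.G q) : Cov G m q x ↔ x = 0 := by
  constructor
  · intro hx
    cases hx with
    | zero => rfl
    | step h' hr' x hx' => omega
  · rintro rfl
    exact Cov.zero q

theorem cov_add (G : GSp) (m : ℤ) {q : ℤ} {x y : G.G q} (hx : Cov G m q x) (hy : Cov G m q y) :
    Cov G m q (x + y) := by
  have key : ∀ q : ℤ, ∀ x y : G.G q, Cov G m q x → Cov G m q y → Cov G m q (x + y) := by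
    refine @deg_ind m (fun q => ∀ x y : G.G q, Cov G m q x → Cov G m q y → Cov G m q (x + y)) ?_ ?_
    · intro q hq x y hx hy
      rw [cov_lt G m hq] at hx hy ⊢
      rw [hx, hy, add_zero]
    · intro q hq ih x y hx hy
      rw [cov_iff G m rfl hq] at hx hy ⊢
      intro i
      rw [map_add]
      exact ih _ _ (hx i) (hy i)
  exact key q x y hx hy

theorem cov_neg (G : GSp) (m : ℤ) {q : ℤ} {x : G.G q} (hx : Cov G m q x) : Cov G m q (-x) := by
  have key : ∀ q : ℤ, ∀ x : G.G q, Cov G m q x → Cov G m q (-x) := by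
    refine @deg_ind m (fun q => ∀ x : G.G q, Cov G m q x → Cov G m q (-x)) ?_ ?_
    · intro q hq x hx
      rw [cov_lt G m hq] at hx ⊢
      rw [hx, neg_zero]
    · intro q hq ih x hx
      rw [cov_iff G m rfl hq] at hx ⊢
      intro i
      rw [map_neg]
      exact ih _ (hx i)
  exact key q x hx

theorem cov_d (G : GSp) (m : ℤ) (i : ℕ) {q r : ℤ} (h : q + 1 = r) (x : G.G r)
    (hx : Cov G m r x) : Cov G m q (G.d i h x) := by
  by_cases hr : m ≤ r
  · exact (cov_iff G m h hr x).1 hx i
  · rw [cov_lt G m (not_le.1 hr)] at hx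
    rw [hx, map_zero]
    exact Cov.zero q

theorem cov_s (G : GSp) (m : ℤ) (i : ℕ) {q r : ℤ} (h : q + 1 = r) (x : G.G q)
    (hx : Cov G m q x) : Cov G m r (G.s i h x) := by
  have key : ∀ q : ℤ, ∀ (x : G.G q) (i : ℕ) (r : ℤ) (h : q + 1 = r), Cov G m q x →
      Cov G m r (G.s i h x) := by
    refine @deg_ind m (fun q => ∀ (x : G.G q) (i : ℕ) (r : ℤ) (h : q + 1 = r), Cov G m q x →
      Cov G m r (G.s i h x)) ?_ ?_
    · intro q hq x i r h hx
      rw [cov_lt G m hq] at hx
      rw [hx, map_zero]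
      exact Cov.zero r
    · intro q hq ih x i r h hx
      rw [cov_iff G m h (by omega)]
      have hd : ∀ j, Cov G m q (G.d j rfl x) := fun j => G.cov_d m j rfl x hx
      intro j
      rcases Nat.lt_trichotomy j i with hj | hj | hj
      · obtain ⟨k, rfl⟩ : ∃ k, i = k + 1 := ⟨i - 1, by omega⟩
        rw [G.ds_lt (by omega : j ≤ k) rfl h x]
        exact ih _ _ _ _ (hd j)
      · subst hj
        rw [G.ds_eq]
        exact hx
      · obtain ⟨k, rfl⟩ : ∃ k, j = k + 1 := ⟨j - 1, by omega⟩
        rcases Nat.eq_or_lt_of_le (Nat.lt_succ_iff.1 hj) with hk | hk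
        · subst hk
          rw [G.ds_succ]
          exact hx
        · rw [G.ds_gt hk rfl h x]
          exact ih _ _ _ _ (hd k)
  exact key q x i r h hx

/-- The subgroup of elements of the cover. -/
def covS (G : GSp) (m q : ℤ) : AddSubgroup (G.G q) where
  carrier := {x | Cov G m q x}
  zero_mem' := Cov.zero q
  add_mem' := G.cov_add m
  neg_mem' := G.cov_neg m

/-- The `(m-1)`-connected cover `τ_{≥ m} G`, a sub group spectrum vanishing in degrees `< m`. -/
def cover (G : GSp) (m : ℤ) : GSp := G.sub (G.covS m) (G.cov_d m) (G.cov_s m)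

/-- The inclusion of the cover. -/
def coverI (G : GSp) (m : ℤ) : Hom (G.cover m) G :=
  ⟨fun q => (G.covS m q).subtype, fun _ _ _ _ _ => rfl, fun _ _ _ _ _ => rfl⟩

theorem cover_below (G : GSp) (m : ℤ) : (G.cover m).Below m := by
  intro q hq x
  exact Subtype.ext ((G.cov_lt m hq x.1).1 x.2)

theorem Below.vanish {G : GSp} {m : ℤ} (h : G.Below m) {q : ℤ} (hq : q < m) : G.Vanish q := by
  intro z _
  rw [h q hq z]
  exact zero_mem _

/-- Cycles in degrees `≥ m` are in the cover. -/
private theorem cov_of_cycle (G : GSp) (m : ℤ) {q : ℤ} (hq : m ≤ q) {z : G.G q}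
    (hz : z ∈ G.Z q) : Cov G m q z := by
  rw [cov_iff G m (show q - 1 + 1 = q by omega) hq]
  intro i
  rw [hz i]
  exact Cov.zero _

private theorem cov_of_chain (G : GSp) (m : ℤ) {q : ℤ} (hq : m ≤ q) {y : G.G (q + 1)}
    (hy : y ∈ G.N (q + 1)) (h0 : Cov G m q (G.d 0 rfl y)) : Cov G m (q + 1) y := by
  rw [cov_iff G m rfl (by omega)]
  rintro (_ | i)
  · exact h0
  · rw [hy i rfl]
    exact Cov.zero _

/-- The inclusion of the cover is an isomorphism on `π_q` for `q ≥ m`. -/
theorem coverI_bijective (G : GSp) (m q : ℤ) (hq : m ≤ q) :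
    Function.Bijective ((Map.ofHom (G.coverI m)).pi q) := by
  constructor
  · rw [injective_iff_map_eq_zero]
    intro x hx
    obtain ⟨z, rfl⟩ := (G.cover m).piMk_surj q x
    rw [Map.pi_mk, piMk_eq_zero] at hx
    obtain ⟨y, hy, hyz⟩ := hx
    have hyz' : G.d 0 rfl y = z.1.1 := hyz
    rw [piMk_eq_zero]
    refine ⟨⟨y, G.cov_of_chain m hq hy (by rw [hyz']; exact z.1.2)⟩, ?_, Subtype.ext hyz'⟩
    intro i r h
    exact Subtype.ext (hy i h)
  · intro x
    obtain ⟨z, rfl⟩ := G.piMk_surj q x
    refine ⟨(G.cover m).piMk q ⟨⟨z.1, G.cov_of_cycle m hq z.2⟩, fun i r h => ?_⟩, rfl⟩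
    exact Subtype.ext (z.2 i h)

/-- If `π_q G = 0` for `q < m` then the cover is weakly equivalent to `G`. -/
theorem coverI_we (G : GSp) (m : ℤ) (h : ∀ q, q < m → G.Vanish q) :
    (Map.ofHom (G.coverI m)).WE := by
  intro q
  by_cases hq : q < m
  · have h1 := vanish_iff.1 ((G.cover_below m).vanish hq)
    have h2 := vanish_iff.1 (h q hq)
    constructor
    · intro x y _
      rw [h1 x, h1 y]
    · intro x
      exact ⟨0, by rw [map_zero, h2 x]⟩
  · exact G.coverI_bijective m q (not_lt.1 hq)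

theorem covS_normal (G : GSp) (m q : ℤ) : (G.covS m q).Normal := by
  have key : ∀ q : ℤ, ∀ x g : G.G q, Cov G m q x → Cov G m q (g + x + -g) := by
    refine @deg_ind m (fun q => ∀ x g : G.G q, Cov G m q x → Cov G m q (g + x + -g)) ?_ ?_
    · intro q hq x g hx
      rw [cov_lt G m hq] at hx ⊢
      rw [hx, add_zero, add_neg_cancel]
    · intro q hq ih x g hx
      rw [cov_iff G m rfl hq] at hx ⊢
      intro i
      rw [map_add, map_add, map_neg]
      exact ih _ _ (hx i)
  exact ⟨fun x hx g => key q x g hx⟩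

/-- The Postnikov section `G / τ_{≥ m} G` with homotopy groups in degrees `< m`. -/
def post (G : GSp) (m : ℤ) : GSp := G.quot (G.covS m) (G.covS_normal m) (G.cov_d m) (G.cov_s m)

/-- The projection to the Postnikov section. -/
def postP (G : GSp) (m : ℤ) : Hom G (G.post m) :=
  ⟨fun q => haveI := G.covS_normal m q; QuotientAddGroup.mk' (G.covS m q),
    fun _ _ _ _ _ => rfl, fun _ _ _ _ _ => rfl⟩

theorem postP_surj (G : GSp) (m : ℤ) : (G.postP m).Surj := fun q =>
  haveI := G.covS_normal m q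
  QuotientAddGroup.mk'_surjective (G.covS m q)

private theorem postP_eq_zero (G : GSp) (m : ℤ) {q : ℤ} (x : G.G q) :
    (G.postP m).f q x = 0 ↔ Cov G m q x :=
  haveI := G.covS_normal m q
  QuotientAddGroup.eq_zero_iff x

/-- The Postnikov section has no homotopy in degrees `≥ m`. -/
theorem post_vanish (G : GSp) (m q : ℤ) (hq : m ≤ q) : (G.post m).Vanish q := by
  intro z hz
  obtain ⟨x, rfl⟩ := G.postP_surj m q z
  have hx : Cov G m q x := by
    rw [cov_iff G m (show q - 1 + 1 = q by omega) hq]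
    intro i
    rw [← G.postP_eq_zero m, (G.postP m).map_d]
    exact hz i _
  rw [(G.postP_eq_zero m x).2 hx]
  exact zero_mem _

/-- The projection is an isomorphism on `π_q` for `q < m`. -/
theorem postP_bijective (G : GSp) (m q : ℤ) (hq : q < m) :
    Function.Bijective ((Map.ofHom (G.postP m)).pi q) := by
  have hk : ∀ t, t < m → ∀ k : (ker (G.postP m)).pi t, k = 0 := by
    intro t ht
    apply vanish_iff.1
    intro z _
    have hz : z = 0 :=
      Subtype.ext ((G.cov_lt m ht z.1).1 ((G.postP_eq_zero m z.1).1 z.2))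
    rw [hz]
    exact zero_mem _
  constructor
  · rw [injective_iff_map_eq_zero]
    intro x hx
    obtain ⟨k, rfl⟩ := (exact_E (G.postP m) (G.postP_surj m) x).mp hx
    rw [hk q hq k, map_zero]
  · intro x
    exact (exact_G (G.postP m) (G.postP_surj m) (show q - 1 + 1 = q by omega) x).mp
      (hk (q - 1) (by omega) _)

theorem post_below (G : GSp) (m n : ℤ) (h : G.Below n) : (G.post m).Below n := by
  intro q hq z
  obtain ⟨x, rfl⟩ := G.postP_surj m q z
  rw [h q hq x, map_zero]

/-- If `X_q` is trivial for `q ≤ m` and `π_q G = 0` for `q > m` then every map `X → G` is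
nullhomotopic. -/
theorem null_of_range {X : PSp} {G : GSp} (m : ℤ) (hX : ∀ q, q ≤ m → ∀ x : X.X q, x = X.pt q)
    (hG : ∀ q, m < q → G.Vanish q) (a : Map X G) : a.Null := by
  have key : ∀ q : ℤ, ∀ x : X.X q, Cov G (m + 1) q (a.f q x) := by
    refine @deg_ind (m + 1) (fun q => ∀ x : X.X q, Cov G (m + 1) q (a.f q x)) ?_ ?_
    · intro q hq x
      rw [hX q (by omega) x, a.map_pt]
      exact Cov.zero q
    · intro q hq ih x
      rw [cov_iff G (m + 1) rfl hq]
      intro i
      rw [← a.map_d]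
      exact ih _
  let a' : Map X (G.cover (m + 1)) := ⟨fun q x => ⟨a.f q x, key q x⟩,
    fun q => Subtype.ext (a.map_pt q), fun i _ _ h x => Subtype.ext (a.map_d i h x),
    fun i _ _ h x => Subtype.ext (a.map_s i h x)⟩
  have hac : (G.cover (m + 1)).Acyclic := by
    intro q
    by_cases hq : q < m + 1
    · exact (G.cover_below (m + 1)).vanish hq
    · apply vanish_iff.2
      intro x
      have hb := G.coverI_bijective (m + 1) q (not_lt.1 hq)
      apply hb.1
      rw [map_zero]
      exact vanish_iff.1 (hG q (by omega)) _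
  have h1 : a'.Null := Map.null_of_acyclic hac a'
  exact h1.post (G.coverI (m + 1))

end GSp

end BPN
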