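import Pool.Agent.BPN.Cons

/-!
# Filling faces in group spectra (project BPN, module S/Ext)
-/

namespace BPN

namespace GSp

/-- Surjective homomorphisms. -/
def Hom.Surj {E G : GSp} (p : Hom E G) : Prop := ∀ q, Function.Surjective (p.f q)

/-- The homotopy group in degree `q` vanishes. -/
def Vanish (G : GSp) (q : ℤ) : Prop := ∀ z ∈ G.Z q, z ∈ G.B q

theorem acyclic_iff (G : GSp) : G.Acyclic ↔ ∀ q, G.Vanish q := Iff.rfl

/-- The identity homomorphism. -/
def Hom.id (G : GSp) : Hom G G := ⟨fun _ => AddMonoidHom.id _, fun _ _ _ _ _ => rfl,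
  fun _ _ _ _ _ => rfl⟩

/-- Composition of homomorphisms. -/
def Hom.comp {G H K : GSp} (g : Hom H K) (f : Hom G H) : Hom G K :=
  ⟨fun q => (g.f q).comp (f.f q), fun i q r h x => by simp [f.map_d, g.map_d],
    fun i q r h x => by simp [f.map_s, g.map_s]⟩

/-- The inclusion of the kernel. -/
def kerIncl {G H : GSp} (f : Hom G H) : Hom (ker f) G :=
  ⟨fun q => (f.f q).ker.subtype, fun _ _ _ _ _ => rfl, fun _ _ _ _ _ => rfl⟩

/-- An element with at most one nontrivial face: this face is a boundary.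
PROOF: induction on `j`.  For `j = 0` by definition of `B`.  For `j = j' + 1`: all faces of
`z = d_{j'+1} w` vanish (simplicial identities), and `w' = s_{j'} z - w` has only the face
`d_{j'} w' = z`. -/
theorem face (G : GSp) {q r : ℤ} (h : q + 1 = r) (j : ℕ) (w : G.G r)
    (hw : ∀ i, i ≠ j → G.d i h w = 0) : G.d j h w ∈ G.B q := by
  induction j generalizing w with
  | zero =>
    subst h
    refine ⟨w, ?_, rfl⟩
    intro i r' h'
    obtain rfl : r' = q := by omega
    exact hw (i + 1) (Nat.succ_ne_zero i)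
  | succ j ih =>
    have hz : ∀ (i : ℕ) {t : ℤ} (ht : t + 1 = q), G.d i ht (G.d (j + 1) h w) = 0 := by
      intro i t ht
      rcases Nat.lt_or_ge i (j + 1) with hij | hij
      · rw [G.dd (Nat.lt_succ_iff.mp hij) ht h w, hw i (by omega), map_zero]
      · rw [← G.dd hij ht h w, hw (i + 1) (by omega), map_zero]
    have hq : q - 1 + 1 = q := by omega
    have hj : G.d j h (G.s j h (G.d (j + 1) h w) + -w) = G.d (j + 1) h w := by
      rw [map_add, map_neg, hw j (by omega), G.ds_eq, neg_zero, add_zero]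
    rw [← hj]
    refine ih _ ?_
    intro i hi
    rw [map_add, map_neg]
    rcases Nat.lt_trichotomy i (j + 1) with hij | hij | hij
    · obtain ⟨k, rfl⟩ : ∃ k, j = k + 1 := ⟨j - 1, by omega⟩
      rw [G.ds_lt (by omega : i ≤ k) hq h, hz i hq, map_zero, hw i (by omega), neg_zero, add_zero]
    · subst hij
      rw [G.ds_succ, add_neg_cancel]
    · obtain ⟨k, rfl⟩ : ∃ k, i = k + 1 := ⟨i - 1, by omega⟩
      rw [G.ds_gt (by omega : j < k) hq h, hz k hq, map_zero, hw (k + 1) (by omega), neg_zero,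
        add_zero]

/-- Horn filling (all faces but the `0`-th), matching only required for positive indices. -/
theorem fill' (G : GSp) {q r : ℤ} (h : q + 1 = r) (k : ℕ → G.G q) (n : ℕ)
    (hk : ∀ i, n ≤ i → k i = 0)
    (hm : ∀ {i j : ℕ}, 0 < i → i ≤ j → ∀ {t : ℤ} (h₂ : t + 1 = q),
      G.d i h₂ (k (j + 1)) = G.d j h₂ (k i)) :
    ∃ w : G.G r, ∀ i, G.d (i + 1) h w = k (i + 1) := by
  have hq : q - 1 + 1 = q := by omega
  have key : ∀ m : ℕ, ∃ w : G.G r, ∀ i, n - m < i → G.d i h w = k i := by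
    intro m
    induction m with
    | zero => exact ⟨0, fun i hi => by rw [map_zero, hk i (by omega)]⟩
    | succ m ih =>
      obtain ⟨w, hw⟩ := ih
      rcases Nat.eq_zero_or_pos (n - m) with h0 | h0
      · exact ⟨w, fun i hi => hw i (by omega)⟩
      obtain ⟨l, hl⟩ : ∃ l, n - m = l + 1 := ⟨n - m - 1, by omega⟩
      have hl' : n - (m + 1) = l := by omega
      rw [hl] at hw
      rw [hl']
      have hc : ∀ i, l + 1 ≤ i → G.d i hq (-(G.d (l + 1) h w) + k (l + 1)) = 0 := by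
        intro i hi
        rw [map_add, map_neg, ← G.dd hi hq h w, hw (i + 1) (by omega), hm (Nat.succ_pos l) hi hq,
          neg_add_cancel]
      refine ⟨w + G.s l h (-(G.d (l + 1) h w) + k (l + 1)), fun i hi => ?_⟩
      rw [map_add]
      rcases Nat.eq_or_lt_of_le (Nat.succ_le_of_lt hi) with hi' | hi'
      · obtain rfl : i = l + 1 := hi'.symm
        rw [G.ds_succ, add_neg_cancel_left]
      · obtain ⟨i, rfl⟩ : ∃ j, i = j + 1 := ⟨i - 1, by omega⟩
        rw [G.ds_gt (by omega : l < i) hq h, hc i (by omega), map_zero, add_zero,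
          hw (i + 1) (by omega)]
  obtain ⟨w, hw⟩ := key n
  exact ⟨w, fun i => hw (i + 1) (by omega)⟩

/-- Horn filling (all faces but the `0`-th).
PROOF: descending induction: if `d_i w = k_i` for all `i > j`, `j ≥ 1`, put
`c = - d_j w + k_j`; then `d_i c = 0` for `i ≥ j` and `w + s_{j-1} c` works for `j`. -/
theorem fill (G : GSp) {q r : ℤ} (h : q + 1 = r) (k : ℕ → G.G q) (n : ℕ)
    (hk : ∀ i, n ≤ i → k i = 0)
    (hm : ∀ {i j : ℕ}, i ≤ j → ∀ {t : ℤ} (h₂ : t + 1 = q), G.d i h₂ (k (j + 1)) = G.d j h₂ (k i)) :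
    ∃ w : G.G r, ∀ i, G.d (i + 1) h w = k (i + 1) :=
  G.fill' h k n hk (fun _ hij _ h₂ => hm hij h₂)

/-- A Moore chain lifts to a Moore chain along a surjective homomorphism. -/
theorem exists_N_lift {E G : GSp} (p : Hom E G) (hp : p.Surj) {q : ℤ} (y : G.G q)
    (hy : y ∈ G.N q) : ∃ x : E.G q, x ∈ E.N q ∧ p.f q x = y := by
  classical
  obtain ⟨x₀, rfl⟩ := hp q y
  have hq : q - 1 + 1 = q := by omega
  obtain ⟨n, hn⟩ := E.fin hq x₀
  have hker : ∀ i, 0 < i → E.d i hq x₀ ∈ (p.f (q - 1)).ker := by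
    intro i hi
    obtain ⟨i, rfl⟩ : ∃ j, i = j + 1 := ⟨i - 1, by omega⟩
    rw [AddMonoidHom.mem_ker, p.map_d]
    exact hy i hq
  let k : ℕ → (p.f (q - 1)).ker := fun i =>
    if hi : 0 < i then ⟨E.d i hq x₀, hker i hi⟩ else 0
  have hkv : ∀ i, 0 < i → (k i).1 = E.d i hq x₀ := by
    intro i hi
    simp only [k, dif_pos hi]
  obtain ⟨w, hw⟩ := (ker p).fill' hq k (n + 1)
    (fun i hi => by
      refine Subtype.ext ?_
      rw [hkv i (by omega), hn i (by omega)]
      rfl)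
    (fun {i j} hi hij t h₂ => by
      refine Subtype.ext ?_
      change E.d i h₂ (k (j + 1)).1 = E.d j h₂ (k i).1
      rw [hkv (j + 1) (by omega), hkv i hi]
      exact E.dd hij h₂ hq x₀)
  refine ⟨x₀ + -(w.1 : E.G q), ?_, ?_⟩
  · intro i r h'
    obtain rfl : r = q - 1 := by omega
    have h1 : E.d (i + 1) h' w.1 = E.d (i + 1) h' x₀ := by
      have h2 := congrArg (fun v : (p.f (q - 1)).ker => (v : E.G (q - 1))) (hw i)
      exact h2.trans (hkv (i + 1) (Nat.succ_pos i))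
    rw [map_add, map_neg, h1, add_neg_cancel]
  · have h3 : p.f q w.1 = 0 := w.2
    rw [map_add, map_neg, h3, neg_zero, add_zero]

/-- Extension property: if `π_q (ker p) = 0` then a simplex of dimension `q + 1` of `G` together with
matching faces in `E` lifts to `E`.
PROOF: choose `y₀` over `g`, replace `e_i` by `- d_i y₀ + e_i`, so that the problem is in the
kernel; fill all faces but the `0`-th by `fill`; the difference of the `0`-th faces is a cycle, hence
of the form `d_0 v` with `v` a Moore chain. -/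
theorem ext_fill {E G : GSp} (p : Hom E G) (hp : p.Surj) {q r : ℤ} (h : q + 1 = r)
    (hK : (ker p).Vanish q) (g : G.G r) (e : ℕ → E.G q) (n : ℕ) (he : ∀ i, n ≤ i → e i = 0)
    (hm : ∀ {i j : ℕ}, i ≤ j → ∀ {t : ℤ} (h₂ : t + 1 = q), E.d i h₂ (e (j + 1)) = E.d j h₂ (e i))
    (hpe : ∀ i, p.f q (e i) = G.d i h g) :
    ∃ y : E.G r, p.f r y = g ∧ ∀ i, E.d i h y = e i := by
  subst h
  obtain ⟨y₀, hy₀⟩ := hp (q + 1) g
  obtain ⟨m, hm'⟩ := E.fin rfl y₀
  have hker : ∀ i, -(E.d i rfl y₀) + e i ∈ (p.f q).ker := by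
    intro i
    rw [AddMonoidHom.mem_ker, map_add, map_neg, p.map_d, hy₀, hpe i, neg_add_cancel]
  let k : ℕ → (ker p).G q := fun i => ⟨-(E.d i rfl y₀) + e i, hker i⟩
  have hkm : ∀ {i j : ℕ}, i ≤ j → ∀ {t : ℤ} (h₂ : t + 1 = q),
      (ker p).d i h₂ (k (j + 1)) = (ker p).d j h₂ (k i) := by
    intro i j hij t h₂
    refine Subtype.ext ?_
    change E.d i h₂ (-(E.d (j + 1) rfl y₀) + e (j + 1)) = E.d j h₂ (-(E.d i rfl y₀) + e i)
    rw [map_add, map_neg, map_add, map_neg, E.dd hij h₂ rfl y₀, hm hij h₂]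
  obtain ⟨w, hw⟩ := (ker p).fill rfl k (max m n)
    (fun i hi => by
      refine Subtype.ext ?_
      change -(E.d i rfl y₀) + e i = 0
      rw [hm' i (le_trans (le_max_left _ _) hi), he i (le_trans (le_max_right _ _) hi), neg_zero,
        add_zero]) hkm
  obtain ⟨v, hv, hv0⟩ := hK (-((ker p).d 0 rfl w) + k 0) (by
    intro j t ht
    rw [map_add, map_neg, ← (ker p).dd (Nat.zero_le j) ht rfl w, hw j, hkm (Nat.zero_le j) ht,
      neg_add_cancel])
  have hw' : ∀ i, E.d (i + 1) rfl (w.1 : E.G (q + 1)) = -(E.d (i + 1) rfl y₀) + e (i + 1) :=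
    fun i => congrArg (fun v : (p.f q).ker => (v : E.G q)) (hw i)
  have hv' : ∀ i, E.d (i + 1) rfl (v.1 : E.G (q + 1)) = 0 :=
    fun i => congrArg (fun v : (p.f q).ker => (v : E.G q)) (hv i rfl)
  have hv0' : E.d 0 rfl (v.1 : E.G (q + 1)) =
      -(E.d 0 rfl (w.1 : E.G (q + 1))) + (-(E.d 0 rfl y₀) + e 0) :=
    congrArg (fun v : (p.f q).ker => (v : E.G q)) hv0
  have hwp : p.f (q + 1) w.1 = 0 := w.2
  have hvp : p.f (q + 1) v.1 = 0 := v.2
  refine ⟨y₀ + w.1 + v.1, by rw [map_add, map_add, hwp, hvp, add_zero, add_zero, hy₀], ?_⟩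
  intro i
  rw [map_add, map_add]
  rcases i with _ | i
  · rw [hv0']
    simp only [add_assoc, add_neg_cancel_left]
  · rw [hv', hw', add_zero, add_neg_cancel_left]

/-- `P G` is acyclic.  PROOF: `s_0` of `G` is an extra degeneracy: for a cycle `z` of `P G` in degree
`q` (`z ∈ G_{q+1}`, `d_{i+1} z = 0`), take `w = s_0 z` or use `face`. -/
theorem P_acyclic (G : GSp) : G.P.Acyclic := by
  intro q (z : G.G (q + 1)) hz
  have hz' : ∀ i, G.d (i + 1) rfl z = 0 := by
    intro i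
    have h1 := hz i (r := q - 1) (by omega)
    have h2 : ∀ (t : ℤ) (ht : t + 1 = q + 1), G.d (i + 1) ht z = 0 := by
      intro t ht
      obtain rfl : t = q - 1 + 1 := by omega
      exact h1
    exact h2 q rfl
  refine ⟨G.s 0 (rfl : q + 1 + 1 = q + 1 + 1) z, ?_, ?_⟩
  · intro i r h
    obtain rfl : r = q := by omega
    change G.d (i + 1 + 1) rfl (G.s 0 rfl z) = 0
    rw [G.ds_gt (Nat.succ_pos i) rfl rfl z, hz' i, map_zero]
  · exact G.ds_succ 0 rfl z

theorem dP_surj (G : GSp) : G.dP.Surj := fun _ x => ⟨G.s 0 rfl x, G.ds_eq 0 rfl x⟩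

/-- Loops: the kernel of `P G → G`. -/
abbrev Om (G : GSp) : GSp := ker G.dP

/-- `π_q (Ω G) = 0` if `π_{q+1} (G) = 0`. -/
theorem Om_vanish (G : GSp) {q : ℤ} (h : G.Vanish (q + 1)) : G.Om.Vanish q := by
  intro z hz
  obtain ⟨z, hz0⟩ := z
  change G.G (q + 1) at z
  have hz0' : G.d 0 rfl z = 0 := hz0
  have hz' : ∀ i, G.d i rfl z = 0 := by
    intro i
    rcases i with _ | i
    · exact hz0'
    have h1 : G.d (i + 1) (by omega : (q - 1 + 1) + 1 = q + 1) z = 0 :=
      congrArg (fun v : (G.dP.f (q - 1)).ker => (v : G.P.G (q - 1))) (hz i (r := q - 1) (by omega))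
    have h2 : ∀ (t : ℤ) (ht : t + 1 = q + 1), G.d (i + 1) ht z = 0 := by
      intro t ht
      obtain rfl : t = q - 1 + 1 := by omega
      exact h1
    exact h2 q rfl
  obtain ⟨y, hy, hy0⟩ := h z (by
    intro i r hr
    obtain rfl : r = q := by omega
    exact hz' i)
  have hw0 : G.d 0 rfl (G.s 0 (rfl : q + 1 + 1 = q + 1 + 1) z + -y) = 0 := by
    rw [map_add, map_neg, G.ds_eq, hy0, add_neg_cancel]
  refine ⟨⟨G.s 0 (rfl : q + 1 + 1 = q + 1 + 1) z + -y, hw0⟩, ?_, ?_⟩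
  · intro i r hr
    obtain rfl : r = q := by omega
    refine Subtype.ext ?_
    change G.d (i + 1 + 1) rfl (G.s 0 (rfl : r + 1 + 1 = r + 1 + 1) z + -y) = 0
    rw [map_add, map_neg, G.ds_gt (Nat.succ_pos i) rfl rfl z, hz' (i + 1), map_zero,
      hy (i + 1) rfl, neg_zero, add_zero]
  · refine Subtype.ext ?_
    change G.d (0 + 1) rfl (G.s 0 (rfl : q + 1 + 1 = q + 1 + 1) z + -y) = z
    rw [map_add, map_neg, G.ds_succ, hy 0 rfl, neg_zero, add_zero]

theorem Om_acyclic (G : GSp) (h : G.Acyclic) : G.Om.Acyclic := fun q => G.Om_vanish (h (q + 1))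

/-- Commutators of cycles are boundaries (`w = [s_0 x, s_1 y]` has only the face `d_1 w = [x,y]`). -/
theorem comm_mem_B (G : GSp) {q : ℤ} (x y : G.G q) (hx : x ∈ G.Z q) (hy : y ∈ G.Z q) :
    x + y + -x + -y ∈ G.B q := by
  have hq : q - 1 + 1 = q := by omega
  have h1 : G.d 1 rfl (G.s 0 rfl x + G.s 1 rfl y + -G.s 0 rfl x + -G.s 1 rfl y) =
      x + y + -x + -y := by
    have e1 : G.d 1 rfl (G.s 0 rfl x) = x := G.ds_succ 0 rfl x
    simp only [map_add, map_neg, e1, G.ds_eq]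
  rw [← h1]
  refine G.face rfl 1 _ ?_
  intro i hi
  rcases i with _ | _ | _ | i
  · have e1 : G.d 0 rfl (G.s 1 rfl y) = 0 := by
      rw [G.ds_lt (le_refl 0) hq rfl y, hy 0 hq, map_zero]
    simp only [map_add, map_neg, e1, neg_zero, add_zero, add_neg_cancel]
  · exact absurd rfl hi
  · have e1 : G.d 2 rfl (G.s 0 rfl x) = 0 := by
      rw [G.ds_gt (by omega : 0 < 1) hq rfl x, hx 1 hq, map_zero]
    simp only [zero_add, map_add, map_neg] at *
    simp only [e1, neg_zero, zero_add, add_zero, add_neg_cancel]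
  · have e1 : G.d (i + 1 + 1 + 1) rfl (G.s 0 rfl x) = 0 := by
      rw [G.ds_gt (by omega : 0 < i + 1 + 1) hq rfl x, hx _ hq, map_zero]
    have e2 : G.d (i + 1 + 1 + 1) rfl (G.s 1 rfl y) = 0 := by
      rw [G.ds_gt (by omega : 1 < i + 1 + 1) hq rfl y, hy _ hq, map_zero]
    simp only [map_add, map_neg, e1, e2, neg_zero, add_zero]

/-- Boundaries are cycles. -/
theorem B_le_Z (G : GSp) (q : ℤ) : G.B q ≤ G.Z q := by
  rintro z ⟨y, hy, rfl⟩ i r h
  rw [← G.dd (Nat.zero_le i) h rfl y, hy i rfl, map_zero]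

theorem Hom.map_Z {G H : GSp} (f : Hom G H) {q : ℤ} {x : G.G q} (hx : x ∈ G.Z q) :
    f.f q x ∈ H.Z q := fun i r h => by rw [← f.map_d, hx i h, map_zero]

theorem Hom.map_N {G H : GSp} (f : Hom G H) {q : ℤ} {x : G.G q} (hx : x ∈ G.N q) :
    f.f q x ∈ H.N q := fun i r h => by rw [← f.map_d, hx i h, map_zero]

theorem Hom.map_B {G H : GSp} (f : Hom G H) {q : ℤ} {x : G.G q} (hx : x ∈ G.B q) :
    f.f q x ∈ H.B q := by
  obtain ⟨y, hy, rfl⟩ := hx
  exact ⟨f.f _ y, f.map_N hy, (f.map_d 0 rfl y).symm⟩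

end GSp

end BPN
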