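import Pool.Agent.BPN.S.WH

/-!
# Homotopy fibres of set-level maps (project BPN, module S/Fib)

`Fib c = F (U G) ×_H P H` for `c : U G → H`; elements `(w, b)`, `c(w) = d_0 b`.
-/

namespace BPN

open GSp

variable {X : PSp} {G H K G' H' : GSp}

/-- The homotopy fibre. -/
noncomputable def Map.Fib (c : Map G.U H) : GSp := pb c.ext' H.dP

/-- The projection to `F (U G)`. -/
noncomputable def Map.fibF (c : Map G.U H) : Hom c.Fib G.U.F :=
  ⟨fun q => (AddMonoidHom.fst _ _).comp (AddSubgroup.subtype _), fun _ _ _ _ _ => rfl,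
    fun _ _ _ _ _ => rfl⟩

/-- The projection `Fib c → G`. -/
noncomputable def Map.fibP (c : Map G.U H) : Hom c.Fib G := G.eps.comp c.fibF

/-- The counit on a generator. -/
private theorem fib_eps_of (G : GSp) (q : ℤ) (x : G.G q) :
    G.eps.f q (FrG.of (0 : G.G q) x) = x :=
  FrG.lift_of (x₀ := (0 : G.G q)) (fun x => x) rfl x

theorem Map.fibP_surj (c : Map G.U H) : c.fibP.Surj := fun q x =>
  ⟨⟨(FrG.of (0 : G.G q) x, H.s 0 rfl (c.f q x)), by
    change c.ext'.f q (FrG.of (0 : G.G q) x) = H.dP.f q (H.s 0 rfl (c.f q x))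
    rw [Map.ext'_of]
    exact (H.ds_eq 0 rfl _).symm⟩, fib_eps_of G q x⟩

/-- The inclusion of `Ω H`. -/
noncomputable def Map.fibI (c : Map G.U H) : Hom H.Om c.Fib :=
  ⟨fun q => { toFun := fun b => ⟨(0, b.1), by
                change c.ext'.f q 0 = H.dP.f q b.1
                rw [map_zero]; exact b.2.symm⟩
              map_zero' := rfl
              map_add' := fun x y => Subtype.ext (Prod.ext (add_zero 0).symm rfl) },
    fun i _ _ h _ => Subtype.ext (Prod.ext (map_zero (G.U.F.d i h)).symm rfl),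
    fun i _ _ h _ => Subtype.ext (Prod.ext (map_zero (G.U.F.s i h)).symm rfl)⟩

/-- A map to the fibre from a map `a` to `G` and a nullhomotopy of `c a`. -/
noncomputable def Map.toFib (c : Map G.U H) (a : Map X G) (b : Map X H.P)
    (h : Map.post H.dP b = Map.comp c a) : Map X c.Fib where
  f := fun q x => ⟨(FrG.of 0 (a.f q x), b.f q x), by
    change c.ext'.f q (FrG.of 0 (a.f q x)) = H.dP.f q (b.f q x)
    rw [Map.ext'_of]
    exact (congrArg (fun z : Map X H => z.f q x) h).symm⟩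
  map_pt := fun q => Subtype.ext (Prod.ext (by
    change FrG.of 0 (a.f q (X.pt q)) = 0
    rw [a.map_pt]; exact FrG.of_pt) (b.map_pt q))
  map_d := fun i q r h x => Subtype.ext (Prod.ext (by
    change FrG.of 0 (a.f q (X.d i h x)) = _
    rw [a.map_d]
    exact (PSp.eta G.U).map_d i h (a.f r x)) (b.map_d i h x))
  map_s := fun i q r h x => Subtype.ext (Prod.ext (by
    change FrG.of 0 (a.f r (X.s i h x)) = _
    rw [a.map_s]
    exact (PSp.eta G.U).map_s i h (a.f q x)) (b.map_s i h x))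

theorem Map.fibP_toFib (c : Map G.U H) (a : Map X G) (b : Map X H.P)
    (h : Map.post H.dP b = Map.comp c a) : Map.post c.fibP (c.toFib a b h) = a :=
  Map.ext2 fun q x => fib_eps_of G q (a.f q x)

/-- The set-level map `c ∘ ε` on `F (U G)` is homotopic to the homomorphism `c.ext'`. -/
private theorem fib_htp (c : Map G.U H) :
    HC.mk (Map.comp c (Map.ofHom G.eps)) = HC.mk (Map.ofHom c.ext') := by
  apply ((GSp.eta_we G).pre_bijective (K := H)).1
  rw [HC.pre_mk, HC.pre_mk]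
  congr 1
  refine Map.ext2 fun q x => ?_
  change c.f q (G.eps.f q (FrG.of (0 : G.G q) x)) = c.ext'.f q (FrG.of (0 : G.G q) x)
  rw [fib_eps_of]
  exact (Map.ext'_of c q x).symm

/-- The composite `Fib c → G → H` is nullhomotopic. -/
theorem Map.null_comp_fibP (c : Map G.U H) : (Map.comp c (Map.ofHom c.fibP)).Null := by
  have h1 := congrArg (HC.pre (Map.ofHom c.fibF).toHom) (fib_htp c)
  rw [HC.pre_mk, HC.pre_mk] at h1
  have h2 : (Map.pre (Map.ofHom c.fibF).toHom (Map.ofHom c.ext')).Null := by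
    refine ⟨⟨fun q x => x.1.2, fun _ => rfl, fun _ _ _ _ _ => rfl, fun _ _ _ _ _ => rfl⟩, ?_⟩
    exact Map.ext2 fun q x => x.2.symm
  rw [← HC.mk_eq_zero] at h2 ⊢
  rw [← h2, ← h1]
  rfl

/-- The composite `Ω H → Fib c → G` is zero. -/
theorem Map.fibP_fibI (c : Map G.U H) : Map.post c.fibP (Map.ofHom c.fibI) = 0 :=
  Map.ext2 fun q _ => map_zero (G.eps.f q)

/-- `a` lifts to the fibre iff `c a` is nullhomotopic. -/
theorem Map.exists_fib_lift (c : Map G.U H) (a : Map X G) (h : (Map.comp c a).Null) :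
    ∃ a' : Map X c.Fib, Map.post c.fibP a' = a := by
  obtain ⟨b, hb⟩ := h
  exact ⟨c.toFib a b hb, c.fibP_toFib a b hb⟩

/-- The kernel of `Fib c → G` is weakly equivalent to `Ω H`: the inclusion `Ω H → ker fibP`. -/
noncomputable def Map.omKer (c : Map G.U H) : Hom H.Om (ker c.fibP) :=
  ⟨fun q => (c.fibI.f q).codRestrict _ (fun b => by
      rw [AddMonoidHom.mem_ker]
      change G.eps.f q 0 = 0
      exact map_zero (G.eps.f q)),
    fun i _ _ h x => Subtype.ext (c.fibI.map_d i h x),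
    fun i _ _ h x => Subtype.ext (c.fibI.map_s i h x)⟩

/-- Levelwise bijective homomorphisms are weak equivalences. -/
private theorem fib_we_of_bij {A B : GSp} (φ : Hom A B) (h1 : ∀ q, Function.Injective (φ.f q))
    (h2 : φ.Surj) : (Map.ofHom φ).WE := by
  rw [GSp.we_iff φ h2]
  intro q x _
  have hx : x = 0 := Subtype.ext (h1 q ((x.2 : φ.f q x.1 = 0).trans (map_zero _).symm))
  rw [hx]
  exact zero_mem _

/-- The inclusion of the kernel of a surjection onto an acyclic group spectrum. -/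
private theorem fib_we_kerIncl {A B : GSp} (p : Hom A B) (hp : p.Surj) (hB : B.Acyclic) :
    (Map.ofHom (kerIncl p)).WE := by
  have hz : ∀ (q : ℤ) (x : B.pi q), x = 0 := fun q => GSp.vanish_iff.1 (hB q)
  intro q
  constructor
  · rw [injective_iff_map_eq_zero]
    intro k hk
    obtain ⟨x, rfl⟩ := (GSp.exact_K p hp (rfl : q + 1 = q + 1) k).1 hk
    rw [hz _ x, map_zero]
  · intro x
    exact (GSp.exact_E p hp x).1 (hz q _)

/-- The projection `ker fibP → ker ε`. -/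
private noncomputable def fibPr (c : Map G.U H) : Hom (ker c.fibP) (ker G.eps) :=
  ⟨fun q => ((c.fibF.f q).comp (AddSubgroup.subtype _)).codRestrict _ (fun x => x.2),
    fun _ _ _ _ _ => rfl, fun _ _ _ _ _ => rfl⟩

private theorem fibPr_surj (c : Map G.U H) : (fibPr c).Surj := fun q w => by
  refine ⟨⟨⟨(w.1, H.s 0 rfl (c.ext'.f q w.1)), ?_⟩, w.2⟩, rfl⟩
  exact (H.ds_eq 0 rfl (c.ext'.f q w.1)).symm

/-- `Ω H → ker (ker fibP → ker ε)` -/
private noncomputable def fibPs (c : Map G.U H) : Hom H.Om (ker (fibPr c)) :=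
  ⟨fun q => (c.omKer.f q).codRestrict _ (fun _ => Subtype.ext rfl),
    fun i _ _ h x => Subtype.ext (c.omKer.map_d i h x),
    fun i _ _ h x => Subtype.ext (c.omKer.map_s i h x)⟩

theorem Map.omKer_we (c : Map G.U H) : (Map.ofHom c.omKer).WE := by
  have h1 : (Map.ofHom (fibPs c)).WE := by
    refine fib_we_of_bij _ ?_ ?_
    · intro q x y hxy
      have h2 : (fibPs c).f q x = (fibPs c).f q y := hxy
      apply Subtype.ext
      exact congrArg (fun z : (ker (fibPr c)).G q => z.1.1.1.2) h2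
    · intro q y
      have h2 : y.1.1.1.1 = 0 := congrArg Subtype.val y.2
      refine ⟨⟨y.1.1.1.2, ?_⟩, ?_⟩
      · have h3 : c.ext'.f q y.1.1.1.1 = H.dP.f q y.1.1.1.2 := y.1.1.2
        rw [h2, map_zero] at h3
        exact h3.symm
      · apply Subtype.ext
        apply Subtype.ext
        apply Subtype.ext
        exact Prod.ext h2.symm rfl
  have h2 := fib_we_kerIncl (fibPr c) (fibPr_surj c) G.ker_eps_acyclic
  exact h2.comp h1

/-- A map to the fibre which is nullhomotopic in `G` comes from `Ω H` (up to homotopy). -/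
theorem Map.exists_om_lift (c : Map G.U H) (a : Map X c.Fib) (h : (Map.post c.fibP a).Null) :
    ∃ w : Map X H.Om, HC.mk (Map.post c.fibI w) = HC.mk a := by
  obtain ⟨k, hk⟩ := HC.exact_ker c.fibP c.fibP_surj a h
  obtain ⟨w', hw'⟩ := (c.omKer_we.comp_bijective (X := X)).2 (HC.mk k)
  obtain ⟨w, rfl⟩ := HC.mk_surj w'
  refine ⟨w, ?_⟩
  rw [HC.comp_mk] at hw'
  have h1 := congrArg (HC.comp (Map.ofHom (kerIncl c.fibP))) hw'
  rw [HC.comp_mk, HC.comp_mk] at h1
  exact h1.trans hk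

/-! Long exact sequence. -/

theorem Map.fib_exact_G (c : Map G.U H) (q : ℤ) (x : G.pi q) :
    c.pi q x = 0 ↔ ∃ y : c.Fib.pi q, (Map.ofHom c.fibP).pi q y = x := by
  constructor
  · intro hx
    obtain ⟨z, rfl⟩ := G.piMk_surj q x
    rw [Map.pi_mk, piMk_eq_zero] at hx
    obtain ⟨y, hy, hyz⟩ := hx
    have hmem : c.ext'.f q (FrG.of (0 : G.G q) z.1) = H.dP.f q y := by
      rw [Map.ext'_of]
      exact hyz.symm
    refine ⟨c.Fib.piMk q ⟨⟨(FrG.of (0 : G.G q) z.1, y), hmem⟩, ?_⟩, ?_⟩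
    · intro i r h
      refine Subtype.ext (Prod.ext ?_ ?_)
      · have h1 : FrG.of (0 : G.G r) (G.d i h z.1) = G.U.F.d i h (FrG.of (0 : G.G q) z.1) :=
          (PSp.eta G.U).map_d i h z.1
        have h2 : G.d i h z.1 = 0 := z.2 i h
        rw [h2] at h1
        exact h1.symm.trans FrG.of_pt
      · exact hy i (by omega)
    · rw [Map.pi_mk]
      congr 1
      exact Subtype.ext (fib_eps_of G q z.1)
  · rintro ⟨y, rfl⟩
    have h1 := c.null_comp_fibP.pi q
    rw [Map.pi_comp] at h1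
    exact DFunLike.congr_fun h1 y

theorem Map.fib_exact_Fib (c : Map G.U H) (q : ℤ) (x : c.Fib.pi q) :
    (Map.ofHom c.fibP).pi q x = 0 ↔ ∃ y : H.Om.pi q, (Map.ofHom c.fibI).pi q y = x := by
  have h1 : (Map.ofHom c.fibI).pi q =
      ((Map.ofHom (kerIncl c.fibP)).pi q).comp ((Map.ofHom c.omKer).pi q) :=
    Map.pi_comp (Map.ofHom (kerIncl c.fibP)) (Map.ofHom c.omKer) q
  rw [GSp.exact_E c.fibP c.fibP_surj, h1]
  constructor
  · rintro ⟨k, rfl⟩
    obtain ⟨y, rfl⟩ := (c.omKer_we q).2 k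
    exact ⟨y, rfl⟩
  · rintro ⟨y, rfl⟩
    exact ⟨(Map.ofHom c.omKer).pi q y, rfl⟩

/-- the boundary of a class -/
private theorem fib_bdry (c : Map G.U H) (q : ℤ) (x : G.pi (q + 1)) :
    ∃ w : H.Om.pi q, omPi H q w = c.pi (q + 1) x ∧
      bdry c.fibP c.fibP_surj rfl x = (Map.ofHom c.omKer).pi q w := by
  obtain ⟨z, rfl⟩ := G.piMk_surj (q + 1) x
  have hcz : c.f (q + 1) z.1 ∈ H.Z (q + 1) := c.map_Z z.2
  have hz0 : H.dP.f q (c.f (q + 1) z.1) = 0 := hcz 0 rfl
  have hcyc : (⟨c.f (q + 1) z.1, hz0⟩ : H.Om.G q) ∈ H.Om.Z q := by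
    intro i r h
    exact Subtype.ext (hcz (i + 1) (by omega))
  refine ⟨H.Om.piMk q ⟨⟨c.f (q + 1) z.1, hz0⟩, hcyc⟩, rfl, ?_⟩
  rw [Map.pi_mk]
  have hmem : c.ext'.f (q + 1) (FrG.of (0 : G.G (q + 1)) z.1) =
      H.dP.f (q + 1) (H.s 0 rfl (c.f (q + 1) z.1)) := by
    rw [Map.ext'_of]
    exact (H.ds_eq 0 rfl _).symm
  have hfree : ∀ (i : ℕ) {r : ℤ} (h : r + 1 = q + 1),
      G.U.F.d i h (FrG.of (0 : G.G (q + 1)) z.1) = 0 := by
    intro i r h
    have h1 : FrG.of (0 : G.G r) (G.d i h z.1) = G.U.F.d i h (FrG.of (0 : G.G (q + 1)) z.1) :=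
      (PSp.eta G.U).map_d i h z.1
    have h2 : G.d i h z.1 = 0 := z.2 i h
    rw [h2] at h1
    exact h1.symm.trans FrG.of_pt
  refine GSp.bdry_mk c.fibP c.fibP_surj rfl z
    ⟨(FrG.of (0 : G.G (q + 1)) z.1, H.s 0 rfl (c.f (q + 1) z.1)), hmem⟩ ?_
    (fib_eps_of G (q + 1) z.1) _ ?_
  · intro i r h
    obtain rfl : r = q := by omega
    refine Subtype.ext (Prod.ext (hfree (i + 1) h) ?_)
    change H.d (i + 1 + 1) _ (H.s 0 rfl (c.f (r + 1) z.1)) = 0
    rw [H.ds_gt (Nat.succ_pos i) rfl rfl, hcz (i + 1) rfl, map_zero]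
  · refine Subtype.ext (Prod.ext ?_ ?_)
    · exact (hfree 0 rfl).symm
    · exact (H.ds_succ 0 rfl (c.f (q + 1) z.1)).symm

theorem Map.fib_exact_Om (c : Map G.U H) (q : ℤ) (y : H.Om.pi q) :
    (Map.ofHom c.fibI).pi q y = 0 ↔ ∃ x : G.pi (q + 1), c.pi (q + 1) x = omPi H q y := by
  have h1 : (Map.ofHom c.fibI).pi q =
      ((Map.ofHom (kerIncl c.fibP)).pi q).comp ((Map.ofHom c.omKer).pi q) :=
    Map.pi_comp (Map.ofHom (kerIncl c.fibP)) (Map.ofHom c.omKer) q
  rw [h1, AddMonoidHom.comp_apply, GSp.exact_K c.fibP c.fibP_surj (rfl : q + 1 = q + 1)]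
  constructor
  · rintro ⟨x, hx⟩
    obtain ⟨w, hw1, hw2⟩ := fib_bdry c q x
    rw [hx] at hw2
    have h2 := (c.omKer_we q).1 hw2
    exact ⟨x, by rw [h2, hw1]⟩
  · rintro ⟨x, hx⟩
    obtain ⟨w, hw1, hw2⟩ := fib_bdry c q x
    rw [hx] at hw1
    have h2 := (omPi_bijective H q).1 hw1
    exact ⟨x, by rw [hw2, h2]⟩

/-- **Functoriality.**  If `θ c ≃ c' F` then there is a map of fibres over `F`, equal to `Ω θ` on
`Ω H`.  PROOF: `θ ∘ c.ext' ≃ c'.ext' ∘ (η F ε)` as maps on `F (U G)` (they agree up to homotopy after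
restriction along the weak equivalence `η`), say `c'.ext' (η F ε w) = θ (c.ext' w) + d_0 (h w)`; put
`F' (w, b) = (η F ε w, θ b + h w)`. -/
theorem Map.exists_fib_map (c : Map G.U H) (c' : Map G'.U H') (F : Map G.U G') (θ : Map H.U H')
    (h : HC.mk (Map.comp θ c) = HC.mk (Map.comp c' F)) :
    ∃ F' : Map c.Fib.U c'.Fib, Map.post c'.fibP F' = Map.comp F (Map.ofHom c.fibP) ∧
      Map.comp F' (Map.ofHom c.fibI) = Map.comp (Map.ofHom c'.fibI) θ.Om := by
  -- the two maps on `F (U G)`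
  have h1 : HC.mk (Map.comp (Map.comp c' F) (Map.ofHom G.eps)) =
      HC.mk (Map.comp θ (Map.ofHom c.ext')) := by
    apply ((GSp.eta_we G).pre_bijective (K := H')).1
    rw [HC.pre_mk, HC.pre_mk]
    have h2 : Map.pre (PSp.eta G.U).toHom (Map.comp (Map.comp c' F) (Map.ofHom G.eps)) =
        Map.comp c' F := by
      refine Map.ext2 fun q x => ?_
      change c'.f q (F.f q (G.eps.f q (FrG.of (0 : G.G q) x))) = c'.f q (F.f q x)
      rw [fib_eps_of]
    have h3 : Map.pre (PSp.eta G.U).toHom (Map.comp θ (Map.ofHom c.ext')) = Map.comp θ c := by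
      refine Map.ext2 fun q x => ?_
      change θ.f q (c.ext'.f q (FrG.of (0 : G.G q) x)) = θ.f q (c.f q x)
      rw [Map.ext'_of]
    rw [h2, h3]
    exact h.symm
  rw [HC.mk_eq] at h1
  obtain ⟨k, hk⟩ := h1
  have hk2 : ∀ (q : ℤ) (w : G.U.F.G q), H'.dP.f q (k.f q w) =
      c'.f q (F.f q (G.eps.f q w)) + -θ.f q (c.ext'.f q w) := fun q w =>
    congrArg (fun z : Map G.U.F.U H' => z.f q w) hk
  have hθd : ∀ (q : ℤ) (b : H.P.G q), H'.dP.f q (θ.mapP.f q b) = θ.f q (H.dP.f q b) :=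
    fun q b => (θ.map_d 0 rfl b).symm
  refine ⟨⟨fun q x => ⟨(FrG.of (0 : G'.G q) (F.f q (G.eps.f q x.1.1)),
      k.f q x.1.1 + θ.mapP.f q x.1.2), ?_⟩, ?_, ?_, ?_⟩, ?_, ?_⟩
  · change c'.ext'.f q (FrG.of (0 : G'.G q) (F.f q (G.eps.f q x.1.1))) =
      H'.dP.f q (k.f q x.1.1 + θ.mapP.f q x.1.2)
    have hx : c.ext'.f q x.1.1 = H.dP.f q x.1.2 := x.2
    rw [Map.ext'_of, map_add, hk2, hθd, ← hx, neg_add_cancel_right]
  · intro q
    refine Subtype.ext (Prod.ext ?_ ?_)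
    · change FrG.of (0 : G'.G q) (F.f q (G.eps.f q 0)) = 0
      have h4 : F.f q (G.eps.f q 0) = 0 := by
        rw [map_zero]
        exact F.map_pt q
      rw [h4]
      exact FrG.of_pt
    · change k.f q 0 + θ.mapP.f q 0 = 0
      have h4 : k.f q 0 = 0 := k.map_pt q
      have h5 : θ.mapP.f q 0 = 0 := θ.mapP.map_pt q
      rw [h4, h5, add_zero]
  · intro i q r e x
    refine Subtype.ext (Prod.ext ?_ ?_)
    · change FrG.of (0 : G'.G q) (F.f q (G.eps.f q (G.U.F.d i e x.1.1))) = _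
      have h4 : F.f q (G.eps.f q (G.U.F.d i e x.1.1)) = G'.d i e (F.f r (G.eps.f r x.1.1)) := by
        rw [G.eps.map_d]
        exact F.map_d i e _
      rw [h4]
      exact (PSp.eta G'.U).map_d i e (F.f r (G.eps.f r x.1.1))
    · change k.f q (G.U.F.d i e x.1.1) + θ.mapP.f q (H.P.d i e x.1.2) =
        H'.P.d i e (k.f r x.1.1 + θ.mapP.f r x.1.2)
      have h4 : k.f q (G.U.F.d i e x.1.1) = H'.P.d i e (k.f r x.1.1) := k.map_d i e x.1.1
      have h5 : θ.mapP.f q (H.P.d i e x.1.2) = H'.P.d i e (θ.mapP.f r x.1.2) :=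
        θ.mapP.map_d i e x.1.2
      rw [map_add, h4, h5]
  · intro i q r e x
    refine Subtype.ext (Prod.ext ?_ ?_)
    · change FrG.of (0 : G'.G r) (F.f r (G.eps.f r (G.U.F.s i e x.1.1))) = _
      have h4 : F.f r (G.eps.f r (G.U.F.s i e x.1.1)) = G'.s i e (F.f q (G.eps.f q x.1.1)) := by
        rw [G.eps.map_s]
        exact F.map_s i e _
      rw [h4]
      exact (PSp.eta G'.U).map_s i e (F.f q (G.eps.f q x.1.1))
    · change k.f r (G.U.F.s i e x.1.1) + θ.mapP.f r (H.P.s i e x.1.2) =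
        H'.P.s i e (k.f q x.1.1 + θ.mapP.f q x.1.2)
      have h4 : k.f r (G.U.F.s i e x.1.1) = H'.P.s i e (k.f q x.1.1) := k.map_s i e x.1.1
      have h5 : θ.mapP.f r (H.P.s i e x.1.2) = H'.P.s i e (θ.mapP.f q x.1.2) :=
        θ.mapP.map_s i e x.1.2
      rw [map_add, h4, h5]
  · refine Map.ext2 fun q x => ?_
    exact fib_eps_of G' q (F.f q (G.eps.f q x.1.1))
  · refine Map.ext2 fun q x => ?_
    refine Subtype.ext (Prod.ext ?_ ?_)
    · change FrG.of (0 : G'.G q) (F.f q (G.eps.f q 0)) = 0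
      have h4 : F.f q (G.eps.f q 0) = 0 := by
        rw [map_zero]
        exact F.map_pt q
      rw [h4]
      exact FrG.of_pt
    · change k.f q 0 + θ.mapP.f q x.1 = θ.mapP.f q x.1
      have h4 : k.f q 0 = 0 := k.map_pt q
      rw [h4, zero_add]

/-- Extension of a class from `Ω H` to the fibre: if `θ c` is nullhomotopic, `θ : H → L`, then
`Ω θ : Ω H → Ω L` extends to the fibre.  (Apply `exists_fib_map` to `G' = 0`, or directly.) -/
theorem Map.exists_fib_ext (c : Map G.U H) (θ : Map H.U K) (h : (Map.comp θ c).Null) :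
    ∃ e : Map c.Fib.U K.Om, Map.comp e (Map.ofHom c.fibI) = θ.Om := by
  have h1 : HC.mk (Map.comp θ (Map.ofHom c.ext')) = 0 := by
    apply ((GSp.eta_we G).pre_bijective (K := K)).1
    rw [HC.pre_mk, map_zero]
    have h3 : Map.pre (PSp.eta G.U).toHom (Map.comp θ (Map.ofHom c.ext')) = Map.comp θ c := by
      refine Map.ext2 fun q x => ?_
      change θ.f q (c.ext'.f q (FrG.of (0 : G.G q) x)) = θ.f q (c.f q x)
      rw [Map.ext'_of]
    rw [h3]
    exact HC.mk_eq_zero.2 h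
  rw [HC.mk_eq_zero] at h1
  obtain ⟨k, hk⟩ := h1
  have hk2 : ∀ (q : ℤ) (w : G.U.F.G q), K.dP.f q (k.f q w) = θ.f q (c.ext'.f q w) := fun q w =>
    congrArg (fun z : Map G.U.F.U K => z.f q w) hk
  have hθd : ∀ (q : ℤ) (b : H.P.G q), K.dP.f q (θ.mapP.f q b) = θ.f q (H.dP.f q b) :=
    fun q b => (θ.map_d 0 rfl b).symm
  refine ⟨⟨fun q x => ⟨-k.f q x.1.1 + θ.mapP.f q x.1.2, ?_⟩, ?_, ?_, ?_⟩, ?_⟩
  · rw [AddMonoidHom.mem_ker]
    have hx : c.ext'.f q x.1.1 = H.dP.f q x.1.2 := x.2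
    have h4 : K.dP.f q (-k.f q x.1.1 + θ.mapP.f q x.1.2) = 0 := by
      rw [map_add, map_neg, hk2, hθd, hx, neg_add_cancel]
    exact h4
  · intro q
    apply Subtype.ext
    change -k.f q 0 + θ.mapP.f q 0 = 0
    have h4 : k.f q 0 = 0 := k.map_pt q
    have h5 : θ.mapP.f q 0 = 0 := θ.mapP.map_pt q
    rw [h4, h5, neg_zero, add_zero]
  · intro i q r e x
    apply Subtype.ext
    change -k.f q (G.U.F.d i e x.1.1) + θ.mapP.f q (H.P.d i e x.1.2) =
      K.P.d i e (-k.f r x.1.1 + θ.mapP.f r x.1.2)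
    have h4 : k.f q (G.U.F.d i e x.1.1) = K.P.d i e (k.f r x.1.1) := k.map_d i e x.1.1
    have h5 : θ.mapP.f q (H.P.d i e x.1.2) = K.P.d i e (θ.mapP.f r x.1.2) :=
      θ.mapP.map_d i e x.1.2
    rw [map_add, map_neg, h4, h5]
  · intro i q r e x
    apply Subtype.ext
    change -k.f r (G.U.F.s i e x.1.1) + θ.mapP.f r (H.P.s i e x.1.2) =
      K.P.s i e (-k.f q x.1.1 + θ.mapP.f q x.1.2)
    have h4 : k.f r (G.U.F.s i e x.1.1) = K.P.s i e (k.f q x.1.1) := k.map_s i e x.1.1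
    have h5 : θ.mapP.f r (H.P.s i e x.1.2) = K.P.s i e (θ.mapP.f q x.1.2) :=
      θ.mapP.map_s i e x.1.2
    rw [map_add, map_neg, h4, h5]
  · refine Map.ext2 fun q x => ?_
    apply Subtype.ext
    change -k.f q 0 + θ.mapP.f q x.1 = θ.mapP.f q x.1
    have h4 : k.f q 0 = 0 := k.map_pt q
    rw [h4, neg_zero, zero_add]

end BPN
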