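import Pool.Agent.BPN.S.Smash

/-!
# Homotopy classes of maps (project BPN, module S/HC)

`Map.Null a` : `a` lifts to the path spectrum.  `Map.Htp a b` : `a - b` is nullhomotopic.
The main facts: the nullhomotopic maps form a normal subgroup with commutative quotient, composition is
compatible with homotopy and biadditive up to homotopy.
-/

namespace BPN

/-- A map as a homomorphism of pointed-set spectra. -/
def Map.toHom {X : PSp} {G : GSp} (a : Map X G) : PSp.Hom X G.U := ⟨a.f, a.map_pt, a.map_d, a.map_s⟩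

/-- The identity. -/
def PSp.Hom.id (X : PSp) : PSp.Hom X X :=
  ⟨fun _ x => x, fun _ => rfl, fun _ _ _ _ _ => rfl, fun _ _ _ _ _ => rfl⟩

/-- Composition. -/
def PSp.Hom.comp {X Y Z : PSp} (g : PSp.Hom Y Z) (f : PSp.Hom X Y) : PSp.Hom X Z :=
  ⟨fun q x => g.f q (f.f q x), fun q => by rw [f.map_pt, g.map_pt],
    fun i q r h x => by rw [f.map_d, g.map_d], fun i q r h x => by rw [f.map_s, g.map_s]⟩

namespace Map

variable {X Y W : PSp} {G H K : GSp}

/-- The set-level map induced on path spectra. -/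
def mapP (c : Map G.U H) : Map G.P.U H.P where
  f := fun q x => c.f (q + 1) x
  map_pt := fun q => c.map_pt (q + 1)
  map_d := fun i _ _ _ x => c.map_d (i + 1) _ x
  map_s := fun i _ _ _ x => c.map_s (i + 1) _ x

theorem comp_add_left (b b' : Map G.U H) (a : Map X G) :
    comp (b + b') a = comp b a + comp b' a := rfl

theorem comp_ofHom (φ : GSp.Hom G H) (a : Map X G) : comp (ofHom φ) a = post φ a := rfl

theorem comp_assoc (c : Map H.U K) (b : Map G.U H) (a : Map X G) :
    comp c (comp b a) = comp (comp c b) a := rfl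

theorem comp_id (b : Map G.U H) : comp b (id G) = b := rfl

theorem id_comp (a : Map X G) : comp (id G) a = a := rfl

theorem null_zero : Null (0 : Map X G) := ⟨0, map_zero _⟩

theorem Null.add {a b : Map X G} (ha : Null a) (hb : Null b) : Null (a + b) := by
  obtain ⟨x, rfl⟩ := ha
  obtain ⟨y, rfl⟩ := hb
  exact ⟨x + y, map_add _ _ _⟩

theorem Null.neg {a : Map X G} (ha : Null a) : Null (-a) := by
  obtain ⟨x, rfl⟩ := ha
  exact ⟨-x, map_neg _ _⟩

/-- Maps into an acyclic group spectrum are nullhomotopic.  PROOF: `lift_abs` for `dP`, whose kernel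
`Ω G` is acyclic. -/
theorem null_of_acyclic (hG : G.Acyclic) (a : Map X G) : Null a :=
  lift_abs G.dP G.dP_surj (G.Om_acyclic hG) a

/-- Maps which factor through a levelwise smash product are nullhomotopic.  PROOF: `c` extends to
`F (X ∧ Y) → G` and `F (X ∧ Y)` is acyclic. -/
theorem null_of_smash (c : Map (X.smash Y) G) (f : PSp.Hom W X) (g : PSp.Hom W Y) :
    Null (pre (f.toSmash g) c) := by
  obtain ⟨b, hb⟩ := null_of_acyclic (smash_acyclic X Y) (X.smash Y).eta
  refine ⟨Map.pre (f.toSmash g) (Map.comp (mapP (ofHom c.ext')) b), ?_⟩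
  refine Map.ext2 fun q x => ?_
  have h1 : G.d 0 rfl (c.ext'.f (q + 1) (b.f q ((f.toSmash g).f q x))) =
      c.ext'.f q ((X.smash Y).F.d 0 rfl (b.f q ((f.toSmash g).f q x))) :=
    (c.ext'.map_d 0 rfl _).symm
  have h2 : (X.smash Y).F.d 0 rfl (b.f q ((f.toSmash g).f q x)) =
      (X.smash Y).eta.f q ((f.toSmash g).f q x) :=
    congrArg (fun m : Map (X.smash Y) (X.smash Y).F => m.f q ((f.toSmash g).f q x)) hb
  refine h1.trans ?_
  rw [h2]
  exact c.ext'_of q _

/-- The value of a map from a smash product on a pair. -/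
theorem ofSmash_nrm (φ : ∀ q, X.X q → Y.X q → G.G q)
    (hl : ∀ q y, φ q (X.pt q) y = 0) (hr : ∀ q x, φ q x (Y.pt q) = 0) (q : ℤ) (x : X.X q)
    (y : Y.X q) : φ q (nrm (X.pt q) (Y.pt q) x y).1.1 (nrm (X.pt q) (Y.pt q) x y).1.2 = φ q x y := by
  by_cases h : x = X.pt q ∨ y = Y.pt q
  · rcases h with rfl | rfl
    · rw [nrm_left, hl, hl]
    · rw [nrm_right, hr, hr]
  · unfold nrm
    rw [dif_neg h]

/-- Commutators are nullhomotopic.  PROOF: `null_of_smash` for `(x, y) ↦ x + y - x - y`. -/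
theorem null_comm (a b : Map X G) : Null (a + b + -a + -b) := by
  have hl : ∀ (q : ℤ) (y : G.G q), (0 : G.G q) + y + -0 + -y = 0 := fun q y => by
    rw [zero_add, neg_zero, add_zero, add_neg_cancel]
  have hr : ∀ (q : ℤ) (x : G.G q), x + (0 : G.G q) + -x + -0 = 0 := fun q x => by
    rw [add_zero, neg_zero, add_zero, add_neg_cancel]
  have h := null_of_smash (Map.ofSmash (X := G.U) (Y := G.U) (G := G)
    (fun q x y => x + y + -x + -y) hl hr
    (fun i q r h x y => by
      change G.d i h x + G.d i h y + -G.d i h x + -G.d i h y = G.d i h (x + y + -x + -y)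
      simp only [map_add, map_neg])
    (fun i q r h x y => by
      change G.s i h x + G.s i h y + -G.s i h x + -G.s i h y = G.s i h (x + y + -x + -y)
      simp only [map_add, map_neg])) a.toHom b.toHom
  refine (congrArg Null (Map.ext2 fun q x => ?_)).mp h
  exact ofSmash_nrm (X := G.U) (Y := G.U) (G := G) (fun q x y => x + y + -x + -y) hl hr q
    (a.f q x) (b.f q x)

/-- The nullhomotopic maps are closed under conjugation. -/
theorem Null.conj {a : Map X G} (ha : Null a) (b : Map X G) : Null (b + a + -b) := by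
  have h1 := (null_comm b a).add ha
  rwa [neg_add_cancel_right] at h1

/-- Set-level maps are additive up to homotopy.  PROOF: `null_of_smash` for
`(x, y) ↦ c (x + y) - c y - c x`. -/
theorem null_comp_add (c : Map G.U H) (a b : Map X G) :
    Null (comp c (a + b) + -comp c b + -comp c a) := by
  have h0 : ∀ q : ℤ, c.f q (0 : G.G q) = 0 := fun q => c.map_pt q
  have hl : ∀ (q : ℤ) (y : G.G q), c.f q ((0 : G.G q) + y) + -c.f q y + -c.f q (0 : G.G q) = 0 :=
    fun q y => by rw [zero_add, h0, neg_zero, add_zero, add_neg_cancel]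
  have hr : ∀ (q : ℤ) (x : G.G q), c.f q (x + (0 : G.G q)) + -c.f q (0 : G.G q) + -c.f q x = 0 :=
    fun q x => by rw [add_zero, h0, neg_zero, add_zero, add_neg_cancel]
  have hcd : ∀ (i : ℕ) {q r : ℤ} (h : q + 1 = r) (x : G.G r),
      c.f q (G.d i h x) = H.d i h (c.f r x) := fun i q r h x => c.map_d i h x
  have hcs : ∀ (i : ℕ) {q r : ℤ} (h : q + 1 = r) (x : G.G q),
      c.f r (G.s i h x) = H.s i h (c.f q x) := fun i q r h x => c.map_s i h x
  have h := null_of_smash (Map.ofSmash (X := G.U) (Y := G.U) (G := H)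
    (fun q x y => c.f q (x + y) + -c.f q y + -c.f q x) hl hr
    (fun i q r h x y => by
      change c.f q (G.d i h x + G.d i h y) + -c.f q (G.d i h y) + -c.f q (G.d i h x) =
        H.d i h (c.f r (x + y) + -c.f r y + -c.f r x)
      rw [← map_add (G.d i h), hcd, hcd, hcd, map_add, map_add, map_neg, map_neg])
    (fun i q r h x y => by
      change c.f r (G.s i h x + G.s i h y) + -c.f r (G.s i h y) + -c.f r (G.s i h x) =
        H.s i h (c.f q (x + y) + -c.f q y + -c.f q x)
      rw [← map_add (G.s i h), hcs, hcs, hcs, map_add, map_add, map_neg, map_neg]))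
    a.toHom b.toHom
  refine (congrArg Null (Map.ext2 fun q x => ?_)).mp h
  exact ofSmash_nrm (X := G.U) (Y := G.U) (G := H)
    (fun q x y => c.f q (x + y) + -c.f q y + -c.f q x) hl hr q (a.f q x) (b.f q x)

theorem Null.comp {a : Map X G} (ha : Null a) (c : Map G.U H) : Null (Map.comp c a) := by
  obtain ⟨x, rfl⟩ := ha
  exact ⟨Map.comp (mapP c) x, Map.ext2 fun q y => (c.map_d 0 rfl _).symm⟩

theorem Null.comp_left {c : Map G.U H} (hc : Null c) (a : Map X G) : Null (Map.comp c a) := by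
  obtain ⟨x, rfl⟩ := hc
  exact ⟨Map.comp x a, rfl⟩

theorem Null.post {a : Map X G} (ha : Null a) (φ : GSp.Hom G H) : Null (Map.post φ a) :=
  ha.comp (ofHom φ)

theorem Null.pre {a : Map X G} (ha : Null a) (φ : PSp.Hom Y X) : Null (Map.pre φ a) := by
  obtain ⟨x, rfl⟩ := ha
  exact ⟨Map.pre φ x, rfl⟩

/-- The subgroup of nullhomotopic maps. -/
def NSub (X : PSp) (G : GSp) : AddSubgroup (Map X G) where
  carrier := {a | Null a}
  zero_mem' := null_zero
  add_mem' := Null.add
  neg_mem' := Null.neg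

instance : (NSub X G).Normal := ⟨fun _ ha b => ha.conj b⟩

end Map

/-- Homotopy classes of maps. -/
def HC (X : PSp) (G : GSp) : Type := Map X G ⧸ Map.NSub X G

namespace HC

variable {X Y W : PSp} {G H K : GSp}

instance : AddGroup (HC X G) := inferInstanceAs (AddGroup (Map X G ⧸ Map.NSub X G))

/-- The class of a map. -/
def mk : Map X G →+ HC X G := QuotientAddGroup.mk' (Map.NSub X G)

theorem mk_surj : Function.Surjective (mk (X := X) (G := G)) := QuotientAddGroup.mk'_surjective _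

theorem mk_eq_zero {a : Map X G} : mk a = 0 ↔ a.Null :=
  QuotientAddGroup.eq_zero_iff a

theorem mk_eq {a b : Map X G} : mk a = mk b ↔ (a + -b).Null := by
  rw [← mk_eq_zero, map_add, map_neg, ← sub_eq_add_neg, sub_eq_zero]

instance : AddCommGroup (HC X G) :=
  { (inferInstance : AddGroup (HC X G)) with
    add_comm := fun x y => by
      obtain ⟨a, rfl⟩ := mk_surj x
      obtain ⟨b, rfl⟩ := mk_surj y
      have h := mk_eq_zero.mpr (Map.null_comm a b)
      rw [map_add, map_add, map_add, map_neg, map_neg] at h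
      have h2 : mk a + mk b + -mk a + -mk b = 0 := h
      rw [add_neg_eq_zero, add_neg_eq_iff_eq_add] at h2
      exact h2 }

/-- Composition with the class of a set-level map. -/
noncomputable def comp (c : Map G.U H) : HC X G →+ HC X H :=
  QuotientAddGroup.lift (Map.NSub X G)
    { toFun := fun a => mk (Map.comp c a)
      map_zero' := by
        rw [mk_eq_zero]; exact Map.null_zero.comp c
      map_add' := fun a b => by
        have h := mk_eq_zero.mpr (Map.null_comp_add c a b)
        rw [map_add, map_add, map_neg, map_neg, add_neg_eq_zero, add_neg_eq_iff_eq_add] at h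
        exact h }
    (fun a ha => mk_eq_zero.mpr (Map.Null.comp ha c))

@[simp] theorem comp_mk (c : Map G.U H) (a : Map X G) : comp c (mk a) = mk (Map.comp c a) := rfl

/-- Precomposition. -/
def pre (φ : PSp.Hom Y X) : HC X G →+ HC Y G :=
  QuotientAddGroup.map (Map.NSub X G) (Map.NSub Y G) (Map.pre φ) (fun _ ha => Map.Null.pre ha φ)

@[simp] theorem pre_mk (φ : PSp.Hom Y X) (a : Map X G) : pre φ (mk a) = mk (Map.pre φ a) := rfl

theorem comp_congr {c c' : Map G.U H} (h : mk c = mk c') :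
    (comp c : HC X G →+ HC X H) = comp c' := by
  ext x
  obtain ⟨a, rfl⟩ := mk_surj x
  rw [comp_mk, comp_mk, mk_eq]
  rw [mk_eq] at h
  exact h.comp_left a

theorem comp_comp (c : Map H.U K) (b : Map G.U H) (x : HC X G) :
    comp c (comp b x) = comp (Map.comp c b) x := by
  obtain ⟨a, rfl⟩ := mk_surj x
  rfl

theorem comp_add (c c' : Map G.U H) (x : HC X G) : comp (c + c') x = comp c x + comp c' x := by
  obtain ⟨a, rfl⟩ := mk_surj x
  rfl

/-- Acyclicity is transported along levelwise bijective homomorphisms. -/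
theorem acyclic_of_bij {K L : GSp} (e : GSp.Hom K L) (he : ∀ q, Function.Bijective (e.f q))
    (hK : K.Acyclic) : L.Acyclic := by
  intro q x hx
  obtain ⟨x', rfl⟩ := (he q).2 x
  have h1 : x' ∈ K.Z q := by
    intro i r h
    apply (he r).1
    rw [e.map_d, hx i h, map_zero]
  obtain ⟨y, hy, hy'⟩ := hK q x' h1
  refine ⟨e.f (q + 1) y, e.map_N hy, ?_⟩
  rw [← e.map_d, hy']

/-- The homomorphism of path spectra. -/
def homP (p : GSp.Hom G H) : GSp.Hom G.P H.P where
  f := fun q => p.f (q + 1)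
  map_d := fun i _ _ _ x => p.map_d (i + 1) _ x
  map_s := fun i _ _ _ x => p.map_s (i + 1) _ x

theorem homP_surj (p : GSp.Hom G H) (hp : p.Surj) : (homP p).Surj := fun q => hp (q + 1)

theorem homP_ker_acyclic (p : GSp.Hom G H) : (GSp.ker (homP p)).Acyclic :=
  acyclic_of_bij (K := (GSp.ker p).P) (L := GSp.ker (homP p))
    ⟨fun _ => AddMonoidHom.id _, fun _ _ _ _ _ => rfl, fun _ _ _ _ _ => rfl⟩
    (fun _ => Function.bijective_id) (GSp.P_acyclic _)

theorem post_homP (p : GSp.Hom G H) (b : Map X G.P) :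
    Map.post H.dP (Map.post (homP p) b) = Map.post p (Map.post G.dP b) :=
  Map.ext2 fun q x => (p.map_d 0 rfl (b.f q x)).symm

/-- A path over a given path with given end point. -/
def homQ (p : GSp.Hom G H) : GSp.Hom G.P (GSp.pb H.dP p) where
  f := fun q => ((p.f (q + 1)).prod (G.d 0 (rfl : q + 1 = q + 1))).codRestrict _
    (fun z => (p.map_d 0 rfl z).symm)
  map_d := fun i {_ _} h z => Subtype.ext (Prod.ext (p.map_d (i + 1) _ z) (G.dP.map_d i h z))
  map_s := fun i {_ _} h z => Subtype.ext (Prod.ext (p.map_s (i + 1) _ z) (G.dP.map_s i h z))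

theorem homQ_surj (p : GSp.Hom G H) (hp : p.Surj) : (homQ p).Surj := by
  rintro q ⟨⟨y, x⟩, hyx⟩
  have hyx' : H.d 0 rfl y = p.f q x := hyx
  obtain ⟨z, hz⟩ := hp (q + 1) y
  change p.f (q + 1) z = y at hz
  refine ⟨z + -(G.s 0 rfl (-x + G.d 0 rfl z)), Subtype.ext (Prod.ext ?_ ?_)⟩
  · change p.f (q + 1) (z + -(G.s 0 rfl (-x + G.d 0 rfl z))) = y
    rw [map_add, map_neg, p.map_s, map_add, map_neg, p.map_d, hz, hyx', neg_add_cancel, map_zero,
      neg_zero, add_zero]
  · change G.d 0 rfl (z + -(G.s 0 rfl (-x + G.d 0 rfl z))) = x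
    rw [map_add, map_neg, G.ds_eq, neg_add_rev, neg_neg, add_neg_cancel_left]

theorem homQ_ker_acyclic (p : GSp.Hom G H) (hK : (GSp.ker p).Acyclic) :
    (GSp.ker (homQ p)).Acyclic := by
  refine acyclic_of_bij (K := (GSp.ker p).Om) (L := GSp.ker (homQ p))
    ⟨fun q => (((GSp.kerIncl p).f (q + 1)).comp
        ((GSp.kerIncl (GSp.ker p).dP).f q : ((GSp.ker p).Om).G q →+ (GSp.ker p).G (q + 1))).codRestrict
        _ (fun z => ?_), fun i q r h z => rfl, fun i q r h z => rfl⟩
    (fun q => ⟨?_, ?_⟩) ((GSp.ker p).Om_acyclic hK)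
  · refine Subtype.ext (Prod.ext ?_ ?_)
    · exact z.1.2
    · exact congrArg Subtype.val z.2
  · intro z z' h
    have h1 : (z.1.1 : G.G (q + 1)) = z'.1.1 :=
      congrArg (fun v : ((homQ p).f q).ker => (v : G.P.G q)) h
    exact Subtype.ext (Subtype.ext h1)
  · rintro ⟨z, hz⟩
    have h1 : p.f (q + 1) z = 0 := congrArg (fun v : (GSp.pb H.dP p).G q => v.1.1) hz
    have h2 : G.d 0 rfl z = 0 := congrArg (fun v : (GSp.pb H.dP p).G q => v.1.2) hz
    exact ⟨⟨⟨z, h1⟩, Subtype.ext h2⟩, rfl⟩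

/-- **Surjective homomorphisms with acyclic kernel induce bijections.**  PROOF: surjective by
`lift_abs`.  Injective: if `p a = dP b` then `(b, a)` is a map to the pullback `PG ×_G E`; the
homomorphism `PE → PG ×_G E` is surjective with acyclic kernel `Ω (ker p)`, so it lifts. -/
theorem post_bijective (p : GSp.Hom G H) (hp : p.Surj) (hK : (GSp.ker p).Acyclic) :
    Function.Bijective (comp (Map.ofHom p) : HC X G →+ HC X H) := by
  constructor
  · rw [injective_iff_map_eq_zero]
    intro x hx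
    obtain ⟨a, rfl⟩ := mk_surj x
    rw [comp_mk, mk_eq_zero] at hx
    obtain ⟨b, hb⟩ := hx
    have hb' : ∀ q x, H.d 0 rfl (b.f q x) = p.f q (a.f q x) := fun q x =>
      congrArg (fun m : Map X H => m.f q x) hb
    let ba : Map X (GSp.pb H.dP p) :=
      { f := fun q x => ⟨(b.f q x, a.f q x), hb' q x⟩
        map_pt := fun q => Subtype.ext (Prod.ext (b.map_pt q) (a.map_pt q))
        map_d := fun i _ _ h x => Subtype.ext (Prod.ext (b.map_d i h x) (a.map_d i h x))
        map_s := fun i _ _ h x => Subtype.ext (Prod.ext (b.map_s i h x) (a.map_s i h x)) }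
    obtain ⟨h, hh⟩ := lift_abs (homQ p) (homQ_surj p hp) (homQ_ker_acyclic p hK) ba
    rw [mk_eq_zero]
    refine ⟨h, Map.ext2 fun q x => ?_⟩
    exact congrArg (fun m : Map X (GSp.pb H.dP p) => (m.f q x).1.2) hh
  · intro x
    obtain ⟨a, rfl⟩ := mk_surj x
    obtain ⟨h, hh⟩ := lift_abs p hp hK a
    refine ⟨mk h, ?_⟩
    rw [comp_mk, Map.comp_ofHom, hh]

/-- Homotopy lifting: if `p a` is homotopic to `g`, `p` surjective, then `a` is homotopic to a map
`a'` with `p a' = g`.  PROOF: lift the homotopy `X → PH` to `PG` (`PG → PH` is surjective with acyclic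
kernel `P (ker p)`). -/
theorem htp_lift (p : GSp.Hom G H) (hp : p.Surj) (a : Map X G) (g : Map X H)
    (h : mk (Map.post p a) = mk g) : ∃ a' : Map X G, mk a' = mk a ∧ Map.post p a' = g := by
  have h1 : (-(Map.post p a) + g).Null := by
    rw [← mk_eq_zero, map_add, map_neg, h, neg_add_cancel]
  obtain ⟨b, hb⟩ := h1
  obtain ⟨b', hb'⟩ := lift_abs (homP p) (homP_surj p hp) (homP_ker_acyclic p) b
  refine ⟨a + Map.post G.dP b', ?_, ?_⟩
  · have h2 : mk (Map.post G.dP b') = 0 := mk_eq_zero.mpr ⟨b', rfl⟩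
    rw [map_add, h2, add_zero]
  · rw [map_add, ← post_homP, hb', hb, add_neg_cancel_left]

/-- **Exactness**: if `p` is surjective and `p a` is nullhomotopic then `a` is homotopic to a map
into the kernel.  PROOF: lift the nullhomotopy `X → PH` to `PG` (`PG → PH` is surjective with acyclic
kernel `P (ker p)`). -/
theorem exact_ker (p : GSp.Hom G H) (hp : p.Surj) (a : Map X G) (ha : (Map.post p a).Null) :
    ∃ k : Map X (GSp.ker p), mk (Map.post (GSp.kerIncl p) k) = mk a := by
  obtain ⟨a', h1, h2⟩ := htp_lift p hp a 0 (by rw [mk_eq_zero.mpr ha, map_zero])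
  refine ⟨⟨fun q x => ⟨a'.f q x, congrArg (fun m : Map X H => m.f q x) h2⟩,
    fun q => Subtype.ext (a'.map_pt q), fun i _ _ h x => Subtype.ext (a'.map_d i h x),
    fun i _ _ h x => Subtype.ext (a'.map_s i h x)⟩, ?_⟩
  rw [← h1]
  rfl

/-- Exactness at the kernel: a map into the kernel which becomes nullhomotopic comes from
`Ω H`. -/
theorem exact_om (p : GSp.Hom G H) (k : Map X (GSp.ker p))
    (hk : (Map.post (GSp.kerIncl p) k).Null) :
    ∃ b : Map X G.P, Map.post G.dP b = Map.post (GSp.kerIncl p) k ∧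
      ∃ w : Map X H.Om, ∀ q x, ((w.f q x).1 : H.G (q + 1)) = p.f (q + 1) (b.f q x) := by
  obtain ⟨b, hb⟩ := hk
  refine ⟨b, hb, ?_⟩
  have hb' : ∀ q x, G.d 0 rfl (b.f q x) = (k.f q x).1 := fun q x =>
    congrArg (fun m : Map X G => m.f q x) hb
  have hw : ∀ q x, H.d 0 rfl (p.f (q + 1) (b.f q x)) = 0 := fun q x => by
    rw [← p.map_d, hb']
    exact (k.f q x).2
  exact ⟨⟨fun q x => ⟨p.f (q + 1) (b.f q x), hw q x⟩,
    fun q => Subtype.ext (by
      change p.f (q + 1) (b.f q (X.pt q)) = 0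
      rw [b.map_pt]
      exact map_zero _),
    fun i q r h x => Subtype.ext
      ((congrArg (p.f (q + 1)) (b.map_d i h x)).trans (p.map_d (i + 1) _ (b.f r x))),
    fun i q r h x => Subtype.ext
      ((congrArg (p.f (r + 1)) (b.map_s i h x)).trans (p.map_s (i + 1) _ (b.f q x)))⟩,
    fun q x => rfl⟩

/-- The trivial group spectrum. -/
def zeroG : GSp where
  G := fun _ => PUnit
  d := fun _ _ _ _ => 0
  s := fun _ _ _ _ => 0
  dd := fun _ _ _ _ _ _ _ => rfl
  ds_lt := fun _ _ _ _ _ _ _ => rfl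
  ds_eq := fun _ _ _ _ _ => rfl
  ds_succ := fun _ _ _ _ _ => rfl
  ds_gt := fun _ _ _ _ _ _ _ => rfl
  ss := fun _ _ _ _ _ _ _ => rfl
  fin := fun _ _ => ⟨0, fun _ _ => rfl⟩

/-- Homotopy extension (restriction to a sub-spectrum): if `a` restricted to `A` is nullhomotopic then
`a` is homotopic to a map which vanishes on `A`.  PROOF: `lift_rel` for `PG → 0`. -/
theorem hep (A : PSub X) (a : Map X G) (ha : (Map.pre A.incl a).Null) :
    ∃ a' : Map X G, mk a' = mk a ∧ ∀ q (x : X.X q), x ∈ A.S q → a'.f q x = 0 := by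
  obtain ⟨b, hb⟩ := ha
  let z : GSp.Hom G.P zeroG := ⟨fun _ => 0, fun _ _ _ _ _ => rfl, fun _ _ _ _ _ => rfl⟩
  have hz : z.Surj := fun q y => ⟨0, rfl⟩
  have hzK : (GSp.ker z).Acyclic := by
    refine acyclic_of_bij (K := G.P) (L := GSp.ker z)
      ⟨fun q => (AddMonoidHom.id _).codRestrict _ (fun _ => rfl), fun _ _ _ _ _ => rfl,
        fun _ _ _ _ _ => rfl⟩ (fun q => ⟨?_, ?_⟩) G.P_acyclic
    · intro x x' h
      exact congrArg Subtype.val h
    · rintro ⟨x, hx⟩
      exact ⟨x, rfl⟩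
  obtain ⟨h, -, hh⟩ := lift_rel z hz hzK A (0 : Map X zeroG) b (Map.ext2 fun _ _ => rfl)
  refine ⟨a + -(Map.post G.dP h), ?_, fun q x hx => ?_⟩
  · have h2 : mk (Map.post G.dP h) = 0 := mk_eq_zero.mpr ⟨h, rfl⟩
    rw [map_add, map_neg, h2, neg_zero, add_zero]
  · have h3 : h.f q x = b.f q ⟨x, hx⟩ :=
      congrArg (fun m : Map A.toPSp G.P => m.f q ⟨x, hx⟩) hh
    have h4 : G.d 0 rfl (b.f q ⟨x, hx⟩) = a.f q x :=
      congrArg (fun m : Map A.toPSp G => m.f q ⟨x, hx⟩) hb
    change a.f q x + -(G.d 0 rfl (h.f q x)) = 0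
    rw [h3, h4, add_neg_cancel]

end HC

end BPN
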