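import Pool.Agent.BPN.S.HC

/-!
# The counit `F (U G) → G` is a weak equivalence (project BPN, module S/KerEps)
-/

namespace BPN

open Classical

/-- **Group theory**: for a group `A` the kernel of `F(A) → A` (free group on the pointed set `A`) is
free on the elements `r(x, y) = [x] + [y] - [x + y]`, `x, y ≠ 0`.

`rel x y = [x] + [y] - [x + y]`. -/
noncomputable def rel {A : Type} [AddGroup A] (x y : A) : FrG A (0 : A) :=
  FrG.of 0 x + FrG.of 0 y + -FrG.of 0 (x + y)

/-- The homomorphism from the free group on `{(x, y) | x, y ≠ 0} ∪ {pt}` (normal forms, see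
`PSp.smash`) to the kernel of `F(A) → A`. -/
noncomputable def relHom (A : Type) [AddGroup A] :
    FrG {p : A × A // p.1 = 0 ↔ p.2 = 0} ⟨((0 : A), (0 : A)), by simp⟩ →+
      (FrG.lift (x₀ := (0 : A)) (fun x : A => x)).ker :=
  FrG.lift fun p => ⟨rel p.1.1 p.1.2, by
    have h := FrG.lift_of (x₀ := (0 : A)) (fun x : A => x) rfl
    rw [AddMonoidHom.mem_ker, rel, map_add, map_add, map_neg, h, h, h, add_neg_cancel]⟩

/-- The free group on the pairs. -/
abbrev KT (A : Type) [AddGroup A] : Type := FrG {p : A × A // p.1 = 0 ↔ p.2 = 0} ⟨((0 : A), (0 : A)), by simp⟩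

/-- The bijection `(w, a) ↦ (w + [(a, y)], a + y)` of `F(T) × A`. -/
noncomputable def kperm {A : Type} [AddGroup A] (y : A) :
    Equiv.Perm (KT A × A) where
  toFun := fun s => (s.1 + FrG.of _ (nrm 0 0 s.2 y), s.2 + y)
  invFun := fun s => (s.1 + -FrG.of _ (nrm 0 0 (s.2 + -y) y), s.2 + -y)
  left_inv := fun s => by
    refine Prod.ext ?_ ?_
    · show s.1 + FrG.of _ (nrm 0 0 s.2 y) + -FrG.of _ (nrm 0 0 (s.2 + y + -y) y) = s.1
      rw [add_neg_cancel_right, add_neg_cancel_right]
    · show s.2 + y + -y = s.2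
      rw [add_neg_cancel_right]
  right_inv := fun s => by
    refine Prod.ext ?_ ?_
    · show s.1 + -FrG.of _ (nrm 0 0 (s.2 + -y) y) + FrG.of _ (nrm 0 0 (s.2 + -y) y) = s.1
      rw [neg_add_cancel_right]
    · show s.2 + -y + y = s.2
      rw [neg_add_cancel_right]

theorem kperm_zero {A : Type} [AddGroup A] : kperm (0 : A) = 1 := by
  refine Equiv.ext fun s => Prod.ext ?_ ?_
  · show s.1 + FrG.of _ (nrm 0 0 s.2 0) = s.1
    rw [nrm_right, FrG.of_pt, add_zero]
  · show s.2 + 0 = s.2
    rw [add_zero]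

/-- The right action of `F(A)` on `F(T) × A`. -/
noncomputable def kact (A : Type) [AddGroup A] : FrG A (0 : A) →+
    Additive (Equiv.Perm
      (KT A × A))ᵐᵒᵖ :=
  FrG.lift (fun y => Additive.ofMul (MulOpposite.op (kperm y)))

/-- The right action of `F(A)` on `F(T) × A`, as a permutation. -/
noncomputable def kapp {A : Type} [AddGroup A] (u : FrG A (0 : A)) :
    Equiv.Perm (KT A × A) :=
  MulOpposite.unop (Additive.toMul (kact A u))

theorem kapp_add {A : Type} [AddGroup A] (u v : FrG A (0 : A)) :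
    kapp (u + v) = kapp v * kapp u := by
  unfold kapp
  rw [map_add]
  rfl

theorem kapp_neg {A : Type} [AddGroup A] (u : FrG A (0 : A)) :
    kapp (-u) = (kapp u)⁻¹ := by
  unfold kapp
  rw [map_neg]
  rfl

theorem kapp_zero {A : Type} [AddGroup A] : kapp (0 : FrG A (0 : A)) = 1 := by
  unfold kapp
  rw [map_zero]
  rfl

theorem kapp_of {A : Type} [AddGroup A] (y : A) : kapp (FrG.of (0 : A) y) = kperm y := by
  unfold kapp kact
  rw [FrG.lift_of]
  · rfl
  · rw [kperm_zero]
    rfl

theorem kapp_rel {A : Type} [AddGroup A] (x y : A)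
    (w : KT A) :
    kapp (rel x y) (w, 0) = (w + FrG.of _ (nrm 0 0 x y), 0) := by
  unfold rel
  rw [kapp_add, kapp_add, kapp_neg, kapp_of, kapp_of, kapp_of, Equiv.Perm.mul_apply,
    Equiv.Perm.mul_apply, Equiv.Perm.inv_eq_iff_eq]
  refine Prod.ext ?_ ?_
  · show w + FrG.of _ (nrm 0 0 0 x) + FrG.of _ (nrm 0 0 (0 + x) y) =
      w + FrG.of _ (nrm 0 0 x y) + FrG.of _ (nrm 0 0 0 (x + y))
    rw [nrm_left, nrm_left, FrG.of_pt, add_zero, add_zero, zero_add]
  · show 0 + x + y = 0 + (x + y)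
    rw [zero_add, zero_add]

theorem rel_zero_left {A : Type} [AddGroup A] (y : A) : rel (0 : A) y = 0 := by
  unfold rel
  rw [FrG.of_pt, zero_add, zero_add, add_neg_cancel]

theorem rel_zero_right {A : Type} [AddGroup A] (x : A) : rel x (0 : A) = 0 := by
  unfold rel
  rw [FrG.of_pt, add_zero, add_zero, add_neg_cancel]

theorem relHom_of {A : Type} [AddGroup A] (p : {p : A × A // p.1 = 0 ↔ p.2 = 0}) :
    (relHom A (FrG.of _ p)).1 = rel p.1.1 p.1.2 := by
  unfold relHom
  rw [FrG.lift_of]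
  exact Subtype.ext (rel_zero_left 0)

theorem relHom_nrm {A : Type} [AddGroup A] (x y : A) :
    (relHom A (FrG.of _ (nrm 0 0 x y))).1 = rel x y := by
  rw [relHom_of]
  by_cases h : x = 0 ∨ y = 0
  · rcases h with rfl | rfl
    · rw [nrm_left, rel_zero_left, rel_zero_left]
    · rw [nrm_right, rel_zero_right, rel_zero_right]
  · unfold nrm
    rw [dif_neg h]

theorem kapp_relHom {A : Type} [AddGroup A]
    (z : KT A) :
    ∀ w : KT A,
      kapp (relHom A z).1 (w, 0) = (w + z, 0) := by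
  induction z using FrG.induction_on with
  | h0 =>
    intro w
    rw [map_zero]
    show kapp 0 (w, 0) = _
    rw [kapp_zero, add_zero]
    rfl
  | hof p =>
    intro w
    rw [relHom_of, kapp_rel, nrm_self]
  | hneg p hp =>
    intro w
    rw [map_neg]
    show kapp (-(relHom A (FrG.of _ p)).1) (w, 0) = _
    rw [kapp_neg, Equiv.Perm.inv_eq_iff_eq, hp, neg_add_cancel_right]
  | hadd y z hy hz =>
    intro w
    rw [map_add]
    show kapp ((relHom A y).1 + (relHom A z).1) (w, 0) = _
    rw [kapp_add, Equiv.Perm.mul_apply, hy, hz, add_assoc]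

theorem relHom_dec {A : Type} [AddGroup A] (v : FrG A (0 : A)) :
    ∀ u : FrG A (0 : A), (∃ w, u = (relHom A w).1 + FrG.of 0 (FrG.lift (fun x : A => x) u)) →
      ∃ w, u + v = (relHom A w).1 + FrG.of 0 (FrG.lift (fun x : A => x) (u + v)) := by
  induction v using FrG.induction_on with
  | h0 =>
    intro u hu
    rwa [add_zero]
  | hof y =>
    rintro u ⟨w, hw⟩
    refine ⟨w + FrG.of _ (nrm 0 0 (FrG.lift (fun x : A => x) u) y), ?_⟩
    rw [map_add, map_add, FrG.lift_of (fun x : A => x) rfl]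
    show _ = (relHom A w).1 + (relHom A (FrG.of _ (nrm 0 0 _ y))).1 + _
    rw [relHom_nrm, rel]
    conv_lhs => rw [hw]
    simp only [add_assoc, neg_add_cancel, add_zero]
  | hneg y _ =>
    rintro u ⟨w, hw⟩
    refine ⟨w + -FrG.of _ (nrm 0 0 (FrG.lift (fun x : A => x) u + -y) y), ?_⟩
    rw [map_add, map_neg, map_add, map_neg, FrG.lift_of (fun x : A => x) rfl]
    show _ = (relHom A w).1 + -(relHom A (FrG.of _ (nrm 0 0 _ y))).1 + _
    rw [relHom_nrm, rel]
    conv_lhs => rw [hw]
    simp only [neg_add_rev, neg_neg, add_assoc, neg_add_cancel, add_zero]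
  | hadd y z hy hz =>
    intro u hu
    rw [← add_assoc]
    exact hz _ (hy u hu)

/-- PROOF: let `T` be the set of pairs.  Surjective: by induction on words every element of `F(A)` is
of the form `[x] + k` resp. `k + [x]` with `k` in the subgroup generated by the `rel`.
Injective: `F(A)` acts on the set `F(T) × A` from the right by
`(w, a) · [y] = (w + [(a, y)], a + y)` (with `[(a, y)] = 0` if `a = 0` or `y = 0`; this is a bijection of
`F(T) × A`); the element `rel x y` sends `(w, 0)` to `(w + [(x, y)], 0)`: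
`(w,0)·[x] = (w, x)`, `·[y] = (w + [(x,y)], x + y)`, `·[x+y]⁻¹ = (w + [(x,y)], 0)`.  Hence
`(0,0)·relHom(w) = (w, 0)`. -/
theorem relHom_bijective (A : Type) [AddGroup A] : Function.Bijective (relHom A) := by
  constructor
  · intro z z' h
    have h1 := kapp_relHom z 0
    have h2 := kapp_relHom z' 0
    rw [h, h2] at h1
    have h3 := congrArg Prod.fst h1
    rw [zero_add, zero_add] at h3
    exact h3.symm
  · rintro ⟨k, hk⟩
    obtain ⟨w, hw⟩ := relHom_dec k 0 ⟨0, by rw [map_zero, map_zero, FrG.of_pt]; rfl⟩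
    rw [zero_add] at hw
    rw [AddMonoidHom.mem_ker] at hk
    refine ⟨w, Subtype.ext ?_⟩
    rw [hk, FrG.of_pt, add_zero] at hw
    exact hw.symm

namespace GSp

theorem eps_surj (G : GSp) : G.eps.Surj := fun q x =>
  ⟨FrG.of 0 x, FrG.lift_of (x₀ := (0 : G.G q)) (fun x => x) rfl x⟩

/-- **The kernel of `F (U G) → G` is acyclic.**  PROOF: by `relHom_bijective` it is isomorphic to
`F (U G ∧ U G)` (naturality of `rel` in `A`), which is acyclic by `smash_acyclic`. -/
theorem ker_eps_acyclic (G : GSp) : (ker G.eps).Acyclic := by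
  have hgen : ∀ (q r : ℤ) (φ : G.G r →+ G.G q)
      (z : FrG {p : G.G r × G.G r // p.1 = 0 ↔ p.2 = 0} ⟨((0 : G.G r), (0 : G.G r)), by simp⟩),
      (relHom (G.G q) (FrG.map (fun p => nrm 0 0 (φ p.1.1) (φ p.1.2)) z)).1 =
        FrG.map (x₀ := (0 : G.G r)) (y₀ := (0 : G.G q)) φ (relHom (G.G r) z).1 := by
    intro q r φ z
    refine DFunLike.congr_fun
      (f := ((AddSubgroup.subtype _).comp (relHom (G.G q))).comp
        (FrG.map (fun p => nrm 0 0 (φ p.1.1) (φ p.1.2))))
      (g := (FrG.map (x₀ := (0 : G.G r)) (y₀ := (0 : G.G q)) φ).comp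
        ((AddSubgroup.subtype _).comp (relHom (G.G r)))) (FrG.hom_ext fun p => ?_) z
    show (relHom (G.G q) (FrG.map (fun p => nrm 0 0 (φ p.1.1) (φ p.1.2)) (FrG.of _ p))).1 =
      FrG.map (x₀ := (0 : G.G r)) (y₀ := (0 : G.G q)) φ (relHom (G.G r) (FrG.of _ p)).1
    rw [FrG.map_of _ (by rw [map_zero, nrm_left]), relHom_nrm, relHom_of, rel, rel, map_add,
      map_add, map_neg, FrG.map_of _ (map_zero φ), FrG.map_of _ (map_zero φ),
      FrG.map_of _ (map_zero φ), map_add]
  refine HC.acyclic_of_bij (K := (G.U.smash G.U).F) (L := ker G.eps)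
    ⟨fun q => relHom (G.G q), fun i q r h z => ?_, fun i q r h z => ?_⟩
    (fun q => relHom_bijective (G.G q)) (smash_acyclic G.U G.U)
  · exact Subtype.ext (hgen q r (G.d i h) z)
  · exact Subtype.ext (hgen r q (G.s i h) z)

end GSp

end BPN
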