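import Pool.Agent.BPN.S.Ext

/-!
# The lifting theorem (project BPN, module S/Lift)
-/

namespace BPN

/-- Sub-spectra of a pointed-set spectrum. -/
structure PSub (X : PSp) where
  S : ∀ q, Set (X.X q)
  pt_mem : ∀ q, X.pt q ∈ S q
  d_mem : ∀ (i : ℕ) {q r : ℤ} (h : q + 1 = r) (x : X.X r), x ∈ S r → X.d i h x ∈ S q
  s_mem : ∀ (i : ℕ) {q r : ℤ} (h : q + 1 = r) (x : X.X q), x ∈ S q → X.s i h x ∈ S r

/-- A sub-spectrum as a spectrum. -/
def PSub.toPSp {X : PSp} (A : PSub X) : PSp where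
  X := fun q => A.S q
  pt := fun q => ⟨X.pt q, A.pt_mem q⟩
  d := fun i _ _ h x => ⟨X.d i h x.1, A.d_mem i h x.1 x.2⟩
  s := fun i _ _ h x => ⟨X.s i h x.1, A.s_mem i h x.1 x.2⟩
  d_pt := fun i _ _ h => Subtype.ext (X.d_pt i h)
  s_pt := fun i _ _ h => Subtype.ext (X.s_pt i h)
  dd := fun hij _ _ _ h₁ h₂ x => Subtype.ext (X.dd hij h₁ h₂ x.1)
  ds_lt := fun hij _ _ _ h₁ h₂ x => Subtype.ext (X.ds_lt hij h₁ h₂ x.1)
  ds_eq := fun i _ _ h x => Subtype.ext (X.ds_eq i h x.1)
  ds_succ := fun i _ _ h x => Subtype.ext (X.ds_succ i h x.1)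
  ds_gt := fun hij _ _ _ h₁ h₂ x => Subtype.ext (X.ds_gt hij h₁ h₂ x.1)
  ss := fun hij _ _ _ h₁ h₂ x => Subtype.ext (X.ss hij h₁ h₂ x.1)
  fin := fun {q r} h x => by
    obtain ⟨n, hn⟩ := X.fin h x.1
    exact ⟨n, fun i hi => Subtype.ext (hn i hi)⟩

/-- The inclusion of a sub-spectrum. -/
def PSub.incl {X : PSp} (A : PSub X) : PSp.Hom A.toPSp X where
  f := fun _ x => x.1
  map_pt := fun _ => rfl
  map_d := fun _ _ _ _ _ => rfl
  map_s := fun _ _ _ _ _ => rfl

/-- The trivial sub-spectrum. -/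
def PSub.bot (X : PSp) : PSub X where
  S := fun q => {X.pt q}
  pt_mem := fun _ => rfl
  d_mem := fun i _ _ h x hx => by rw [Set.mem_singleton_iff] at hx ⊢; rw [hx, X.d_pt]
  s_mem := fun i _ _ h x hx => by rw [Set.mem_singleton_iff] at hx ⊢; rw [hx, X.s_pt]

/-- `h` is a lift of `f` along `p` in degrees `≤ m`, extending the lift `hA` on `A`. -/
structure PLift {X : PSp} {E G : GSp} (p : GSp.Hom E G) (f : Map X G) (A : PSub X)
    (hA : Map A.toPSp E) (m : ℤ) (h : ∀ q, X.X q → E.G q) : Prop where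
  lift : ∀ q, q ≤ m → ∀ x, p.f q (h q x) = f.f q x
  pt : ∀ q, q ≤ m → h q (X.pt q) = 0
  map_d : ∀ (i : ℕ) {q r : ℤ} (e : q + 1 = r) (x : X.X r), r ≤ m →
    h q (X.d i e x) = E.d i e (h r x)
  map_s : ∀ (i : ℕ) {q r : ℤ} (e : q + 1 = r) (x : X.X q), r ≤ m →
    h r (X.s i e x) = E.s i e (h q x)
  ext : ∀ q, q ≤ m → ∀ x : A.toPSp.X q, h q x.1 = hA.f q x

/-- two degeneracies with the same value -/
theorem PSp.s_eq_s {X : PSp} {l m m' : ℤ} (hl : l + 1 = m) (hm : m + 1 = m') {i j : ℕ}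
    (hij : i ≤ j) (z z' : X.X m) (e : X.s i hm z = X.s (j + 1) hm z') :
    z = X.s j hl (X.d i hl z') ∧ z' = X.s i hl (X.d i hl z') := by
  have h1 : z = X.s j hl (X.d i hl z') := by
    rw [← X.ds_lt hij hl hm, ← e, X.ds_eq]
  refine ⟨h1, ?_⟩
  have h2 : X.d (j + 1 + 1) hm (X.s i hm z) = X.s i hl (X.d (j + 1) hl z) :=
    X.ds_gt (Nat.lt_succ_of_le hij) hl hm z
  have h3 : X.d (j + 1) hl z = X.d i hl z' := by
    have h4 := congrArg (X.d (j + 1) hl) h1
    rw [h4, X.ds_succ]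
  rw [e, X.ds_succ, h3] at h2
  exact h2

/-- existence of the value of the lift on one simplex -/
theorem PLift.val {X : PSp} {E G : GSp} {p : GSp.Hom E G} (hp : p.Surj) {f : Map X G}
    {A : PSub X} {hA : Map A.toPSp E} (hfA : Map.post p hA = Map.pre A.incl f) {m m' : ℤ}
    (hm : m + 1 = m') (hK : (GSp.ker p).Vanish m) {h : ∀ q, X.X q → E.G q}
    (hh : PLift p f A hA m h) (x : X.X m') :
    ∃ y : E.G m', p.f m' y = f.f m' x ∧ (∀ i, E.d i hm y = h m (X.d i hm x)) ∧
      (∀ i z, x = X.s i hm z → y = E.s i hm (h m z)) ∧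
      (∀ hx : x ∈ A.S m', y = hA.f m' ⟨x, hx⟩) := by
  obtain ⟨l, hl⟩ : ∃ l, l + 1 = m := ⟨m - 1, by omega⟩
  by_cases hx : x ∈ A.S m'
  · refine ⟨hA.f m' ⟨x, hx⟩, ?_, ?_, ?_, fun _ => rfl⟩
    · have h1 := congrArg (fun (g : Map A.toPSp G) => g.f m' ⟨x, hx⟩) hfA
      exact h1
    · intro i
      have h1 := hA.map_d i hm ⟨x, hx⟩
      have h2 := hh.ext m le_rfl (A.toPSp.d i hm ⟨x, hx⟩)
      rw [← h1]
      exact h2.symm
    · intro i z hz
      subst hz
      have hz : z ∈ A.S m := by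
        have h1 := A.d_mem i hm _ hx
        rwa [X.ds_eq] at h1
      have h1 := hA.map_s i hm ⟨z, hz⟩
      have h2 : h m z = hA.f m ⟨z, hz⟩ := hh.ext m le_rfl ⟨z, hz⟩
      rw [h2, ← h1]
      rfl
  · by_cases hdeg : ∃ i z, x = X.s i hm z
    · obtain ⟨i, z, rfl⟩ := hdeg
      refine ⟨E.s i hm (h m z), ?_, ?_, ?_, fun hx' => absurd hx' hx⟩
      · rw [p.map_s, hh.lift m le_rfl, f.map_s]
      · intro j
        rcases lt_trichotomy j i with hji | hji | hji
        · obtain ⟨i', rfl⟩ : ∃ i', i = i' + 1 := ⟨i - 1, by omega⟩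
          rw [E.ds_lt (by omega) hl hm, X.ds_lt (by omega) hl hm, hh.map_s _ hl _ le_rfl,
            hh.map_d _ hl _ le_rfl]
        · subst hji
          rw [E.ds_eq, X.ds_eq]
        · rcases eq_or_lt_of_le (Nat.succ_le_of_lt hji) with h1 | h1
          · subst h1
            rw [Nat.succ_eq_add_one, E.ds_succ, X.ds_succ]
          · obtain ⟨j', rfl⟩ : ∃ j', j = j' + 1 := ⟨j - 1, by omega⟩
            rw [E.ds_gt (by omega) hl hm, X.ds_gt (by omega) hl hm, hh.map_s _ hl _ le_rfl,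
              hh.map_d _ hl _ le_rfl]
      · have key : ∀ {a b : ℕ}, a ≤ b → ∀ u u' : X.X m, X.s a hm u = X.s (b + 1) hm u' →
            E.s a hm (h m u) = E.s (b + 1) hm (h m u') := by
          intro a b hab u u' e
          obtain ⟨h1, h2⟩ := PSp.s_eq_s hl hm hab u u' e
          obtain ⟨c, hc⟩ : ∃ c, c = X.d a hl u' := ⟨_, rfl⟩
          rw [← hc] at h1 h2
          rw [h1, h2, hh.map_s _ hl _ le_rfl, hh.map_s _ hl _ le_rfl, E.ss hab]
        intro j z' hz'
        rcases lt_trichotomy j i with hji | hji | hji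
        · obtain ⟨i', rfl⟩ : ∃ i', i = i' + 1 := ⟨i - 1, by omega⟩
          exact (key (by omega) _ _ hz'.symm).symm
        · subst hji
          have h1 := congrArg (X.d j hm) hz'
          rw [X.ds_eq, X.ds_eq] at h1
          rw [h1]
        · obtain ⟨j', rfl⟩ : ∃ j', j = j' + 1 := ⟨j - 1, by omega⟩
          exact key (by omega) _ _ hz'
    · obtain ⟨n, hn⟩ := X.fin hm x
      obtain ⟨y, hy1, hy2⟩ := GSp.ext_fill p hp hm hK (f.f m' x) (fun i => h m (X.d i hm x)) n
        (fun i hi => by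
          show h m (X.d i hm x) = 0
          rw [hn i hi, hh.pt m le_rfl])
        (fun {i j} hij {t} h₂ => by
          show E.d i h₂ (h m (X.d (j + 1) hm x)) = E.d j h₂ (h m (X.d i hm x))
          rw [← hh.map_d _ h₂ _ le_rfl, ← hh.map_d _ h₂ _ le_rfl, X.dd hij])
        (fun i => by
          show p.f m (h m (X.d i hm x)) = G.d i hm (f.f m' x)
          rw [hh.lift m le_rfl, f.map_d])
      exact ⟨y, hy1, hy2, fun i z hz => absurd ⟨i, z, hz⟩ hdeg, fun hx' => absurd hx' hx⟩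

/-- One step.  PROOF: in degree `m + 1` define `h'` on `x` as follows: if `x ∈ A` use `hA`; if `x` is
degenerate, `x = s_i y`, put `s_i (h y)`; this does not depend on the choice: if `s_i y = s_j y'` with
`i < j` then `y = s_{j-1} c`, `y' = s_i c` with `c = d_i y'`; and `s_i y ∈ A` implies `y = d_i s_i y ∈ A`;
otherwise use `GSp.ext_fill` with the faces `h (d_i x)`.  Then check the conditions
(`Function.update`). -/
theorem PLift.step {X : PSp} {E G : GSp} {p : GSp.Hom E G} (hp : p.Surj) {f : Map X G}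
    {A : PSub X} {hA : Map A.toPSp E} (hfA : Map.post p hA = Map.pre A.incl f) {m m' : ℤ}
    (hm : m + 1 = m') (hK : (GSp.ker p).Vanish m) {h : ∀ q, X.X q → E.G q}
    (hh : PLift p f A hA m h) :
    ∃ h' : ∀ q, X.X q → E.G q, PLift p f A hA m' h' ∧ ∀ q, q ≤ m → h' q = h q := by
  choose g hg1 hg2 hg3 hg4 using fun x => PLift.val hp hfA hm hK hh x
  have hu : ∀ q, q ≤ m → Function.update h m' g q = h q := fun q hq =>
    Function.update_of_ne (by omega) _ _
  have hum : Function.update h m' g m' = g := Function.update_self _ _ _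
  refine ⟨Function.update h m' g, ⟨?_, ?_, ?_, ?_, ?_⟩, hu⟩
  · intro q hq x
    rcases eq_or_lt_of_le hq with rfl | hq'
    · rw [hum]
      exact hg1 x
    · rw [hu q (by omega)]
      exact hh.lift q (by omega) x
  · intro q hq
    rcases eq_or_lt_of_le hq with rfl | hq'
    · rw [hum, hg3 _ 0 (X.pt m) (X.s_pt 0 hm).symm, hh.pt m le_rfl, map_zero]
    · rw [hu q (by omega)]
      exact hh.pt q (by omega)
  · intro i q r e x hr
    rcases eq_or_lt_of_le hr with rfl | hr'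
    · obtain rfl : q = m := by omega
      rw [hum, hu q le_rfl]
      exact (hg2 x i).symm
    · rw [hu q (by omega), hu r (by omega)]
      exact hh.map_d i e x (by omega)
  · intro i q r e x hr
    rcases eq_or_lt_of_le hr with rfl | hr'
    · obtain rfl : q = m := by omega
      rw [hum, hu q le_rfl]
      exact hg3 _ i x rfl
    · rw [hu q (by omega), hu r (by omega)]
      exact hh.map_s i e x (by omega)
  · intro q hq x
    rcases eq_or_lt_of_le hq with rfl | hq'
    · rw [hum]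
      exact hg4 x.1 x.2
    · rw [hu q (by omega)]
      exact hh.ext q (by omega) x

/-- A lift in degrees `≤ m` extends to a lift if `π_q (ker p) = 0` for `q ≥ m`. -/
theorem PLift.extend {X : PSp} {E G : GSp} {p : GSp.Hom E G} (hp : p.Surj) {f : Map X G}
    {A : PSub X} {hA : Map A.toPSp E} (hfA : Map.post p hA = Map.pre A.incl f) {m : ℤ}
    (hK : ∀ q, m ≤ q → (GSp.ker p).Vanish q) {h : ∀ q, X.X q → E.G q}
    (hh : PLift p f A hA m h) :
    ∃ h' : Map X E, Map.post p h' = f ∧ Map.pre A.incl h' = hA ∧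
      ∀ q, q ≤ m → ∀ x, h'.f q x = h q x := by
  have hst : ∀ (k : ℕ) (g : {g : ∀ q, X.X q → E.G q // PLift p f A hA (m + k) g}),
      ∃ g' : {g : ∀ q, X.X q → E.G q // PLift p f A hA (m + (k + 1 : ℕ)) g},
        ∀ q, q ≤ m + k → g'.1 q = g.1 q := by
    intro k g
    obtain ⟨g', h1, h2⟩ := PLift.step hp hfA (m := m + k) (m' := m + (k + 1 : ℕ))
      (by push_cast; ring) (hK _ (by omega)) g.2
    exact ⟨⟨g', h1⟩, h2⟩
  choose F hF using hst
  let H : ∀ k : ℕ, {g : ∀ q, X.X q → E.G q // PLift p f A hA (m + k) g} := fun k =>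
    Nat.rec ⟨h, by simpa using hh⟩ (fun k g => F k g) k
  have hH : ∀ k, H (k + 1) = F k (H k) := fun k => rfl
  have hst : ∀ k l : ℕ, k ≤ l → ∀ q, q ≤ m + k → (H l).1 q = (H k).1 q := by
    intro k l hkl
    induction l, hkl using Nat.le_induction with
    | base => intro q _; rfl
    | succ l hl ih =>
      intro q hq
      rw [hH, hF l (H l) q (by omega)]
      exact ih q hq
  let h' : ∀ q, X.X q → E.G q := fun q => (H (q - m).toNat).1 q
  have hh' : ∀ (k : ℕ) q, q ≤ m + k → h' q = (H k).1 q := by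
    intro k q hq
    exact (hst (q - m).toNat k (by omega) q (by omega)).symm
  have hk : ∀ q : ℤ, ∃ k : ℕ, q ≤ m + k := fun q => ⟨(q - m).toNat, by omega⟩
  refine ⟨⟨h', ?_, ?_, ?_⟩, ?_, ?_, ?_⟩
  · intro q
    obtain ⟨k, hk⟩ := hk q
    rw [hh' k q hk]
    exact (H k).2.pt q hk
  · intro i q r e x
    obtain ⟨k, hk⟩ := hk r
    rw [hh' k r hk, hh' k q (by omega)]
    exact (H k).2.map_d i e x hk
  · intro i q r e x
    obtain ⟨k, hk⟩ := hk r
    rw [hh' k r hk, hh' k q (by omega)]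
    exact (H k).2.map_s i e x hk
  · refine Map.ext2 fun q x => ?_
    obtain ⟨k, hk⟩ := hk q
    show p.f q (h' q x) = f.f q x
    rw [hh' k q hk]
    exact (H k).2.lift q hk x
  · refine Map.ext2 fun q x => ?_
    obtain ⟨k, hk⟩ := hk q
    show h' q x.1 = hA.f q x
    rw [hh' k q hk]
    exact (H k).2.ext q hk x
  · intro q hq x
    show h' q x = h q x
    rw [hh' 0 q (by simpa using hq)]
    rfl

/-- iterated faces -/
inductive IFace (X : PSp) {q : ℤ} (x : X.X q) : ∀ {r : ℤ}, X.X r → Prop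
  | refl : IFace X x x
  | step {r t : ℤ} (y : X.X r) (i : ℕ) (h : t + 1 = r) : IFace X x y → IFace X x (X.d i h y)

theorem IFace.trans {X : PSp} {q r t : ℤ} {x : X.X q} {y : X.X r} {z : X.X t}
    (h1 : IFace X x y) (h2 : IFace X y z) : IFace X x z := by
  induction h2 with
  | refl => exact h1
  | step y i h _ ih => exact IFace.step _ _ _ ih

theorem IFace.le {X : PSp} {q r : ℤ} {x : X.X q} {y : X.X r} (h : IFace X x y) : r ≤ q := by
  induction h with
  | refl => exact le_rfl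
  | step y i h _ ih => omega

theorem IFace.of_pt {X : PSp} {q r : ℤ} {x : X.X q} {y : X.X r} (h : IFace X x y)
    (hx : x = X.pt q) : y = X.pt r := by
  induction h with
  | refl => exact hx
  | step y i h _ ih => rw [ih, X.d_pt]

theorem IFace.of_s {X : PSp} {q q' r : ℤ} {x' : X.X q'} {y : X.X r} (h : IFace X x' y)
    (e : q + 1 = q') (x : X.X q) (i : ℕ) (hx : x' = X.s i e x) :
    IFace X x y ∨ ∃ (t : ℤ) (e' : t + 1 = r) (j : ℕ) (z : X.X t), IFace X x z ∧ y = X.s j e' z := by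
  induction h with
  | refl => exact Or.inr ⟨_, e, i, x, IFace.refl, hx⟩
  | @step r t y k h _ ih =>
    rcases ih with h1 | ⟨t', e', j, z, h1, rfl⟩
    · exact Or.inl (IFace.step _ _ _ h1)
    · obtain rfl : t' = t := by omega
      obtain ⟨l, hl⟩ : ∃ l, l + 1 = t' := ⟨t' - 1, by omega⟩
      rcases lt_trichotomy k j with hkj | hkj | hkj
      · obtain ⟨j', rfl⟩ : ∃ j', j = j' + 1 := ⟨j - 1, by omega⟩
        rw [X.ds_lt (by omega) hl h]
        exact Or.inr ⟨l, hl, j', _, IFace.step _ _ _ h1, rfl⟩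
      · subst hkj
        rw [X.ds_eq]
        exact Or.inl h1
      · rcases eq_or_lt_of_le (Nat.succ_le_of_lt hkj) with h2 | h2
        · subst h2
          rw [Nat.succ_eq_add_one, X.ds_succ]
          exact Or.inl h1
        · obtain ⟨k', rfl⟩ : ∃ k', k = k' + 1 := ⟨k - 1, by omega⟩
          rw [X.ds_gt (by omega) hl h]
          exact Or.inr ⟨l, hl, j, _, IFace.step _ _ _ h1, rfl⟩

/-- iterated faces of high order are trivial -/
theorem IFace.triv {X : PSp} {q r : ℤ} {x : X.X q} {y : X.X r} (h : IFace X x y) (n : ℕ)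
    (hx : ∀ i, n ≤ i → ∀ {t : ℤ} (e : t + 1 = q), X.d i e x = X.pt t) :
    (∀ i, n - (q - r).toNat ≤ i → ∀ {t : ℤ} (e : t + 1 = r), X.d i e y = X.pt t) ∧
      (r < q - n → y = X.pt r) := by
  induction h with
  | refl =>
    refine ⟨fun i hi t e => hx i (by omega) e, fun h => by omega⟩
  | @step r t y k h h0 ih =>
    obtain ⟨h1, h2⟩ := ih
    have hle := h0.le
    rcases Nat.eq_zero_or_pos (n - (q - r).toNat) with h3 | h3
    · have h4 : X.d k h y = X.pt t := h1 k (by omega) h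
      rw [h4]
      exact ⟨fun i _ t' e => X.d_pt i e, fun _ => rfl⟩
    · refine ⟨fun i hi t' e => ?_, fun h5 => by omega⟩
      have h6 : n - (q - r).toNat ≤ i + 1 := by omega
      rcases le_or_gt k i with h7 | h7
      · rw [← X.dd h7 e h, h1 (i + 1) h6 h, X.d_pt]
      · have h8 : X.d k h y = X.pt t := h1 k (by omega) h
        rw [h8, X.d_pt]

/-- simplices all of whose iterated faces in degrees `< a` are trivial -/
def PSub.low (X : PSp) (a : ℤ) : PSub X where
  S := fun q => {x | ∀ (r : ℤ) (y : X.X r), IFace X x y → r < a → y = X.pt r}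
  pt_mem := fun q r y h _ => h.of_pt rfl
  d_mem := fun i q r h x hx t y hy ht => hx t y ((IFace.step x i h IFace.refl).trans hy) ht
  s_mem := fun i q r h x hx t y hy ht => by
    rcases hy.of_s h x i rfl with h1 | ⟨t', e', j, z, h1, rfl⟩
    · exact hx t y h1 ht
    · rw [hx t' z h1 (by omega), X.s_pt]

theorem PSub.low_mono (X : PSp) {a b : ℤ} (hab : b ≤ a) {q : ℤ} {x : X.X q}
    (hx : x ∈ (PSub.low X a).S q) : x ∈ (PSub.low X b).S q :=
  fun r y hy hr => hx r y hy (by omega)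

theorem PSub.low_exh (X : PSp) {q : ℤ} (x : X.X q) : ∃ a, x ∈ (PSub.low X a).S q := by
  obtain ⟨l, hl⟩ : ∃ l, l + 1 = q := ⟨q - 1, by omega⟩
  obtain ⟨n, hn⟩ := X.fin hl x
  refine ⟨q - n, fun r y hy hr => (hy.triv n (fun i hi t e => ?_)).2 hr⟩
  obtain rfl : t = l := by omega
  exact hn i hi

theorem PSub.low_pt (X : PSp) {a q : ℤ} (hq : q < a) {x : X.X q}
    (hx : x ∈ (PSub.low X a).S q) : x = X.pt q := hx q x IFace.refl hq

/-- union of two sub-spectra -/
def PSub.sup {X : PSp} (A B : PSub X) : PSub X where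
  S := fun q => A.S q ∪ B.S q
  pt_mem := fun q => Or.inl (A.pt_mem q)
  d_mem := fun i _ _ h x hx => hx.imp (A.d_mem i h x) (B.d_mem i h x)
  s_mem := fun i _ _ h x hx => hx.imp (A.s_mem i h x) (B.s_mem i h x)

/-- `h` is a lift of `f` along `p` on `B` -/
structure OnLift {X : PSp} {E G : GSp} (p : GSp.Hom E G) (f : Map X G) (B : PSub X)
    (h : ∀ q, X.X q → E.G q) : Prop where
  lift : ∀ q, ∀ x ∈ B.S q, p.f q (h q x) = f.f q x
  pt : ∀ q, h q (X.pt q) = 0
  map_d : ∀ (i : ℕ) {q r : ℤ} (e : q + 1 = r) (x : X.X r), x ∈ B.S r →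
    h q (X.d i e x) = E.d i e (h r x)
  map_s : ∀ (i : ℕ) {q r : ℤ} (e : q + 1 = r) (x : X.X q), x ∈ B.S q →
    h r (X.s i e x) = E.s i e (h q x)

/-- extension of a lift from `A` to `B` if they agree in low degrees -/
theorem OnLift.extend {X : PSp} {E G : GSp} {p : GSp.Hom E G} (hp : p.Surj)
    (hK : (GSp.ker p).Acyclic) {f : Map X G} {A B : PSub X} (hAB : ∀ q, A.S q ⊆ B.S q) {a : ℤ}
    (hlow : ∀ q, q < a → B.S q ⊆ A.S q) {h : ∀ q, X.X q → E.G q} (hh : OnLift p f A h) :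
    ∃ h' : ∀ q, X.X q → E.G q, OnLift p f B h' ∧ ∀ q, ∀ x ∈ A.S q, h' q x = h q x := by
  classical
  let A' : PSub B.toPSp :=
    { S := fun q => {x | x.1 ∈ A.S q}
      pt_mem := fun q => A.pt_mem q
      d_mem := fun i _ _ e x hx => A.d_mem i e x.1 hx
      s_mem := fun i _ _ e x hx => A.s_mem i e x.1 hx }
  let hA' : Map A'.toPSp E :=
    { f := fun q x => h q x.1.1
      map_pt := fun q => hh.pt q
      map_d := fun i _ _ e x => hh.map_d i e x.1.1 x.2
      map_s := fun i _ _ e x => hh.map_s i e x.1.1 x.2 }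
  have h1 : Map.post p hA' = Map.pre A'.incl (Map.pre B.incl f) :=
    Map.ext2 fun q x => hh.lift q x.1.1 x.2
  have h2 : PLift p (Map.pre B.incl f) A' hA' (a - 1) (fun q x => h q x.1) :=
    { lift := fun q hq x => hh.lift q x.1 (hlow q (by omega) x.2)
      pt := fun q _ => hh.pt q
      map_d := fun i q r e x hr => hh.map_d i e x.1 (hlow r (by omega) x.2)
      map_s := fun i q r e x hr => hh.map_s i e x.1 (hlow q (by omega) x.2)
      ext := fun q _ x => rfl }
  obtain ⟨g, hg1, hg2, -⟩ := PLift.extend hp h1 (fun q _ => hK q) h2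
  have hg1' : ∀ q (x : B.toPSp.X q), p.f q (g.f q x) = f.f q x.1 := fun q x =>
    congrArg (fun (u : Map B.toPSp G) => u.f q x) hg1
  have hg2' : ∀ q (x : A'.toPSp.X q), g.f q x.1 = h q x.1.1 := fun q x =>
    congrArg (fun (u : Map A'.toPSp E) => u.f q x) hg2
  obtain ⟨g0, hdef⟩ : ∃ g0 : ∀ q, X.X q → E.G q, ∀ q x (hx : x ∈ B.S q),
      g0 q x = g.f q (⟨x, hx⟩ : B.S q) :=
    ⟨fun q x => if hx : x ∈ B.S q then g.f q (⟨x, hx⟩ : B.S q) else 0, fun q x hx => dif_pos hx⟩
  refine ⟨g0, ⟨?_, ?_, ?_, ?_⟩, ?_⟩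
  · intro q x hx
    rw [hdef q x hx]
    exact hg1' q ⟨x, hx⟩
  · intro q
    rw [hdef q _ (B.pt_mem q)]
    exact g.map_pt q
  · intro i q r e x hx
    rw [hdef r x hx, hdef q _ (B.d_mem i e x hx)]
    exact g.map_d i e ⟨x, hx⟩
  · intro i q r e x hx
    rw [hdef q x hx, hdef r _ (B.s_mem i e x hx)]
    exact g.map_s i e ⟨x, hx⟩
  · intro q x hx
    rw [hdef q x (hAB q hx)]
    exact hg2' q ⟨⟨x, hAB q hx⟩, hx⟩

/-- **Relative lifting theorem**, no boundedness.  PROOF: `X^{(j)}` = simplices all of whose iterated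
faces in degrees `< -j` are trivial.  `X^{(j)} ⊆ X^{(j+1)}`, every simplex lies in some `X^{(j)}`
(a simplex with `n` nontrivial faces has no nontrivial iterated face of order `> n`).  Extend
successively from `A ∩ X^{(j+1)} ∪ X^{(j)}` to `X^{(j+1)}` with `PLift.extend` (lift `0` in low
degrees), then take the union. -/
theorem lift_rel {X : PSp} {E G : GSp} (p : GSp.Hom E G) (hp : p.Surj)
    (hK : (GSp.ker p).Acyclic) (A : PSub X) (f : Map X G) (hA : Map A.toPSp E)
    (hfA : Map.post p hA = Map.pre A.incl f) :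
    ∃ h : Map X E, Map.post p h = f ∧ Map.pre A.incl h = hA := by
  classical
  -- the filtration
  let B : ℕ → PSub X := fun k => Nat.casesOn k A (fun k => A.sup (PSub.low X (-(k : ℤ))))
  have hB0 : B 0 = A := rfl
  have hBs : ∀ k, B (k + 1) = A.sup (PSub.low X (-(k : ℤ))) := fun k => rfl
  have hBm : ∀ k q, (B k).S q ⊆ (B (k + 1)).S q := by
    intro k q x hx
    cases k with
    | zero => exact Or.inl hx
    | succ k =>
      rcases hx with hx | hx
      · exact Or.inl hx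
      · exact Or.inr (PSub.low_mono X (by push_cast; omega) hx)
  have hBlow : ∀ (k : ℕ) q, q < -(k : ℤ) → (B (k + 1)).S q ⊆ (B k).S q := by
    intro k q hq x hx
    have hA : x ∈ A.S q := by
      rcases hx with hx | hx
      · exact hx
      · rw [PSub.low_pt X hq hx]
        exact A.pt_mem q
    cases k with
    | zero => exact hA
    | succ k => exact Or.inl hA
  -- the initial lift
  have hst : ∀ (k : ℕ) (g : {g : ∀ q, X.X q → E.G q // OnLift p f (B k) g}),
      ∃ g' : {g : ∀ q, X.X q → E.G q // OnLift p f (B (k + 1)) g},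
        ∀ q, ∀ x ∈ (B k).S q, g'.1 q x = g.1 q x := by
    intro k g
    obtain ⟨g', h1, h2⟩ := OnLift.extend hp hK (hBm k) (hBlow k) g.2
    exact ⟨⟨g', h1⟩, h2⟩
  choose F hF using hst
  obtain ⟨g0, hdef⟩ : ∃ g0 : ∀ q, X.X q → E.G q, ∀ q x (hx : x ∈ A.S q),
      g0 q x = hA.f q (⟨x, hx⟩ : A.S q) :=
    ⟨fun q x => if hx : x ∈ A.S q then hA.f q (⟨x, hx⟩ : A.S q) else 0, fun q x hx => dif_pos hx⟩
  have h0 : OnLift p f (B 0) g0 := by
    refine ⟨?_, ?_, ?_, ?_⟩
    · intro q x hx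
      rw [hdef q x hx]
      exact congrArg (fun (u : Map A.toPSp G) => u.f q ⟨x, hx⟩) hfA
    · intro q
      rw [hdef q _ (A.pt_mem q)]
      exact hA.map_pt q
    · intro i q r e x hx
      rw [hdef r x hx, hdef q _ (A.d_mem i e x hx)]
      exact hA.map_d i e ⟨x, hx⟩
    · intro i q r e x hx
      rw [hdef q x hx, hdef r _ (A.s_mem i e x hx)]
      exact hA.map_s i e ⟨x, hx⟩
  let H : ∀ k : ℕ, {g : ∀ q, X.X q → E.G q // OnLift p f (B k) g} := fun k =>
    Nat.rec ⟨_, h0⟩ (fun k g => F k g) k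
  have hH : ∀ k, H (k + 1) = F k (H k) := fun k => rfl
  have hst : ∀ k l, k ≤ l → ∀ q, ∀ x ∈ (B k).S q, x ∈ (B l).S q ∧ (H l).1 q x = (H k).1 q x := by
    intro k l hkl
    induction l, hkl using Nat.le_induction with
    | base => intro q x hx; exact ⟨hx, rfl⟩
    | succ l hl ih =>
      intro q x hx
      obtain ⟨h1, h2⟩ := ih q x hx
      refine ⟨hBm l q h1, ?_⟩
      rw [hH, hF l (H l) q x h1]
      exact h2
  have hex : ∀ q (x : X.X q), ∃ k, x ∈ (B k).S q := by
    intro q x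
    obtain ⟨a, ha⟩ := PSub.low_exh X x
    refine ⟨(-a).toNat + 1, Or.inr (PSub.low_mono X ?_ ha)⟩
    omega
  choose N hN using hex
  have hh' : ∀ (k : ℕ) q x, x ∈ (B k).S q → (H (N q x)).1 q x = (H k).1 q x := by
    intro k q x hx
    rcases le_total k (N q x) with h1 | h1
    · exact (hst k (N q x) h1 q x hx).2
    · exact (hst (N q x) k h1 q x (hN q x)).2.symm
  refine ⟨⟨fun q x => (H (N q x)).1 q x, ?_, ?_, ?_⟩, ?_, ?_⟩
  · intro q
    exact (H (N q (X.pt q))).2.pt q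
  · intro i q r e x
    show (H (N q (X.d i e x))).1 q (X.d i e x) = E.d i e ((H (N r x)).1 r x)
    rw [hh' (N r x) q _ ((B _).d_mem i e x (hN r x))]
    exact (H (N r x)).2.map_d i e x (hN r x)
  · intro i q r e x
    show (H (N r (X.s i e x))).1 r (X.s i e x) = E.s i e ((H (N q x)).1 q x)
    rw [hh' (N q x) r _ ((B _).s_mem i e x (hN q x))]
    exact (H (N q x)).2.map_s i e x (hN q x)
  · refine Map.ext2 fun q x => ?_
    exact (H (N q x)).2.lift q x (hN q x)
  · refine Map.ext2 fun q x => ?_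
    show (H (N q x.1)).1 q x.1 = hA.f q x
    rw [hh' 0 q x.1 x.2]
    exact hdef q x.1 x.2

/-- Absolute lifting theorem. -/
theorem lift_abs {X : PSp} {E G : GSp} (p : GSp.Hom E G) (hp : p.Surj)
    (hK : (GSp.ker p).Acyclic) (f : Map X G) : ∃ h : Map X E, Map.post p h = f := by
  obtain ⟨h, hh, -⟩ := lift_rel p hp hK (PSub.bot X) f 0 (by
    refine Map.ext2 fun q x => ?_
    obtain ⟨x, hx⟩ := x
    have hx' : x = X.pt q := hx
    subst hx'
    change p.f q 0 = f.f q (X.pt q)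
    rw [map_zero, f.map_pt])
  exact ⟨h, hh⟩

end BPN
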