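import Pool.Agent.BPN.S.KerEps

/-!
# Homotopy groups (project BPN, module S/Pi)
-/

namespace BPN

theorem Map.map_Z {G H : GSp} (c : Map G.U H) {q : ℤ} {x : G.G q} (hx : x ∈ G.Z q) :
    c.f q x ∈ H.Z q := fun i r h => by
  rw [← c.map_d i h x]
  have : G.U.d i h x = G.U.pt r := hx i h
  rw [this, c.map_pt]

theorem Map.map_B {G H : GSp} (c : Map G.U H) {q : ℤ} {x : G.G q} (hx : x ∈ G.B q) :
    c.f q x ∈ H.B q := by
  obtain ⟨y, hy, rfl⟩ := hx
  refine ⟨c.f _ y, fun i r h => ?_, (c.map_d 0 rfl y).symm⟩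
  rw [← c.map_d (i + 1) h y]
  have : G.U.d (i + 1) h y = G.U.pt r := hy i h
  rw [this, c.map_pt]

/-- Set-level maps are additive on cycles up to boundaries.  PROOF:
`w = c (s_0 x + s_1 y) - c (s_1 y) - c (s_0 x)` has only the face `d_1 w`. -/
theorem Map.add_B {G H : GSp} (c : Map G.U H) {q : ℤ} {x y : G.G q} (hx : x ∈ G.Z q)
    (hy : y ∈ G.Z q) : c.f q (x + y) + -c.f q y + -c.f q x ∈ H.B q := by
  have hq : q - 1 + 1 = q := by omega
  have c0 : ∀ t, c.f t (0 : G.G t) = 0 := fun t => c.map_pt t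
  have cd : ∀ (i : ℕ) (u : G.G (q + 1)), H.d i rfl (c.f (q + 1) u) = c.f q (G.d i rfl u) :=
    fun i u => (c.map_d i rfl u).symm
  have h1 : H.d 1 rfl (c.f (q + 1) (G.s 0 rfl x + G.s 1 rfl y) + -c.f (q + 1) (G.s 1 rfl y) +
      -c.f (q + 1) (G.s 0 rfl x)) = c.f q (x + y) + -c.f q y + -c.f q x := by
    have e1 : G.d 1 rfl (G.s 0 rfl x) = x := G.ds_succ 0 rfl x
    simp only [map_add, map_neg, cd, e1, G.ds_eq]
  rw [← h1]
  refine H.face rfl 1 _ ?_
  intro i hi
  rcases i with _ | _ | _ | i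
  · have e1 : G.d 0 rfl (G.s 1 rfl y) = 0 := by
      rw [G.ds_lt (le_refl 0) hq rfl y, hy 0 hq, map_zero]
    simp only [map_add, map_neg, cd, e1, c0, G.ds_eq, neg_zero, add_zero, add_neg_cancel]
  · exact absurd rfl hi
  · have e1 : G.d (0 + 1 + 1) rfl (G.s 0 rfl x) = 0 := by
      rw [G.ds_gt (by omega : 0 < 0 + 1) hq rfl x, hx _ hq, map_zero]
    have e2 : G.d (0 + 1 + 1) rfl (G.s 1 rfl y) = y := G.ds_succ 1 rfl y
    simp only [map_add, map_neg, cd, e1, e2, c0, neg_zero, zero_add, add_zero, add_neg_cancel]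
  · have e1 : G.d (i + 1 + 1 + 1) rfl (G.s 0 rfl x) = 0 := by
      rw [G.ds_gt (by omega : 0 < i + 1 + 1) hq rfl x, hx _ hq, map_zero]
    have e2 : G.d (i + 1 + 1 + 1) rfl (G.s 1 rfl y) = 0 := by
      rw [G.ds_gt (by omega : 1 < i + 1 + 1) hq rfl y, hy _ hq, map_zero]
    simp only [map_add, map_neg, cd, e1, e2, c0, neg_zero, add_zero]

namespace GSp

variable {E G H K : GSp} {q r : ℤ}

/-- The class of a cycle. -/
def piMk (G : GSp) (q : ℤ) : G.Z q →+ G.pi q := QuotientAddGroup.mk' _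

theorem piMk_surj (G : GSp) (q : ℤ) : Function.Surjective (G.piMk q) :=
  QuotientAddGroup.mk'_surjective _

theorem piMk_eq_zero {z : G.Z q} : G.piMk q z = 0 ↔ z.1 ∈ G.B q := by
  refine (QuotientAddGroup.eq_zero_iff z).trans ?_
  rfl

theorem piMk_eq {z w : G.Z q} : G.piMk q z = G.piMk q w ↔ z.1 + -w.1 ∈ G.B q := by
  rw [← sub_eq_zero, sub_eq_add_neg, ← map_neg, ← map_add, piMk_eq_zero]
  rfl

instance : AddCommGroup (G.pi q) :=
  { (inferInstance : AddGroup (G.pi q)) with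
    add_comm := fun x y => by
      obtain ⟨a, rfl⟩ := G.piMk_surj q x
      obtain ⟨b, rfl⟩ := G.piMk_surj q y
      have h := G.comm_mem_B a.1 b.1 a.2 b.2
      have h2 : G.piMk q (a + b) = G.piMk q (b + a) := by
        rw [piMk_eq]
        change a.1 + b.1 + -(b.1 + a.1) ∈ G.B q
        rwa [neg_add_rev, ← add_assoc]
      rw [map_add, map_add] at h2
      exact h2 }

theorem vanish_iff : G.Vanish q ↔ ∀ x : G.pi q, x = 0 := by
  constructor
  · intro h x
    obtain ⟨z, rfl⟩ := G.piMk_surj q x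
    exact piMk_eq_zero.mpr (h z.1 z.2)
  · intro h z hz
    exact piMk_eq_zero.mp (h (G.piMk q ⟨z, hz⟩))

end GSp

open GSp

/-- The homomorphism of homotopy groups induced by a set-level map. -/
def Map.pi {G H : GSp} (c : Map G.U H) (q : ℤ) : G.pi q →+ H.pi q :=
  QuotientAddGroup.lift ((G.B q).addSubgroupOf (G.Z q))
    { toFun := fun z => H.piMk q ⟨c.f q z.1, c.map_Z z.2⟩
      map_zero' := by
        rw [piMk_eq_zero]
        change c.f q 0 ∈ H.B q
        have : c.f q (0 : G.G q) = 0 := c.map_pt q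
        rw [this]; exact zero_mem _
      map_add' := fun x y => by
        rw [← map_add, piMk_eq]
        change c.f q (x.1 + y.1) + -(c.f q x.1 + c.f q y.1) ∈ H.B q
        rw [neg_add_rev, ← add_assoc]
        exact c.add_B x.2 y.2 }
    (fun z hz => piMk_eq_zero.mpr (c.map_B hz))

theorem Map.pi_mk {G H : GSp} (c : Map G.U H) (q : ℤ) (z : G.Z q) :
    c.pi q (G.piMk q z) = H.piMk q ⟨c.f q z.1, c.map_Z z.2⟩ := rfl

theorem Map.pi_id (G : GSp) (q : ℤ) : (Map.id G).pi q = AddMonoidHom.id _ := by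
  ext x
  obtain ⟨z, rfl⟩ := G.piMk_surj q x
  rfl

theorem Map.pi_comp {G H K : GSp} (c : Map H.U K) (b : Map G.U H) (q : ℤ) :
    (Map.comp c b).pi q = (c.pi q).comp (b.pi q) := by
  ext x
  obtain ⟨z, rfl⟩ := G.piMk_surj q x
  rfl

theorem Map.pi_add {G H : GSp} (b c : Map G.U H) (q : ℤ) (x : G.pi q) :
    (b + c).pi q x = b.pi q x + c.pi q x := by
  obtain ⟨z, rfl⟩ := G.piMk_surj q x
  rfl

theorem Map.Null.pi {G H : GSp} {c : Map G.U H} (hc : c.Null) (q : ℤ) : c.pi q = 0 := by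
  obtain ⟨b, rfl⟩ := hc
  ext x
  obtain ⟨z, rfl⟩ := G.piMk_surj q x
  rw [Map.pi_mk]
  refine piMk_eq_zero.mpr ⟨b.f q z.1, fun i r h => ?_, rfl⟩
  have hr : r = (q - 1) + 1 := by omega
  subst hr
  have h1 := b.map_d i (show q - 1 + 1 = q by omega) z.1
  have h2 : G.U.d i (show q - 1 + 1 = q by omega) z.1 = G.U.pt (q - 1) := z.2 i _
  rw [h2, b.map_pt] at h1
  exact h1.symm

theorem Map.pi_neg {G H : GSp} (c : Map G.U H) (q : ℤ) (x : G.pi q) :
    (-c).pi q x = -c.pi q x := by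
  obtain ⟨z, rfl⟩ := G.piMk_surj q x
  rfl

/-- Homotopic maps induce the same homomorphisms. -/
theorem Map.pi_congr {G H : GSp} {b c : Map G.U H} (h : HC.mk b = HC.mk c) (q : ℤ) :
    b.pi q = c.pi q := by
  rw [HC.mk_eq] at h
  have h2 := h.pi q
  ext x
  have h3 := DFunLike.congr_fun h2 x
  rw [Map.pi_add, Map.pi_neg] at h3
  exact add_neg_eq_zero.mp h3

/-- Weak equivalences (set-level maps). -/
def Map.WE {G H : GSp} (c : Map G.U H) : Prop := ∀ q, Function.Bijective (c.pi q)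

namespace GSp

variable {E G H K : GSp} {q r : ℤ}

theorem pi_kerB (p : Hom E G) (h : q + 1 = r) (y : E.G r) (hy : y ∈ E.N r) (hpy : p.f r y = 0)
    (w : (ker p).G q) (hw : w.1 = E.d 0 h y) : w ∈ (ker p).B q := by
  subst h
  refine ⟨⟨y, hpy⟩, fun i t ht => Subtype.ext (hy i ht), Subtype.ext hw.symm⟩

theorem pi_Z_le_N {x : G.G q} (hx : x ∈ G.Z q) : x ∈ G.N q := fun i _ h => hx (i + 1) h

/-- The boundary homomorphism of a surjective homomorphism. -/
noncomputable def bdry (p : Hom E G) (hp : p.Surj) (h : q + 1 = r) : G.pi r →+ (ker p).pi q :=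
  QuotientAddGroup.lift ((G.B r).addSubgroupOf (G.Z r))
    { toFun := fun z => (ker p).piMk q
        ⟨⟨E.d 0 h (exists_N_lift p hp z.1 (fun i t ht => z.2 (i + 1) ht)).choose, by
          have h1 := (exists_N_lift p hp z.1 (fun i t ht => z.2 (i + 1) ht)).choose_spec
          rw [AddMonoidHom.mem_ker, p.map_d, h1.2]
          exact z.2 0 h⟩, fun i t ht => Subtype.ext (by
          have h1 := (exists_N_lift p hp z.1 (fun i t ht => z.2 (i + 1) ht)).choose_spec
          change E.d i ht (E.d 0 h _) = 0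
          rw [← E.dd (Nat.zero_le i), h1.1 i h, map_zero])⟩
      map_zero' := by
        rw [piMk_eq_zero]
        have h1 := (exists_N_lift p hp (0 : G.Z r).1 (fun i t ht =>
          (0 : G.Z r).2 (i + 1) ht)).choose_spec
        exact pi_kerB p h _ h1.1 h1.2 _ rfl
      map_add' := fun x y => by
        rw [← map_add, piMk_eq]
        have h1 := (exists_N_lift p hp x.1 (fun i t ht => x.2 (i + 1) ht)).choose_spec
        have h2 := (exists_N_lift p hp y.1 (fun i t ht => y.2 (i + 1) ht)).choose_spec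
        have h3 := (exists_N_lift p hp (x + y).1 (fun i t ht => (x + y).2 (i + 1) ht)).choose_spec
        refine pi_kerB p h ((exists_N_lift p hp (x + y).1 (fun i t ht =>
          (x + y).2 (i + 1) ht)).choose +
          -((exists_N_lift p hp x.1 (fun i t ht => x.2 (i + 1) ht)).choose +
            (exists_N_lift p hp y.1 (fun i t ht => y.2 (i + 1) ht)).choose)) ?_ ?_ _ ?_
        · exact add_mem h3.1 (neg_mem (add_mem h1.1 h2.1))
        · rw [map_add, map_neg, map_add, h1.2, h2.2, h3.2]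
          exact add_neg_cancel _
        · rw [map_add, map_neg, map_add]
          rfl }
    (fun z hz => by
      refine piMk_eq_zero.mpr ?_
      have h1 := (exists_N_lift p hp z.1 (fun i t ht => z.2 (i + 1) ht)).choose_spec
      obtain ⟨g, hg, hgz⟩ : z.1 ∈ G.B r := hz
      obtain ⟨g', hg', hpg⟩ := exists_N_lift p hp g hg
      have hz' : p.f r (E.d 0 rfl g') = z.1 := by
        rw [p.map_d, hpg]
        exact hgz
      refine pi_kerB p h ((exists_N_lift p hp z.1 (fun i t ht => z.2 (i + 1) ht)).choose +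
        -E.d 0 rfl g') ?_ ?_ _ ?_
      · refine add_mem h1.1 (neg_mem fun i t ht => ?_)
        rw [← E.dd (Nat.zero_le (i + 1)) ht rfl g', hg' (i + 1) rfl, map_zero]
      · rw [map_add, map_neg, h1.2, hz', add_neg_cancel]
      · have e : E.d 0 h (E.d 0 rfl g') = 0 := by
          rw [← E.dd (le_refl 0) h rfl g', hg' 0 rfl, map_zero]
        rw [map_add, map_neg, e, neg_zero, add_zero])

/-- Characterisation: `∂ [z] = [d_0 y]` for every Moore chain `y` over `z`. -/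
theorem bdry_mk (p : Hom E G) (hp : p.Surj) (h : q + 1 = r) (z : G.Z r) (y : E.G r)
    (hy : y ∈ E.N r) (hyz : p.f r y = z.1) (w : (ker p).Z q) (hw : w.1.1 = E.d 0 h y) :
    bdry p hp h (G.piMk r z) = (ker p).piMk q w := by
  have h1 := (exists_N_lift p hp z.1 (fun i t ht => z.2 (i + 1) ht)).choose_spec
  refine piMk_eq.mpr ?_
  refine pi_kerB p h ((exists_N_lift p hp z.1 (fun i t ht => z.2 (i + 1) ht)).choose + -y)
    (add_mem h1.1 (neg_mem hy)) ?_ _ ?_
  · rw [map_add, map_neg, h1.2, hyz, add_neg_cancel]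
  · rw [map_add, map_neg, ← hw]
    rfl

/-- Exactness at `π_q E`. -/
theorem exact_E (p : Hom E G) (hp : p.Surj) (x : E.pi q) :
    (Map.ofHom p).pi q x = 0 ↔ ∃ k : (ker p).pi q, (Map.ofHom (kerIncl p)).pi q k = x := by
  obtain ⟨z, rfl⟩ := E.piMk_surj q x
  constructor
  · intro h
    obtain ⟨g, hg, hgz⟩ : p.f q z.1 ∈ G.B q := piMk_eq_zero.mp h
    obtain ⟨g', hg', hpg⟩ := exists_N_lift p hp g hg
    have hz' : p.f q (E.d 0 rfl g') = p.f q z.1 := by
      rw [p.map_d, hpg]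
      exact hgz
    have hB : E.d 0 rfl g' ∈ E.B q := ⟨g', hg', rfl⟩
    have hc : -E.d 0 rfl g' + z.1 ∈ E.Z q := add_mem (neg_mem (E.B_le_Z q hB)) z.2
    have hk : -E.d 0 rfl g' + z.1 ∈ (p.f q).ker := by
      rw [AddMonoidHom.mem_ker, map_add, map_neg, hz', neg_add_cancel]
    refine ⟨(ker p).piMk q ⟨⟨-E.d 0 rfl g' + z.1, hk⟩, fun i t ht => Subtype.ext (hc i ht)⟩, ?_⟩
    rw [Map.pi_mk]
    refine piMk_eq.mpr ?_
    change -E.d 0 rfl g' + z.1 + -z.1 ∈ E.B q
    rw [add_neg_cancel_right]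
    exact neg_mem hB
  · rintro ⟨k, hk⟩
    rw [← hk]
    obtain ⟨w, rfl⟩ := (ker p).piMk_surj q k
    refine piMk_eq_zero.mpr ?_
    change p.f q w.1.1 ∈ G.B q
    have hw : p.f q w.1.1 = 0 := w.1.2
    rw [hw]
    exact zero_mem _

/-- Exactness at `π_r G`. -/
theorem exact_G (p : Hom E G) (hp : p.Surj) (h : q + 1 = r) (x : G.pi r) :
    bdry p hp h x = 0 ↔ ∃ e : E.pi r, (Map.ofHom p).pi r e = x := by
  subst h
  constructor
  · obtain ⟨z, rfl⟩ := G.piMk_surj (q + 1) x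
    intro h
    obtain ⟨a, ha, haz⟩ := exists_N_lift p hp z.1 (pi_Z_le_N z.2)
    have hda : E.d 0 rfl a ∈ (p.f q).ker := by
      rw [AddMonoidHom.mem_ker, p.map_d, haz]
      exact z.2 0 rfl
    have hda' : (⟨E.d 0 rfl a, hda⟩ : (ker p).G q) ∈ (ker p).Z q := fun i t ht =>
      Subtype.ext (by
        change E.d i ht (E.d 0 rfl a) = 0
        rw [← E.dd (Nat.zero_le i), ha i rfl, map_zero])
    rw [bdry_mk p hp rfl z a ha haz ⟨⟨E.d 0 rfl a, hda⟩, hda'⟩ rfl] at h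
    obtain ⟨v, hv, hv0⟩ : (⟨E.d 0 rfl a, hda⟩ : (ker p).G q) ∈ (ker p).B q := piMk_eq_zero.mp h
    have hv0' : E.d 0 rfl (v.1 : E.G (q + 1)) = E.d 0 rfl a := congrArg Subtype.val hv0
    have hvN : (v.1 : E.G (q + 1)) ∈ E.N (q + 1) := fun i t ht => congrArg Subtype.val (hv i ht)
    have hvp : p.f (q + 1) v.1 = 0 := v.2
    have hN : a + -(v.1 : E.G (q + 1)) ∈ E.N (q + 1) := add_mem ha (neg_mem hvN)
    have hZ : a + -(v.1 : E.G (q + 1)) ∈ E.Z (q + 1) := by
      rintro (_ | i) t ht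
      · obtain rfl : t = q := by omega
        rw [map_add, map_neg, hv0', add_neg_cancel]
      · exact hN i ht
    refine ⟨E.piMk (q + 1) ⟨_, hZ⟩, ?_⟩
    rw [Map.pi_mk]
    congr 1
    apply Subtype.ext
    change p.f (q + 1) (a + -(v.1 : E.G (q + 1))) = z.1
    rw [map_add, map_neg, hvp, neg_zero, add_zero, haz]
  · rintro ⟨e, rfl⟩
    obtain ⟨b, rfl⟩ := E.piMk_surj (q + 1) e
    rw [Map.pi_mk, bdry_mk p hp rfl _ b.1 (pi_Z_le_N b.2) rfl 0 (b.2 0 rfl).symm, map_zero]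

/-- Exactness at `π_q (ker p)`. -/
theorem exact_K (p : Hom E G) (hp : p.Surj) (h : q + 1 = r) (k : (ker p).pi q) :
    (Map.ofHom (kerIncl p)).pi q k = 0 ↔ ∃ x : G.pi r, bdry p hp h x = k := by
  subst h
  constructor
  · obtain ⟨w, rfl⟩ := (ker p).piMk_surj q k
    intro h
    obtain ⟨y, hy, hyw⟩ : w.1.1 ∈ E.B q := piMk_eq_zero.mp h
    have hz : p.f (q + 1) y ∈ G.Z (q + 1) := by
      rintro (_ | i) t ht
      · obtain rfl : t = q := by omega
        rw [← p.map_d, hyw]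
        exact w.1.2
      · rw [← p.map_d, hy i ht, map_zero]
    exact ⟨G.piMk (q + 1) ⟨_, hz⟩, bdry_mk p hp rfl _ y hy rfl w hyw.symm⟩
  · rintro ⟨x, rfl⟩
    obtain ⟨z, rfl⟩ := G.piMk_surj (q + 1) x
    obtain ⟨a, ha, haz⟩ := exists_N_lift p hp z.1 (pi_Z_le_N z.2)
    have hda : E.d 0 rfl a ∈ (p.f q).ker := by
      rw [AddMonoidHom.mem_ker, p.map_d, haz]
      exact z.2 0 rfl
    have hda' : (⟨E.d 0 rfl a, hda⟩ : (ker p).G q) ∈ (ker p).Z q := fun i t ht =>
      Subtype.ext (by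
        change E.d i ht (E.d 0 rfl a) = 0
        rw [← E.dd (Nat.zero_le i), ha i rfl, map_zero])
    rw [bdry_mk p hp rfl z a ha haz ⟨⟨E.d 0 rfl a, hda⟩, hda'⟩ rfl, Map.pi_mk]
    exact piMk_eq_zero.mpr ⟨a, ha, rfl⟩

/-- A surjective homomorphism is a weak equivalence iff its kernel is acyclic. -/
theorem we_iff (p : Hom E G) (hp : p.Surj) : (Map.ofHom p).WE ↔ (ker p).Acyclic := by
  constructor
  · intro h q
    rw [← Vanish, vanish_iff]
    intro k
    have h1 : (Map.ofHom p).pi q ((Map.ofHom (kerIncl p)).pi q k) = 0 :=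
      (exact_E p hp _).mpr ⟨k, rfl⟩
    have h2 : (Map.ofHom (kerIncl p)).pi q k = 0 := (h q).1 (by rw [h1, map_zero])
    obtain ⟨x, rfl⟩ := (exact_K p hp rfl k).mp h2
    exact (exact_G p hp rfl x).mpr ((h (q + 1)).2 x)
  · intro h q
    have hk : ∀ t, ∀ k : (ker p).pi t, k = 0 := fun t => vanish_iff.mp (h t)
    constructor
    · rw [injective_iff_map_eq_zero]
      intro x hx
      obtain ⟨k, rfl⟩ := (exact_E p hp x).mp hx
      rw [hk q k, map_zero]
    · intro x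
      exact (exact_G p hp (show q - 1 + 1 = q by omega) x).mp (hk _ _)

theorem eps_we (G : GSp) : (Map.ofHom G.eps).WE := (we_iff G.eps G.eps_surj).mpr G.ker_eps_acyclic

theorem eta_we (G : GSp) : (PSp.eta G.U).WE := by
  intro q
  have h1 : ∀ x, (Map.ofHom G.eps).pi q ((PSp.eta G.U).pi q x) = x := by
    intro x
    obtain ⟨z, rfl⟩ := G.piMk_surj q x
    rw [Map.pi_mk, Map.pi_mk]
    congr 1
    apply Subtype.ext
    exact (Map.id G).ext'_of q z.1
  have h2 := G.eps_we q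
  constructor
  · intro x y hxy
    rw [← h1 x, ← h1 y, hxy]
  · intro y
    refine ⟨(Map.ofHom G.eps).pi q y, h2.1 ?_⟩
    exact h1 _

/-- The set-level map induced on loops. -/
def _root_.BPN.Map.Om (c : Map G.U H) : Map (Om G).U (Om H) where
  f := fun q x => ⟨c.f (q + 1) x.1, by
    rw [AddMonoidHom.mem_ker]
    change H.d 0 rfl (c.f (q + 1) x.1) = 0
    have h1 : G.U.d 0 rfl x.1 = G.U.pt q := x.2
    rw [← c.map_d 0 rfl x.1, h1, c.map_pt]⟩
  map_pt := fun q => Subtype.ext (c.map_pt (q + 1))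
  map_d := fun i _ _ _ x => Subtype.ext (c.map_d (i + 1) _ x.1)
  map_s := fun i _ _ _ x => Subtype.ext (c.map_s (i + 1) _ x.1)

/-- Cycles of `Ω G` in degree `q` are cycles of `G` in degree `q + 1`. -/
theorem om_cyc (G : GSp) (z : (Om G).Z q) : (z.1.1 : G.G (q + 1)) ∈ G.Z (q + 1) := by
  rintro (_ | i) t ht
  · obtain rfl : t = q := by omega
    exact z.1.2
  · obtain rfl : t = (q - 1) + 1 := by omega
    exact congrArg Subtype.val (z.2 i (show q - 1 + 1 = q by omega))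

/-- Boundaries of `Ω G` are boundaries of `G` (use `face`). -/
theorem om_bd (G : GSp) {x : (Om G).G q} (hx : x ∈ (Om G).B q) : x.1 ∈ G.B (q + 1) := by
  obtain ⟨y, hy, rfl⟩ := hx
  change G.d 1 rfl (y.1 : G.G (q + 1 + 1)) ∈ G.B (q + 1)
  refine G.face rfl 1 _ ?_
  intro i hi
  rcases i with _ | _ | i
  · exact y.2
  · exact absurd rfl hi
  · exact congrArg Subtype.val (hy i rfl)

/-- `π_q (Ω G) → π_{q+1} G`, the identity on cycles. -/
noncomputable def omPi (G : GSp) (q : ℤ) : (Om G).pi q →+ G.pi (q + 1) :=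
  QuotientAddGroup.lift _
    { toFun := fun z : (Om G).Z q => G.piMk (q + 1) ⟨z.1.1, om_cyc G z⟩
      map_zero' := rfl
      map_add' := fun _ _ => rfl } (fun _ hz => piMk_eq_zero.mpr (om_bd G hz))

theorem omPi_mk (G : GSp) (z : (Om G).Z q) :
    omPi G q ((Om G).piMk q z) = G.piMk (q + 1) ⟨z.1.1, om_cyc G z⟩ := rfl

theorem omPi_bijective (G : GSp) (q : ℤ) : Function.Bijective (omPi G q) := by
  constructor
  · rw [injective_iff_map_eq_zero]
    intro x hx
    obtain ⟨z, rfl⟩ := (Om G).piMk_surj q x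
    rw [omPi_mk, piMk_eq_zero] at hx
    refine piMk_eq_zero.mpr ?_
    have hz' := om_cyc G z
    have hz0 : G.d 0 rfl (z.1.1 : G.G (q + 1)) = 0 := z.1.2
    obtain ⟨y, hy, hy0⟩ := hx
    change G.d 0 rfl y = (z.1.1 : G.G (q + 1)) at hy0
    have hw0 : G.d 0 rfl (G.s 0 (rfl : q + 1 + 1 = q + 1 + 1) (z.1.1 : G.G (q + 1)) + -y) = 0 := by
      rw [map_add, map_neg, G.ds_eq, hy0, add_neg_cancel]
    refine ⟨⟨G.s 0 (rfl : q + 1 + 1 = q + 1 + 1) (z.1.1 : G.G (q + 1)) + -y, hw0⟩, ?_, ?_⟩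
    · intro i r hr
      obtain rfl : r = q := by omega
      refine Subtype.ext ?_
      change G.d (i + 1 + 1) rfl
        (G.s 0 (rfl : r + 1 + 1 = r + 1 + 1) (z.1.1 : G.G (r + 1)) + -y) = 0
      rw [map_add, map_neg, G.ds_gt (Nat.succ_pos i) rfl rfl _, hz' (i + 1), map_zero,
        hy (i + 1) rfl, neg_zero, add_zero]
    · refine Subtype.ext ?_
      change G.d (0 + 1) rfl
        (G.s 0 (rfl : q + 1 + 1 = q + 1 + 1) (z.1.1 : G.G (q + 1)) + -y) = z.1.1
      rw [map_add, map_neg, G.ds_succ, hy 0 rfl, neg_zero, add_zero]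
  · intro x
    obtain ⟨z, rfl⟩ := G.piMk_surj (q + 1) x
    refine ⟨(Om G).piMk q ⟨⟨z.1, z.2 0 rfl⟩, fun i t ht => Subtype.ext ?_⟩, rfl⟩
    exact z.2 (i + 1) (by omega : t + 1 + 1 = q + 1)

/-- Naturality. -/
theorem omPi_nat (c : Map G.U H) (x : (Om G).pi q) :
    omPi H q (c.Om.pi q x) = c.pi (q + 1) (omPi G q x) := by
  obtain ⟨z, rfl⟩ := (Om G).piMk_surj q x
  rfl

/-- Projections of a product. -/
def fst (G H : GSp) : Hom (G.prod H) G :=
  ⟨fun q => AddMonoidHom.fst _ _, fun _ _ _ _ _ => rfl, fun _ _ _ _ _ => rfl⟩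

def snd (G H : GSp) : Hom (G.prod H) H :=
  ⟨fun q => AddMonoidHom.snd _ _, fun _ _ _ _ _ => rfl, fun _ _ _ _ _ => rfl⟩

/-- The map into a product. -/
def _root_.BPN.Map.pair {X : PSp} (a : Map X G) (b : Map X H) : Map X (G.prod H) where
  f := fun q x => (a.f q x, b.f q x)
  map_pt := fun q => Prod.ext (a.map_pt q) (b.map_pt q)
  map_d := fun i _ _ h x => Prod.ext (a.map_d i h x) (b.map_d i h x)
  map_s := fun i _ _ h x => Prod.ext (a.map_s i h x) (b.map_s i h x)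

/-- The homotopy groups of a product. -/
theorem prod_pi_bijective (G H : GSp) (q : ℤ) :
    Function.Bijective (fun x : (G.prod H).pi q =>
      ((Map.ofHom (fst G H)).pi q x, (Map.ofHom (snd G H)).pi q x)) := by
  constructor
  · intro x y hxy
    obtain ⟨z, rfl⟩ := (G.prod H).piMk_surj q x
    obtain ⟨w, rfl⟩ := (G.prod H).piMk_surj q y
    obtain ⟨h1, h2⟩ := Prod.mk.inj hxy
    obtain ⟨a, ha, ha0⟩ : z.1.1 + -w.1.1 ∈ G.B q := piMk_eq.mp h1
    obtain ⟨b, hb, hb0⟩ : z.1.2 + -w.1.2 ∈ H.B q := piMk_eq.mp h2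
    exact piMk_eq.mpr ⟨(a, b), fun i t ht => Prod.ext (ha i ht) (hb i ht), Prod.ext ha0 hb0⟩
  · rintro ⟨x, y⟩
    obtain ⟨z, rfl⟩ := G.piMk_surj q x
    obtain ⟨w, rfl⟩ := H.piMk_surj q y
    exact ⟨(G.prod H).piMk q ⟨(z.1, w.1), fun i t ht => Prod.ext (z.2 i ht) (w.2 i ht)⟩, rfl⟩

/-- The pair of nullhomotopic maps is nullhomotopic. -/
theorem _root_.BPN.Map.null_pair {X : PSp} {a : Map X G} {b : Map X H} (ha : a.Null)
    (hb : b.Null) : (Map.pair a b).Null := by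
  obtain ⟨x, rfl⟩ := ha
  obtain ⟨y, rfl⟩ := hb
  exact ⟨⟨fun q w => (x.f q w, y.f q w), fun q => Prod.ext (x.map_pt q) (y.map_pt q),
    fun i _ _ h w => Prod.ext (x.map_d i h w) (y.map_d i h w),
    fun i _ _ h w => Prod.ext (x.map_s i h w) (y.map_s i h w)⟩, rfl⟩

end GSp

end BPN
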