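import Pool.Agent.BPN.Free
import Pool.Agent.BPN.S.Lift

/-!
# Levelwise smash products (project BPN, module S/Smash)
-/

namespace BPN

open Classical

/-- Normal form of a pair: `(pt, pt)` if one of the entries is the base point. -/
noncomputable def nrm {A B : Type} (a₀ : A) (b₀ : B) (x : A) (y : B) :
    {p : A × B // p.1 = a₀ ↔ p.2 = b₀} :=
  if h : x = a₀ ∨ y = b₀ then ⟨(a₀, b₀), by simp⟩ else ⟨(x, y), by
    push Not at h
    simp [h.1, h.2]⟩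

theorem nrm_left {A B : Type} (a₀ : A) (b₀ : B) (y : B) :
    nrm a₀ b₀ a₀ y = ⟨(a₀, b₀), by simp⟩ := by simp [nrm]

theorem nrm_right {A B : Type} (a₀ : A) (b₀ : B) (x : A) :
    nrm a₀ b₀ x b₀ = ⟨(a₀, b₀), by simp⟩ := by simp [nrm]

theorem nrm_self {A B : Type} (a₀ : A) (b₀ : B) (p : {p : A × B // p.1 = a₀ ↔ p.2 = b₀}) :
    nrm a₀ b₀ p.1.1 p.1.2 = p := by
  obtain ⟨⟨x, y⟩, h⟩ := p
  unfold nrm
  by_cases hx : x = a₀
  · have hy : y = b₀ := h.mp hx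
    subst hx hy
    simp
  · have hy : y ≠ b₀ := fun hy => hx (h.mpr hy)
    simp [hx, hy]

/-- Pointed functions commute with normal forms. -/
theorem nrm_nrm {A B C D : Type} {a₀ : A} {b₀ : B} {c₀ : C} {d₀ : D} (f : A → C) (g : B → D)
    (hf : f a₀ = c₀) (hg : g b₀ = d₀) (x : A) (y : B) :
    nrm c₀ d₀ (f (nrm a₀ b₀ x y).1.1) (g (nrm a₀ b₀ x y).1.2) = nrm c₀ d₀ (f x) (g y) := by
  by_cases h : x = a₀ ∨ y = b₀
  · rcases h with rfl | rfl
    · rw [nrm_left, hf, nrm_left, nrm_left]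
    · rw [nrm_right, hg, nrm_right, nrm_right]
  · have : nrm a₀ b₀ x y = ⟨(x, y), by push Not at h; simp [h.1, h.2]⟩ := by simp [nrm, h]
    rw [this]

/-- The levelwise smash product of two pointed-set spectra. -/
noncomputable def PSp.smash (X Y : PSp) : PSp where
  X := fun q => {p : X.X q × Y.X q // p.1 = X.pt q ↔ p.2 = Y.pt q}
  pt := fun q => ⟨(X.pt q, Y.pt q), by simp⟩
  d := fun i _ _ h x => nrm _ _ (X.d i h x.1.1) (Y.d i h x.1.2)
  s := fun i _ _ h x => nrm _ _ (X.s i h x.1.1) (Y.s i h x.1.2)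
  d_pt := fun i _ _ h => by rw [X.d_pt, Y.d_pt, nrm_left]
  s_pt := fun i _ _ h => by rw [X.s_pt, Y.s_pt, nrm_left]
  dd := fun hij _ _ _ h₁ h₂ x => by
    rw [nrm_nrm (X.d _ h₁) (Y.d _ h₁) (X.d_pt _ _) (Y.d_pt _ _),
      nrm_nrm (X.d _ h₁) (Y.d _ h₁) (X.d_pt _ _) (Y.d_pt _ _), X.dd hij, Y.dd hij]
  ds_lt := fun hij _ _ _ h₁ h₂ x => by
    rw [nrm_nrm (X.d _ h₂) (Y.d _ h₂) (X.d_pt _ _) (Y.d_pt _ _),
      nrm_nrm (X.s _ h₁) (Y.s _ h₁) (X.s_pt _ _) (Y.s_pt _ _), X.ds_lt hij h₁ h₂,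
      Y.ds_lt hij h₁ h₂]
  ds_eq := fun i _ _ h x => by
    rw [nrm_nrm (X.d _ h) (Y.d _ h) (X.d_pt _ _) (Y.d_pt _ _), X.ds_eq, Y.ds_eq, nrm_self]
  ds_succ := fun i _ _ h x => by
    rw [nrm_nrm (X.d _ h) (Y.d _ h) (X.d_pt _ _) (Y.d_pt _ _), X.ds_succ, Y.ds_succ, nrm_self]
  ds_gt := fun hij _ _ _ h₁ h₂ x => by
    rw [nrm_nrm (X.d _ h₂) (Y.d _ h₂) (X.d_pt _ _) (Y.d_pt _ _),
      nrm_nrm (X.s _ h₁) (Y.s _ h₁) (X.s_pt _ _) (Y.s_pt _ _), X.ds_gt hij h₁ h₂,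
      Y.ds_gt hij h₁ h₂]
  ss := fun hij _ _ _ h₁ h₂ x => by
    rw [nrm_nrm (X.s _ h₂) (Y.s _ h₂) (X.s_pt _ _) (Y.s_pt _ _),
      nrm_nrm (X.s _ h₂) (Y.s _ h₂) (X.s_pt _ _) (Y.s_pt _ _), X.ss hij h₁ h₂, Y.ss hij h₁ h₂]
  fin := fun {q r} h x => by
    obtain ⟨n, hn⟩ := X.fin h x.1.1
    exact ⟨n, fun i hi => by rw [hn i hi, nrm_left]⟩

/-- The map `x ↦ (f x, g x)` to the smash product. -/
noncomputable def PSp.Hom.toSmash {W X Y : PSp} (f : PSp.Hom W X) (g : PSp.Hom W Y) :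
    PSp.Hom W (X.smash Y) where
  f := fun q x => nrm _ _ (f.f q x) (g.f q x)
  map_pt := fun q => by rw [f.map_pt, nrm_left]; rfl
  map_d := fun i q r h x => by
    rw [f.map_d, g.map_d]
    exact (nrm_nrm (X.d i h) (Y.d i h) (X.d_pt _ _) (Y.d_pt _ _) _ _).symm
  map_s := fun i q r h x => by
    rw [f.map_s, g.map_s]
    exact (nrm_nrm (X.s i h) (Y.s i h) (X.s_pt _ _) (Y.s_pt _ _) _ _).symm

/-- A natural function of two variables which vanishes if one of them is the base point gives a map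
from the smash product. -/
def Map.ofSmash {X Y : PSp} {G : GSp} (φ : ∀ q, X.X q → Y.X q → G.G q)
    (hl : ∀ q y, φ q (X.pt q) y = 0) (_hr : ∀ q x, φ q x (Y.pt q) = 0)
    (hd : ∀ (i : ℕ) {q r : ℤ} (h : q + 1 = r) x y, φ q (X.d i h x) (Y.d i h y) =
      G.d i h (φ r x y))
    (hs : ∀ (i : ℕ) {q r : ℤ} (h : q + 1 = r) x y, φ r (X.s i h x) (Y.s i h y) =
      G.s i h (φ q x y)) : Map (X.smash Y) G where
  f := fun q x => φ q x.1.1 x.1.2
  map_pt := fun q => hl q _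
  map_d := fun i q r h x => by
    rw [← hd]
    change φ q (nrm _ _ _ _).1.1 (nrm _ _ _ _).1.2 = _
    unfold nrm
    by_cases h' : X.d i h x.1.1 = X.pt q ∨ Y.d i h x.1.2 = Y.pt q
    · rw [dif_pos h']
      rcases h' with h' | h' <;> rw [h']
      · rw [hl, hl]
      · rw [hl, _hr]
    · rw [dif_neg h']
  map_s := fun i q r h x => by
    rw [← hs]
    change φ r (nrm _ _ _ _).1.1 (nrm _ _ _ _).1.2 = _
    unfold nrm
    by_cases h' : X.s i h x.1.1 = X.pt r ∨ Y.s i h x.1.2 = Y.pt r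
    · rw [dif_pos h']
      rcases h' with h' | h' <;> rw [h']
      · rw [hl, hl]
      · rw [hl, _hr]
    · rw [dif_neg h']

/-- The homomorphism `(x, y) ↦ (s_k x, s_{k+1} y)`. -/
private noncomputable def sth (X Y : PSp) (k : ℕ) {q r : ℤ} (h : q + 1 = r) :
    (X.smash Y).F.G q →+ (X.smash Y).F.G r :=
  FrG.map (x₀ := (X.smash Y).pt q) (y₀ := (X.smash Y).pt r)
    (fun p => nrm _ _ (X.s k h p.1.1) (Y.s (k + 1) h p.1.2))

private theorem sth_of (X Y : PSp) (k : ℕ) {q r : ℤ} (h : q + 1 = r) (p : (X.smash Y).X q) :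
    sth X Y k h (FrG.of ((X.smash Y).pt q) p) =
      FrG.of ((X.smash Y).pt r) (nrm _ _ (X.s k h p.1.1) (Y.s (k + 1) h p.1.2)) := by
  refine FrG.map_of _ ?_ p
  change nrm (X.pt r) (Y.pt r) (X.s k h (X.pt q)) (Y.s (k + 1) h (Y.pt q)) = _
  rw [X.s_pt, nrm_left]
  rfl

private theorem sd_of (X Y : PSp) (i : ℕ) {q r : ℤ} (h : q + 1 = r) (p : (X.smash Y).X r) :
    (X.smash Y).F.d i h (FrG.of ((X.smash Y).pt r) p) =
      FrG.of ((X.smash Y).pt q) (nrm _ _ (X.d i h p.1.1) (Y.d i h p.1.2)) :=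
  FrG.map_of _ ((X.smash Y).d_pt i h) p

private theorem sd_sth (X Y : PSp) (i k : ℕ) {q t r : ℤ} (h : q + 1 = r) (h' : t + 1 = r)
    (p : (X.smash Y).X q) :
    (X.smash Y).F.d i h' (sth X Y k h (FrG.of ((X.smash Y).pt q) p)) =
      FrG.of ((X.smash Y).pt t) (nrm _ _ (X.d i h' (X.s k h p.1.1))
        (Y.d i h' (Y.s (k + 1) h p.1.2))) := by
  rw [sth_of, sd_of, nrm_nrm (X.d i h') (Y.d i h') (X.d_pt _ _) (Y.d_pt _ _)]

/-- the low faces -/
private theorem sd_low (X Y : PSp) {i k : ℕ} (hik : i ≤ k) {t q r : ℤ} (h₁ : t + 1 = q)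
    (h₂ : q + 1 = r) (z : (X.smash Y).F.G q) :
    (X.smash Y).F.d i h₂ (sth X Y (k + 1) h₂ z) = sth X Y k h₁ ((X.smash Y).F.d i h₁ z) := by
  refine DFunLike.congr_fun (f := ((X.smash Y).F.d i h₂).comp (sth X Y (k + 1) h₂))
    (g := (sth X Y k h₁).comp ((X.smash Y).F.d i h₁)) (FrG.hom_ext fun p => ?_) z
  refine (sd_sth X Y i (k + 1) h₂ h₂ p).trans ?_
  refine Eq.trans ?_ (congrArg (sth X Y k h₁) (sd_of X Y i h₁ p)).symm
  refine Eq.trans ?_ (sth_of X Y k h₁ _).symm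
  rw [nrm_nrm (X.s k h₁) (Y.s (k + 1) h₁) (X.s_pt _ _) (Y.s_pt _ _), X.ds_lt hik h₁ h₂,
    Y.ds_lt (hik.trans (Nat.le_succ k)) h₁ h₂]

/-- the composite of `θ_k` and a face, as an endomorphism of a free group -/
private noncomputable def dth (X Y : PSp) (i k : ℕ) (q : ℤ) :
    FrG ((X.smash Y).X q) ((X.smash Y).pt q) →+ FrG ((X.smash Y).X q) ((X.smash Y).pt q) :=
  ((X.smash Y).F.d i (rfl : q + 1 = q + 1)).comp (sth X Y k rfl)

private theorem dth_of (X Y : PSp) (i k : ℕ) (q : ℤ) (p : (X.smash Y).X q) :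
    dth X Y i k q (FrG.of ((X.smash Y).pt q) p) =
      FrG.of ((X.smash Y).pt q) (nrm _ _ (X.d i rfl (X.s k rfl p.1.1))
        (Y.d i rfl (Y.s (k + 1) rfl p.1.2))) :=
  sd_sth X Y i k rfl rfl p

/-- the high faces, for large `k` -/
private theorem sd_high (X Y : PSp) {q : ℤ} (z : FrG ((X.smash Y).X q) ((X.smash Y).pt q)) :
    ∃ n : ℕ, ∀ k, n ≤ k →
      dth X Y k k q z = 0 ∧ dth X Y (k + 1) k q z = z ∧
      ∀ i, k < i → dth X Y (i + 1) k q z = 0 := by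
  induction z using FrG.induction_on with
  | h0 =>
    refine ⟨0, fun k _ => ⟨?_, ?_, fun i _ => ?_⟩⟩
    · exact map_zero _
    · exact map_zero _
    · exact map_zero _
  | hof p =>
    obtain ⟨n, hn⟩ := X.fin (show q - 1 + 1 = q by omega) p.1.1
    obtain ⟨m, hm⟩ := Y.fin (show q - 1 + 1 = q by omega) p.1.2
    refine ⟨max n m, fun k hk => ⟨?_, ?_, fun i hi => ?_⟩⟩
    · rw [dth_of, X.ds_eq, Y.ds_lt le_rfl (show q - 1 + 1 = q by omega) rfl,
        hm k (le_trans (le_max_right _ _) hk), Y.s_pt, nrm_right]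
      exact FrG.of_pt
    · rw [dth_of, X.ds_succ, Y.ds_eq, nrm_self]
    · rw [dth_of, X.ds_gt hi (show q - 1 + 1 = q by omega) rfl,
        hn i (le_trans (le_max_left _ _) (hk.trans hi.le)), X.s_pt, nrm_left]
      exact FrG.of_pt
  | hneg p hp =>
    obtain ⟨n, hn⟩ := hp
    refine ⟨n, fun k hk => ?_⟩
    obtain ⟨h1, h2, h3⟩ := hn k hk
    refine ⟨?_, ?_, fun i hi => ?_⟩
    · rw [map_neg, h1, neg_zero]
    · rw [map_neg, h2]
    · rw [map_neg, h3 i hi, neg_zero]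
  | hadd y z hy hz =>
    obtain ⟨n, hn⟩ := hy
    obtain ⟨m, hm⟩ := hz
    refine ⟨max n m, fun k hk => ?_⟩
    obtain ⟨h1, h2, h3⟩ := hn k (le_trans (le_max_left _ _) hk)
    obtain ⟨h4, h5, h6⟩ := hm k (le_trans (le_max_right _ _) hk)
    refine ⟨?_, ?_, fun i hi => ?_⟩
    · rw [map_add, h1, h4, add_zero]
    · rw [map_add, h2, h5]
    · rw [map_add, h3 i hi, h6 i hi, add_zero]

/-- **The free group spectrum of a levelwise smash product is acyclic.**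
PROOF: let `z` be a cycle of `F (X ∧ Y)` of degree `q`; choose `k` such that `d_i x = pt`,
`d_i y = pt` for `i ≥ k` and all letters `(x, y)` of `z`.  The homomorphism
`θ_k : F (X ∧ Y)_q → F (X ∧ Y)_{q+1}`, `(x, y) ↦ (s_k x, s_{k+1} y)`, satisfies `d_i θ_k = θ_{k-1} d_i`
for `i < k`; on the subgroup generated by the letters with the above property `d_k θ_k = 0`,
`d_{k+1} θ_k = id`, `d_i θ_k = 0` for `i > k + 1`.  Hence `θ_k z` has the only face
`d_{k+1} θ_k z = z` and `GSp.face` applies. -/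
theorem smash_acyclic (X Y : PSp) : (X.smash Y).F.Acyclic := by
  intro q z hz
  obtain ⟨n, hn⟩ := sd_high X Y z
  obtain ⟨h1, h2, h3⟩ := hn (n + 1) (Nat.le_succ n)
  have h4 := GSp.face (X.smash Y).F (rfl : q + 1 = q + 1) (n + 1 + 1)
    (sth X Y (n + 1) rfl z) (fun i hi => by
      rcases lt_trichotomy i (n + 1) with h | h | h
      · rw [sd_low X Y (Nat.lt_succ_iff.1 h) (show q - 1 + 1 = q by omega) rfl,
          hz i (show q - 1 + 1 = q by omega), map_zero]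
      · subst h
        exact h1
      · obtain ⟨j, rfl⟩ : ∃ j, i = j + 1 := ⟨i - 1, by omega⟩
        exact h3 j (by omega))
  have h5 : (X.smash Y).F.d (n + 1 + 1) (rfl : q + 1 = q + 1) (sth X Y (n + 1) rfl z) = z := h2
  rwa [h5] at h4

end BPN
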