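import Pool.Agent.BPN.S.Pi

/-!
# Whitehead theorem (project BPN, module S/WH)
-/

namespace BPN

open GSp

variable {X : PSp} {G H K : GSp}

theorem Map.WE.comp {c : Map H.U K} {b : Map G.U H} (hc : c.WE) (hb : b.WE) :
    (Map.comp c b).WE := fun q => by
  rw [Map.pi_comp]; exact (hc q).comp (hb q)

theorem Map.we_id (G : GSp) : (Map.id G).WE := fun q => by
  rw [Map.pi_id]; exact Function.bijective_id

/-- Two out of three. -/
theorem Map.WE.of_comp_left {c : Map H.U K} {b : Map G.U H} (h : (Map.comp c b).WE) (hc : c.WE) :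
    b.WE := fun q => by
  have h1 := h q
  rw [Map.pi_comp] at h1
  exact ((hc q).of_comp_iff' (b.pi q)).mp h1

theorem Map.WE.of_comp_right {c : Map H.U K} {b : Map G.U H} (h : (Map.comp c b).WE)
    (hb : b.WE) : c.WE := fun q => by
  have h1 := h q
  rw [Map.pi_comp] at h1
  exact (Function.Bijective.of_comp_iff (c.pi q) (hb q)).mp h1

theorem Map.WE.congr {b c : Map G.U H} (h : HC.mk b = HC.mk c) (hb : b.WE) : c.WE := fun q => by
  rw [← Map.pi_congr h q]; exact hb q

/-- The set-level map `(g, b) ↦ c g + d_0 b` from `G × P H` to `H`. -/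
def Map.cyl (c : Map G.U H) : Map (G.prod H.P).U H where
  f := fun q x => c.f q x.1 + H.d 0 rfl x.2
  map_pt := fun q => by
    change c.f q 0 + H.d 0 rfl 0 = 0
    rw [map_zero, add_zero]; exact c.map_pt q
  map_d := fun i q r h x => by
    change c.f q (G.d i h x.1) + H.dP.f q (H.P.d i h x.2) = H.d i h (c.f r x.1 + H.dP.f r x.2)
    rw [map_add, H.dP.map_d]
    congr 1
    exact c.map_d i h x.1
  map_s := fun i q r h x => by
    change c.f r (G.s i h x.1) + H.dP.f r (H.P.s i h x.2) = H.s i h (c.f q x.1 + H.dP.f q x.2)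
    rw [map_add, H.dP.map_s]
    congr 1
    exact c.map_s i h x.1

/-- The mapping cylinder: the free group spectrum on `G × P H`. -/
noncomputable abbrev Map.Cyl (_c : Map G.U H) : GSp := (G.prod H.P).U.F

/-- The surjective homomorphism `Cyl c → H`. -/
noncomputable def Map.cylP (c : Map G.U H) : Hom c.Cyl H := c.cyl.ext'

theorem Map.cylP_surj (c : Map G.U H) : c.cylP.Surj := by
  intro q x
  obtain ⟨b, hb⟩ := H.dP_surj q x
  refine ⟨FrG.of ((G.prod H.P).U.pt q) ((0 : G.G q), b), ?_⟩
  refine (c.cyl.ext'_of q ((0 : G.G q), b)).trans ?_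
  change c.f q 0 + H.dP.f q b = x
  have h : c.f q (0 : G.G q) = 0 := c.map_pt q
  rw [h, zero_add]
  exact hb

/-- The set-level map `G → Cyl c`. -/
noncomputable def Map.cylI (c : Map G.U H) : Map G.U c.Cyl :=
  Map.comp (PSp.eta (G.prod H.P).U) (Map.pair (Map.id G) (0 : Map G.U H.P))

theorem Map.cylP_cylI (c : Map G.U H) : Map.comp (Map.ofHom c.cylP) c.cylI = c := by
  refine Map.ext2 fun q x => ?_
  refine (c.cyl.ext'_of q (x, (0 : H.P.G q))).trans ?_
  change c.f q x + H.dP.f q 0 = c.f q x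
  rw [map_zero, add_zero]

private theorem fst_we (G K : GSp) (hK : K.Acyclic) : (Map.ofHom (fst G K)).WE := by
  intro q
  have h0 : ∀ x : K.pi q, x = 0 := vanish_iff.mp ((GSp.acyclic_iff K).mp hK q)
  have hb := prod_pi_bijective G K q
  constructor
  · intro x y hxy
    refine hb.1 (Prod.ext hxy ?_)
    exact (h0 _).trans (h0 _).symm
  · intro a
    obtain ⟨x, hx⟩ := hb.2 (a, 0)
    exact ⟨x, congrArg Prod.fst hx⟩

private theorem fst_surj (G K : GSp) : (fst G K).Surj := fun _ x => ⟨(x, 0), rfl⟩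

/-- `G → Cyl c` is a weak equivalence (`Cyl c ≃ G × P H ≃ G`, `eta_we`, `P_acyclic`). -/
theorem Map.cylI_we (c : Map G.U H) : c.cylI.WE := by
  refine Map.WE.comp (eta_we (G.prod H.P)) ?_
  refine Map.WE.of_comp_left (c := Map.ofHom (fst G H.P)) ?_ (fst_we G H.P H.P_acyclic)
  have h : Map.comp (Map.ofHom (fst G H.P)) (Map.pair (Map.id G) (0 : Map G.U H.P)) = Map.id G :=
    Map.ext2 fun q x => rfl
  rw [h]
  exact Map.we_id G

private theorem hom_bij {X : PSp} {G H : GSp} (p : Hom G H) (hp : p.Surj) (h : (Map.ofHom p).WE) :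
    Function.Bijective (HC.comp (Map.ofHom p) : HC X G →+ HC X H) :=
  HC.post_bijective p hp ((we_iff p hp).mp h)

private theorem bij_of_comp_id {A B : Type} {f : A → B} {g : B → A} (hg : Function.Bijective g)
    (h : ∀ x, g (f x) = x) : Function.Bijective f := by
  constructor
  · intro x y hxy
    rw [← h x, ← h y, hxy]
  · intro y
    exact ⟨g y, hg.1 (h (g y))⟩

/-- **Whitehead theorem.**  PROOF: first for a surjective homomorphism (`we_iff`,
`HC.post_bijective`); then for `cylI`: `Cyl c → G × P H → G` are surjective homomorphisms which are weak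
equivalences and the composite with `cylI` is the identity; then for `c = cylP ∘ cylI`, `cylP` being a
surjective weak equivalence by two out of three. -/
theorem Map.WE.comp_bijective {c : Map G.U H} (hc : c.WE) :
    Function.Bijective (HC.comp c : HC X G →+ HC X H) := by
  have hI : Function.Bijective (HC.comp c.cylI : HC X G →+ HC X c.Cyl) := by
    have h1 : Function.Bijective (HC.comp (Map.ofHom (G.prod H.P).eps) :
        HC X c.Cyl →+ HC X (G.prod H.P)) := hom_bij _ (G.prod H.P).eps_surj (eps_we _)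
    have h2 : Function.Bijective (HC.comp (Map.ofHom (fst G H.P)) :
        HC X (G.prod H.P) →+ HC X G) := hom_bij _ (fst_surj G H.P) (fst_we G H.P H.P_acyclic)
    have e : Map.comp (Map.ofHom (fst G H.P)) (Map.comp (Map.ofHom (G.prod H.P).eps) c.cylI) =
        Map.id G := by
      refine Map.ext2 fun q x => ?_
      have h3 : (G.prod H.P).eps.f q (FrG.of ((G.prod H.P).U.pt q) (x, (0 : H.P.G q))) =
          (x, (0 : H.P.G q)) := (Map.id (G.prod H.P)).ext'_of q (x, (0 : H.P.G q))
      exact congrArg Prod.fst h3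
    refine bij_of_comp_id (h2.comp h1) fun x => ?_
    change HC.comp (Map.ofHom (fst G H.P)) (HC.comp (Map.ofHom (G.prod H.P).eps)
      (HC.comp c.cylI x)) = x
    rw [HC.comp_comp, HC.comp_comp]
    have e2 : Map.comp (Map.comp (Map.ofHom (fst G H.P)) (Map.ofHom (G.prod H.P).eps)) c.cylI =
        Map.id G := e
    rw [e2]
    obtain ⟨a, rfl⟩ := HC.mk_surj x
    rfl
  have hP : (Map.ofHom c.cylP).WE := by
    refine Map.WE.of_comp_right (b := c.cylI) ?_ c.cylI_we
    rw [c.cylP_cylI]
    exact hc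
  have h3 := (hom_bij (X := X) c.cylP c.cylP_surj hP).comp hI
  have h4 : (HC.comp c : HC X G → HC X H) = HC.comp (Map.ofHom c.cylP) ∘ HC.comp c.cylI := by
    funext x
    change _ = HC.comp (Map.ofHom c.cylP) (HC.comp c.cylI x)
    rw [HC.comp_comp, c.cylP_cylI]
  rw [h4]
  exact h3

/-- Weak equivalences are homotopy equivalences. -/
theorem Map.WE.exists_inv {c : Map G.U H} (hc : c.WE) :
    ∃ v : Map H.U G, HC.mk (Map.comp c v) = HC.mk (Map.id H) ∧
      HC.mk (Map.comp v c) = HC.mk (Map.id G) := by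
  obtain ⟨y, hy⟩ := (hc.comp_bijective (X := H.U)).2 (HC.mk (Map.id H))
  obtain ⟨v, rfl⟩ := HC.mk_surj y
  have h1 : HC.mk (Map.comp c v) = HC.mk (Map.id H) := hy
  refine ⟨v, h1, ?_⟩
  apply (hc.comp_bijective (X := G.U)).1
  have h2 := DFunLike.congr_fun (HC.comp_congr (X := G.U) h1) (HC.mk c)
  exact h2

/-- Precomposition with a weak equivalence is bijective on homotopy classes. -/
theorem Map.WE.pre_bijective {c : Map G.U H} (hc : c.WE) :
    Function.Bijective (HC.pre c.toHom : HC H.U K →+ HC G.U K) := by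
  obtain ⟨v, h1, h2⟩ := hc.exists_inv
  have e1 : ∀ x : HC H.U K, HC.pre v.toHom (HC.pre c.toHom x) = x := by
    intro x
    obtain ⟨a, rfl⟩ := HC.mk_surj x
    exact congrArg (HC.comp a) h1
  have e2 : ∀ x : HC G.U K, HC.pre c.toHom (HC.pre v.toHom x) = x := by
    intro x
    obtain ⟨a, rfl⟩ := HC.mk_surj x
    exact congrArg (HC.comp a) h2
  constructor
  · intro x y hxy
    rw [← e1 x, ← e1 y, hxy]
  · intro y
    exact ⟨HC.pre v.toHom y, e2 y⟩

/-- Maps from an acyclic group spectrum are nullhomotopic. -/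
theorem Map.null_of_acyclic_source (hG : G.Acyclic) (a : Map G.U H) : a.Null :=
  (Map.null_of_acyclic hG (Map.id G)).comp a

end BPN
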